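import Mathlib

set_option autoImplicit false
set_option linter.unusedSectionVars false
set_option linter.unusedSimpArgs false

open MeasureTheory Filter Topology Set Metric
open scoped NNReal ENNReal

noncomputable section

namespace Pool.Agent.H287Z.A2

variable {d : ℕ}

abbrev X (d : ℕ) : Type := EuclideanSpace ℝ (Fin d)
abbrev Ix (d : ℕ) : Type := Fin d → ℤ

def sh (t : Fin d → Bool) (k : ℤ) (i : Fin d) : ℝ := if t i then (-1) ^ k / 3 else 0

def idx (t : Fin d → Bool) (k : ℤ) (x : X d) : Ix d := fun i => ⌊2 ^ k * x i - sh t k i⌋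

def cube (t : Fin d → Bool) (k : ℤ) (m : Ix d) : Set (X d) := {x | idx t k x = m}

def ctr (t : Fin d → Bool) (k : ℤ) (m : Ix d) : X d :=
  WithLp.toLp 2 fun i => ((m i : ℝ) + sh t k i + 1 / 2) / 2 ^ k

def ell (k : ℤ) : ℝ := 2 ^ (-k)

def rad (d : ℕ) (k : ℤ) : ℝ := (d + 1) * ell k

theorem ell_pos (k : ℤ) : 0 < ell k := zpow_pos two_pos _

theorem rad_pos (k : ℤ) : 0 < rad d k := mul_pos (by positivity) (ell_pos k)

theorem ell_add (k : ℤ) (s : ℕ) : ell k = 2 ^ s * ell (k + s) := by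
  unfold ell
  rw [← zpow_natCast, ← zpow_add₀ two_ne_zero]
  congr 1
  ring

theorem rad_add (k : ℤ) (s : ℕ) : rad d k = 2 ^ s * rad d (k + s) := by
  unfold rad
  rw [ell_add k s]
  ring

theorem rad_succ (k : ℤ) : rad d k = 2 * rad d (k + 1) := by
  simpa using rad_add (d := d) k 1

theorem mul_ell (k : ℤ) : 2 ^ k * ell k = 1 := by
  unfold ell
  rw [← zpow_add₀ two_ne_zero]
  simp

theorem mem_cube_self (t : Fin d → Bool) (k : ℤ) (x : X d) : x ∈ cube t k (idx t k x) := rfl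

theorem idx_succ (t : Fin d → Bool) (k : ℤ) {x y : X d} (h : idx t (k + 1) x = idx t (k + 1) y) :
    idx t k x = idx t k y := by
  funext i
  obtain ⟨n, hn, hn'⟩ : ∃ n : ℤ, sh t k i = n / 3 ∧ sh t (k + 1) i = -(n / 3) := by
    unfold sh
    split_ifs
    · rcases Int.even_or_odd k with h | h
      · exact ⟨1, by simp [h.neg_one_zpow], by simp [h.add_one.neg_one_zpow, neg_div]⟩
      · exact ⟨-1, by simp [h.neg_one_zpow], by simp [h.add_one.neg_one_zpow, neg_div]⟩
    · exact ⟨0, by simp, by simp⟩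
  have key : ∀ z : X d, idx t k z i = (idx t (k + 1) z i - n) / 2 := by
    intro z
    unfold idx
    have : 2 ^ k * z i - sh t k i = ((2 ^ (k + 1) * z i - sh t (k + 1) i) - n) / (2 : ℕ) := by
      rw [hn, hn', zpow_add_one₀ two_ne_zero]
      push_cast
      ring
    rw [this, Int.floor_div_natCast, Int.floor_sub_intCast]
    rfl
  rw [key, key, h]

theorem idx_le (t : Fin d → Bool) {k j : ℤ} (hkj : k ≤ j) {x y : X d} (h : idx t j x = idx t j y) :
    idx t k x = idx t k y := by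
  induction j, hkj using Int.leInduction with
  | base => exact h
  | succ j _ ih => exact ih (idx_succ t j h)

theorem cube_subset (t : Fin d → Bool) {k j : ℤ} (hkj : k ≤ j) (x : X d) :
    cube t j (idx t j x) ⊆ cube t k (idx t k x) := fun _ hy => idx_le t hkj hy

theorem mem_cube_iff (t : Fin d → Bool) (k : ℤ) (m : Ix d) (x : X d) :
    x ∈ cube t k m ↔ ∀ i, x i ∈ Ico ((m i + sh t k i) * ell k) ((m i + sh t k i + 1) * ell k) := by
  have h2 : (0 : ℝ) < 2 ^ k := zpow_pos two_pos _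
  have e : ∀ a : ℝ, a * ell k = a / 2 ^ k := fun a => by
    rw [eq_div_iff h2.ne', mul_assoc, mul_comm (ell k), mul_ell, mul_one]
  unfold cube idx
  rw [mem_ofPred_eq, funext_iff]
  refine forall_congr' fun i => ?_
  rw [Int.floor_eq_iff, mem_Ico, e, e, div_le_iff₀ h2, lt_div_iff₀ h2]
  constructor <;> rintro ⟨h1, h2⟩ <;> constructor <;> linarith

theorem ctr_apply (t : Fin d → Bool) (k : ℤ) (m : Ix d) (i : Fin d) :
    ctr t k m i = (m i + sh t k i + 1 / 2) * ell k := by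
  have h2 : (0 : ℝ) < 2 ^ k := zpow_pos two_pos _
  show ((m i : ℝ) + sh t k i + 1 / 2) / 2 ^ k = _
  rw [div_eq_iff h2.ne', mul_assoc, mul_comm (ell k), mul_ell, mul_one]

theorem abs_apply_le (x y : X d) (i : Fin d) : |x i - y i| ≤ dist x y := by
  rw [← Real.dist_eq]
  exact PiLp.dist_apply_le x y i

theorem ball_subset_cube (t : Fin d → Bool) (k : ℤ) (m : Ix d) :
    ball (ctr t k m) (ell k / 2) ⊆ cube t k m := by
  intro x hx
  rw [mem_cube_iff]
  intro i
  have h := (abs_apply_le x (ctr t k m) i).trans_lt hx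
  rw [ctr_apply, abs_lt] at h
  constructor <;> nlinarith [h.1, h.2]

theorem ctr_mem (t : Fin d → Bool) (k : ℤ) (m : Ix d) : ctr t k m ∈ cube t k m :=
  ball_subset_cube t k m (mem_ball_self (half_pos (ell_pos k)))

theorem cube_subset_ball (t : Fin d → Bool) (k : ℤ) (m : Ix d) :
    cube t k m ⊆ ball (ctr t k m) (rad d k) := by
  intro x hx
  rw [mem_cube_iff] at hx
  rw [mem_ball, EuclideanSpace.dist_eq, Real.sqrt_lt' (rad_pos k)]
  simp only [Real.dist_eq, sq_abs]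
  have hl := ell_pos k
  have h1 : ∀ i, (x i - ctr t k m i) ^ 2 ≤ ell k ^ 2 := by
    intro i
    obtain ⟨h1, h2⟩ := hx i
    rw [ctr_apply]
    apply sq_le_sq'
    · nlinarith
    · nlinarith
  calc ∑ i, (x i - ctr t k m i) ^ 2 ≤ ∑ _i : Fin d, ell k ^ 2 := Finset.sum_le_sum fun i _ => h1 i
    _ = d * ell k ^ 2 := by simp
    _ < rad d k ^ 2 := by
      unfold rad
      have : (0 : ℝ) ≤ d := Nat.cast_nonneg d
      rw [mul_pow]
      apply mul_lt_mul_of_pos_right _ (by positivity)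
      nlinarith

theorem dist_lt_of_idx (t : Fin d → Bool) (k : ℤ) {x y : X d} (h : idx t k x = idx t k y) :
    dist x y < 2 * rad d k := by
  have h1 := cube_subset_ball t k _ (mem_cube_self t k y)
  have h2 : x ∈ ball (ctr t k (idx t k y)) (rad d k) := cube_subset_ball t k _ h
  rw [mem_ball] at h1 h2
  linarith [dist_triangle_right x y (ctr t k (idx t k y))]

theorem cube_eq (t : Fin d → Bool) (k : ℤ) (m : Ix d) : cube t k m =
    WithLp.ofLp ⁻¹' (Set.pi univ fun i =>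
      Ico ((m i + sh t k i) * ell k) ((m i + sh t k i + 1) * ell k)) := by
  ext x
  rw [mem_cube_iff]
  simp

theorem measurableSet_cube (t : Fin d → Bool) (k : ℤ) (m : Ix d) : MeasurableSet (cube t k m) := by
  rw [cube_eq]
  exact (PiLp.volume_preserving_ofLp (Fin d)).measurable
    (MeasurableSet.univ_pi fun i => measurableSet_Ico)

/-- the volume of a cube of level `k` -/
def lam (d : ℕ) (k : ℤ) : ℝ≥0∞ := ENNReal.ofReal (ell k ^ d)

theorem lam_ne_zero (k : ℤ) : lam d k ≠ 0 :=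
  (ENNReal.ofReal_pos.2 (pow_pos (ell_pos k) d)).ne'

theorem lam_ne_top (k : ℤ) : lam d k ≠ ⊤ := ENNReal.ofReal_ne_top

theorem lam_add (k : ℤ) (s : ℕ) : lam d k = (2 ^ d) ^ s * lam d (k + s) := by
  unfold lam
  rw [ell_add k s, mul_pow, ENNReal.ofReal_mul (by positivity), ← pow_mul, ← pow_mul,
    ENNReal.ofReal_pow (by norm_num), mul_comm s d]
  simp

theorem volume_cube (t : Fin d → Bool) (k : ℤ) (m : Ix d) : volume (cube t k m) = lam d k := by
  rw [cube_eq, (PiLp.volume_preserving_ofLp (Fin d)).measure_preimage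
    (MeasurableSet.univ_pi fun i => measurableSet_Ico).nullMeasurableSet, Real.volume_pi_Ico]
  have : ∀ i, (m i + sh t k i + 1) * ell k - (m i + sh t k i) * ell k = ell k := fun i => by ring
  simp only [this, Finset.prod_const, Finset.card_univ, Fintype.card_fin]
  rw [lam, ENNReal.ofReal_pow (ell_pos k).le]

theorem measurable_idx (t : Fin d → Bool) (k : ℤ) : Measurable (idx t k) :=
  measurable_to_countable' fun m => measurableSet_cube t k m

theorem floor_cover (a e : ℝ) (he : e = 1 ∨ e = -1) :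
    (∀ b, |b - a| < 1 / 6 → ⌊b⌋ = ⌊a⌋) ∨ ∀ b, |b - a| < 1 / 6 → ⌊b - e / 3⌋ = ⌊a - e / 3⌋ := by
  have h1 := Int.floor_le a
  have h2 := Int.lt_floor_add_one a
  by_cases h : (⌊a⌋ : ℝ) + 1 / 6 ≤ a ∧ a ≤ ⌊a⌋ + 5 / 6
  · left
    intro b hb
    rw [abs_lt] at hb
    rw [Int.floor_eq_iff]
    constructor <;> linarith [h.1, h.2]
  · right
    have key : ∀ n : ℤ, (n : ℝ) + 1 / 6 ≤ a - e / 3 → a - e / 3 ≤ n + 5 / 6 →
        ∀ b, |b - a| < 1 / 6 → ⌊b - e / 3⌋ = ⌊a - e / 3⌋ := by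
      intro n h3 h4 b hb
      rw [abs_lt] at hb
      have : ⌊a - e / 3⌋ = n := by
        rw [Int.floor_eq_iff]
        constructor <;> linarith
      rw [this, Int.floor_eq_iff]
      constructor <;> linarith
    rw [not_and_or, not_le, not_le] at h
    rcases h with h | h <;> rcases he with rfl | rfl
    · exact key (⌊a⌋ - 1) (by push_cast; linarith) (by push_cast; linarith)
    · exact key ⌊a⌋ (by linarith) (by linarith)
    · exact key ⌊a⌋ (by linarith) (by linarith)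
    · exact key (⌊a⌋ + 1) (by push_cast; linarith) (by push_cast; linarith)

theorem exists_grid (z : X d) (k : ℤ) :
    ∃ t : Fin d → Bool, ball z (ell k / 6) ⊆ cube t k (idx t k z) := by
  have he : ((-1 : ℝ) ^ k = 1 ∨ (-1 : ℝ) ^ k = -1) := by
    rcases Int.even_or_odd k with h | h
    · exact Or.inl h.neg_one_zpow
    · exact Or.inr h.neg_one_zpow
  have key : ∀ i, ∃ b : Bool, ∀ y : ℝ, |y - 2 ^ k * z i| < 1 / 6 →
      ⌊y - (if b then (-1 : ℝ) ^ k / 3 else 0)⌋ =
        ⌊2 ^ k * z i - (if b then (-1 : ℝ) ^ k / 3 else 0)⌋ := by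
    intro i
    rcases floor_cover (2 ^ k * z i) _ he with h | h
    · exact ⟨false, by simpa using h⟩
    · exact ⟨true, by simpa using h⟩
  choose t ht using key
  refine ⟨t, fun y hy => funext fun i => ht i _ ?_⟩
  have h := (abs_apply_le y z i).trans_lt hy
  have h2 : (0 : ℝ) < 2 ^ k := zpow_pos two_pos _
  rw [← mul_sub, abs_mul, abs_of_pos h2]
  calc 2 ^ k * |y i - z i| < 2 ^ k * (ell k / 6) := mul_lt_mul_of_pos_left h h2
    _ = 1 / 6 := by rw [← mul_div_assoc, mul_ell]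

theorem tendsto_ell : Tendsto ell atTop (𝓝[>] 0) := by
  rw [tendsto_nhdsWithin_iff]
  refine ⟨?_, Eventually.of_forall ell_pos⟩
  rw [tendsto_order]
  refine ⟨fun a ha => Eventually.of_forall fun k => ha.trans (ell_pos k), fun a ha => ?_⟩
  obtain ⟨n, hn⟩ := exists_pow_lt_of_lt_one ha (by norm_num : (1 / 2 : ℝ) < 1)
  filter_upwards [eventually_ge_atTop (n : ℤ)] with k hk
  refine lt_of_le_of_lt ?_ hn
  unfold ell
  rw [one_div, inv_pow, ← zpow_natCast, ← zpow_neg]
  exact zpow_le_zpow_right₀ (by norm_num) (neg_le_neg hk)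

/-- sums over the cubes of one level -/
theorem lintegral_eq_tsum (t : Fin d → Bool) (k : ℤ) (μ : Measure (X d)) (G : X d → ℝ≥0∞) :
    ∫⁻ x, G x ∂μ = ∑' m, ∫⁻ x in cube t k m, G x ∂μ := by
  rw [← lintegral_iUnion (measurableSet_cube t k)]
  · have : ⋃ m, cube t k m = univ := eq_univ_of_forall fun x => mem_iUnion.2 ⟨_, mem_cube_self t k x⟩
    rw [this, Measure.restrict_univ]
  · intro m m' h
    exact Set.disjoint_left.2 fun x h1 h2 => h (h1.symm.trans h2)

/-- the stopping time decomposition -/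
theorem stop_decomp (t : Fin d → Bool) (Bad : ℤ → Ix d → Prop) (k₀ : ℤ) (m₀ : Ix d) :
    ∃ P : Set (ℤ × Ix d), (∀ p ∈ P, k₀ ≤ p.1 ∧ cube t p.1 p.2 ⊆ cube t k₀ m₀ ∧ Bad p.1 p.2 ∧
      ∀ x ∈ cube t p.1 p.2, ∀ i, k₀ ≤ i → i < p.1 → ¬ Bad i (idx t i x)) ∧
      (P.PairwiseDisjoint fun p => cube t p.1 p.2) ∧
      ∀ x ∈ cube t k₀ m₀, (∃ j, k₀ ≤ j ∧ Bad j (idx t j x)) → ∃ p ∈ P, x ∈ cube t p.1 p.2 := by
  refine ⟨{p | k₀ ≤ p.1 ∧ cube t p.1 p.2 ⊆ cube t k₀ m₀ ∧ Bad p.1 p.2 ∧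
      ∀ x ∈ cube t p.1 p.2, ∀ i, k₀ ≤ i → i < p.1 → ¬ Bad i (idx t i x)}, fun p hp => hp, ?_, ?_⟩
  · rintro ⟨j, m⟩ hp ⟨j', m'⟩ hq hne
    refine Set.disjoint_left.2 fun x h1 h2 => ?_
    have e1 : idx t j x = m := h1
    have e2 : idx t j' x = m' := h2
    rcases lt_trichotomy j j' with h | h | h
    · exact hq.2.2.2 x h2 j hp.1 h (e1 ▸ hp.2.2.1)
    · subst h
      exact hne (by rw [← e1, ← e2])
    · exact hp.2.2.2 x h1 j' hq.1 h (e2 ▸ hq.2.2.1)
  · intro x hx hex
    obtain ⟨j, ⟨h1, h2⟩, h3⟩ := Int.exists_least_of_bdd (P := fun j => k₀ ≤ j ∧ Bad j (idx t j x))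
      ⟨k₀, fun z hz => hz.1⟩ hex
    refine ⟨(j, idx t j x), ⟨h1, ?_, h2, ?_⟩, rfl⟩
    · have e : idx t k₀ x = m₀ := hx
      rw [← e]
      exact cube_subset t h1 x
    · intro y hy i hi hij hb
      have e : idx t i y = idx t i x := idx_le t hij.le hy
      rw [e] at hb
      exact absurd (h3 i ⟨hi, hb⟩) (not_le.2 hij)

end Pool.Agent.H287Z.A2
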