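import Mathlib
import Pool.Agent.H287Z.A2.Grid

set_option autoImplicit false
set_option linter.unusedSectionVars false
set_option linter.unusedSimpArgs false

open MeasureTheory Filter Topology Set Metric
open scoped NNReal ENNReal

noncomputable section

namespace Pool.Agent.H287Z.A2

theorem psi_one (a : ℝ≥0∞) :
    ∫⁻ s in Ioi (0 : ℝ), (if ENNReal.ofReal s < a then 1 else 0) = a := by
  have hm : MeasurableSet {s : ℝ | ENNReal.ofReal s < a} :=
    measurableSet_lt ENNReal.measurable_ofReal measurable_const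
  have h1 : (fun s : ℝ => if ENNReal.ofReal s < a then (1 : ℝ≥0∞) else 0) =
      {s : ℝ | ENNReal.ofReal s < a}.indicator 1 := by
    ext s
    simp [indicator]
  rw [h1, lintegral_indicator_one hm, Measure.restrict_apply hm]
  rcases eq_or_ne a ⊤ with rfl | ha
  · simp
  · have : {s : ℝ | ENNReal.ofReal s < a} ∩ Ioi 0 = Ioo 0 a.toReal := by
      ext s
      simp only [mem_inter_iff, mem_ofPred_eq, mem_Ioi, mem_Ioo]
      constructor
      · rintro ⟨h1, h2⟩
        exact ⟨h2, (ENNReal.ofReal_lt_iff_lt_toReal h2.le ha).1 h1⟩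
      · rintro ⟨h1, h2⟩
        exact ⟨(ENNReal.ofReal_lt_iff_lt_toReal h1.le ha).2 h2, h1⟩
    rw [this, Real.volume_Ioo, sub_zero, ENNReal.ofReal_toReal ha]

theorem psi_three (a : ℝ≥0∞) :
    a ^ 3 ≤ ∫⁻ s in Ioi (0 : ℝ), (if ENNReal.ofReal s < a then ENNReal.ofReal (3 * s ^ 2) else 0) := by
  have key : ∀ r : ℝ, 0 ≤ r → ENNReal.ofReal r ≤ a → ENNReal.ofReal (r ^ 3) ≤
      ∫⁻ s in Ioi (0 : ℝ), (if ENNReal.ofReal s < a then ENNReal.ofReal (3 * s ^ 2) else 0) := by
    intro r hr hra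
    have h1 : ∫ s in Ioo 0 r, 3 * s ^ 2 = r ^ 3 := by
      rw [← integral_Ioc_eq_integral_Ioo, ← intervalIntegral.integral_of_le hr,
        intervalIntegral.integral_const_mul, integral_pow]
      norm_num
      ring
    have h2 : IntegrableOn (fun s : ℝ => 3 * s ^ 2) (Ioo 0 r) :=
      ((by fun_prop : Continuous fun s : ℝ => 3 * s ^ 2).integrableOn_Icc).mono_set
        Ioo_subset_Icc_self
    rw [← h1, ofReal_integral_eq_lintegral_ofReal h2 (Eventually.of_forall fun s => by positivity)]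
    refine le_trans (setLIntegral_mono' measurableSet_Ioo fun s hs => ?_)
      (lintegral_mono_set Ioo_subset_Ioi_self)
    rw [if_pos (((ENNReal.ofReal_lt_ofReal_iff (hs.1.trans hs.2)).2 hs.2).trans_le hra)]
  rcases eq_or_ne a ⊤ with rfl | ha
  · refine le_trans le_top (ENNReal.eq_top_of_forall_nnreal_le fun r => ?_).ge
    refine le_trans ?_ (key (r + 1) (by positivity) le_top)
    rw [← ENNReal.ofReal_coe_nnreal]
    apply ENNReal.ofReal_le_ofReal
    have : (0 : ℝ) ≤ r := r.2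
    nlinarith [sq_nonneg (r : ℝ), mul_nonneg this (sq_nonneg (r : ℝ))]
  · have := key a.toReal ENNReal.toReal_nonneg (ENNReal.ofReal_toReal ha).le
    rwa [ENNReal.ofReal_pow ENNReal.toReal_nonneg, ENNReal.ofReal_toReal ha] at this

theorem layer {Y : Type} [MeasurableSpace Y] (ν : Measure Y) [SFinite ν] {G : Y → ℝ≥0∞}
    (hG : Measurable G) {ψ : ℝ → ℝ≥0∞} (hψ : Measurable ψ) :
    ∫⁻ y, (∫⁻ s in Ioi (0 : ℝ), (if ENNReal.ofReal s < G y then ψ s else 0)) ∂ν =
      ∫⁻ s in Ioi (0 : ℝ), ν {y | ENNReal.ofReal s < G y} * ψ s := by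
  rw [lintegral_lintegral_swap]
  · refine lintegral_congr fun s => ?_
    have hm : MeasurableSet {y | ENNReal.ofReal s < G y} := measurableSet_lt measurable_const hG
    have h1 : (fun y => if ENNReal.ofReal s < G y then ψ s else 0) =
        {y | ENNReal.ofReal s < G y}.indicator fun _ => ψ s := by
      ext y
      simp [indicator]
    rw [h1, lintegral_indicator_const hm, mul_comm]
  · apply Measurable.aemeasurable
    exact Measurable.ite (measurableSet_lt (ENNReal.measurable_ofReal.comp measurable_snd)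
      (hG.comp measurable_fst)) (hψ.comp measurable_snd) measurable_const

theorem layer_one {Y : Type} [MeasurableSpace Y] (ν : Measure Y) [SFinite ν] {G : Y → ℝ≥0∞}
    (hG : Measurable G) : ∫⁻ y, G y ∂ν = ∫⁻ s in Ioi (0 : ℝ), ν {y | ENNReal.ofReal s < G y} := by
  have := layer ν hG (ψ := fun _ => 1) measurable_const
  simp only [psi_one, mul_one] at this
  exact this

theorem sq_lt_iff (s : ℝ) (hs : 0 < s) (a : ℝ≥0∞) :
    ENNReal.ofReal s < a ^ (1 / 2 : ℝ) ↔ ENNReal.ofReal (s ^ 2) < a := by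
  rw [one_div, ENNReal.lt_rpow_inv_iff two_pos, ENNReal.ofReal_pow hs.le]
  norm_num

theorem interp {Y Z : Type} [MeasurableSpace Y] [MeasurableSpace Z] (ν : Measure Y) [SFinite ν]
    (ν' : Measure Z) [SFinite ν'] {G : Y → ℝ≥0∞} (hG : Measurable G) {V : Z → ℝ≥0∞}
    (hV : Measurable V) (h : ∀ t : ℝ≥0∞, t * ν {y | t < G y} ≤ ν' {z | t < V z}) :
    ∫⁻ y, G y ^ (3 / 2 : ℝ) ∂ν ≤ 3 * ∫⁻ z, V z ^ (1 / 2 : ℝ) ∂ν' := by
  have h1 : ∀ y, G y ^ (3 / 2 : ℝ) = (G y ^ (1 / 2 : ℝ)) ^ 3 := fun y => by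
    rw [← ENNReal.rpow_natCast, ← ENNReal.rpow_mul]
    norm_num
  simp only [h1]
  refine (lintegral_mono fun y => psi_three _).trans ?_
  rw [layer ν (hG.pow_const _) (by fun_prop), layer_one ν' (hV.pow_const _),
    ← lintegral_const_mul' _ _ (by norm_num)]
  refine setLIntegral_mono' measurableSet_Ioi fun s hs => ?_
  simp only [sq_lt_iff s hs]
  rw [ENNReal.ofReal_mul (by norm_num), mul_comm, mul_assoc]
  simp only [ENNReal.ofReal_ofNat]
  exact mul_le_mul_right (h _) _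

open Classical in
theorem carleson {Y I : Type} [MeasurableSpace Y] [Countable I] (ν : Measure Y) [SFinite ν]
    {F : Y → ℝ≥0∞} (hF : Measurable F) (B : I → Set Y) (c : I → ℝ≥0∞) (C : ℝ≥0∞) (hC : C ≠ ⊤)
    (h : ∀ Ω, MeasurableSet Ω → ∑' i, (if B i ⊆ Ω then c i else 0) ≤ C * ν Ω) :
    ∑' i, c i * ⨅ z ∈ B i, F z ≤ C * ∫⁻ y, F y ∂ν := by
  have hm : ∀ a b : ℝ≥0∞, Measurable fun s : ℝ => if ENNReal.ofReal s < a then b else 0 :=
    fun a b => Measurable.ite (measurableSet_lt ENNReal.measurable_ofReal measurable_const)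
      measurable_const measurable_const
  have h1 : ∀ i, c i * ⨅ z ∈ B i, F z =
      ∫⁻ s in Ioi (0 : ℝ), (if ENNReal.ofReal s < ⨅ z ∈ B i, F z then c i else 0) := by
    intro i
    conv_lhs => rw [← psi_one (⨅ z ∈ B i, F z)]
    rw [← lintegral_const_mul _ (hm _ _)]
    simp
  simp only [h1]
  rw [← lintegral_tsum fun i => (hm _ _).aemeasurable, layer_one ν hF,
    ← lintegral_const_mul' _ _ hC]
  refine lintegral_mono fun s => le_trans ?_ (h _ (measurableSet_lt measurable_const hF))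
  refine ENNReal.tsum_le_tsum fun i => ?_
  split_ifs with h2 h3
  · exact le_rfl
  · exact absurd (fun z hz => h2.trans_le (biInf_le F hz)) h3
  · exact zero_le
  · exact le_rfl

variable {d : ℕ}

/-- the maximal function of `κ` with respect to `ν` -/
def Mx (ν κ : Measure (X d)) (x : X d) : ℝ≥0∞ :=
  ⨆ (z : X d) (ρ : ℝ) (_ : x ∈ ball z ρ), κ (ball z ρ) / ν (ball z (5 * ρ))

theorem lt_Mx_iff (ν κ : Measure (X d)) (t : ℝ≥0∞) (x : X d) :
    t < Mx ν κ x ↔ ∃ z ρ, x ∈ ball z ρ ∧ t < κ (ball z ρ) / ν (ball z (5 * ρ)) := by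
  simp only [Mx, lt_iSup_iff, exists_prop]

theorem isOpen_Mx (ν κ : Measure (X d)) (t : ℝ≥0∞) : IsOpen {x | t < Mx ν κ x} := by
  rw [isOpen_iff_mem_nhds]
  intro x hx
  obtain ⟨z, ρ, h1, h2⟩ := (lt_Mx_iff ν κ t x).1 hx
  filter_upwards [isOpen_ball.mem_nhds h1] with y hy
  exact (lt_Mx_iff ν κ t y).2 ⟨z, ρ, hy, h2⟩

theorem measurable_Mx (ν κ : Measure (X d)) : Measurable (Mx ν κ) :=
  measurable_of_Ioi fun t => (isOpen_Mx ν κ t).measurableSet

theorem le_Mx {ν κ : Measure (X d)} (hκ : κ ≪ ν) {x z : X d} {ρ : ℝ} (hx : x ∈ ball z ρ)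
    (hfin : ν (ball z (5 * ρ)) ≠ ⊤) : κ (ball z ρ) ≤ Mx ν κ x * ν (ball z (5 * ρ)) := by
  have hρ : 0 < ρ := pos_of_mem_ball hx
  rcases eq_or_ne (ν (ball z (5 * ρ))) 0 with h0 | h0
  · rw [hκ (measure_mono_null (ball_subset_ball (by linarith)) h0)]
    exact zero_le
  · rw [← ENNReal.div_le_iff h0 hfin]
    exact le_iSup_of_le z (le_iSup_of_le ρ (le_iSup_of_le hx le_rfl))

theorem weak_Mx (ν κ : Measure (X d)) (t : ℝ≥0∞) : t * ν {x | t < Mx ν κ x} ≤ κ univ := by
  let T : ℕ → Set (X d × ℝ) := fun R =>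
    {p | p.2 ≤ R ∧ 0 < p.2 ∧ t < κ (ball p.1 p.2) / ν (ball p.1 (5 * p.2))}
  have h1 : {x | t < Mx ν κ x} = ⋃ R : ℕ, ⋃ p ∈ T R, ball p.1 p.2 := by
    ext x
    simp only [mem_ofPred_eq, lt_Mx_iff, mem_iUnion, exists_prop]
    constructor
    · rintro ⟨z, ρ, h1, h2⟩
      obtain ⟨R, hR⟩ := exists_nat_ge ρ
      exact ⟨R, (z, ρ), ⟨hR, pos_of_mem_ball h1, h2⟩, h1⟩
    · rintro ⟨R, p, hp, h⟩
      exact ⟨p.1, p.2, h, hp.2.2⟩
  have hmono : Monotone fun R : ℕ => ⋃ p ∈ T R, ball p.1 p.2 := by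
    intro R R' hR
    refine biUnion_subset_biUnion_left fun p hp => ⟨hp.1.trans (by exact_mod_cast hR), hp.2⟩
  rw [h1, hmono.measure_iUnion, ENNReal.mul_iSup]
  refine iSup_le fun R => ?_
  obtain ⟨u, hu1, hu2, hu3⟩ := Vitali.exists_disjoint_subfamily_covering_enlargement_ball (T R)
    Prod.fst Prod.snd R (fun a ha => ha.1) 5 (by norm_num)
  have hc : u.Countable := hu2.countable_of_isOpen (fun _ _ => isOpen_ball)
    fun p hp => nonempty_ball.2 (hu1 hp).2.1
  have h2 : (⋃ p ∈ T R, ball p.1 p.2) ⊆ ⋃ p ∈ u, ball p.1 (5 * p.2) := by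
    refine iUnion₂_subset fun p hp => ?_
    obtain ⟨b, hb, hb'⟩ := hu3 p hp
    exact hb'.trans (subset_biUnion_of_mem (u := fun p : X d × ℝ => ball p.1 (5 * p.2)) hb)
  calc t * ν (⋃ p ∈ T R, ball p.1 p.2) ≤ t * ∑' p : u, ν (ball p.1.1 (5 * p.1.2)) :=
        mul_le_mul_right ((measure_mono h2).trans (measure_biUnion_le ν hc _)) _
    _ = ∑' p : u, t * ν (ball p.1.1 (5 * p.1.2)) := ENNReal.tsum_mul_left.symm
    _ ≤ ∑' p : u, κ (ball p.1.1 p.1.2) :=
        ENNReal.tsum_le_tsum fun p => ENNReal.mul_le_of_le_div (hu1 p.2).2.2.le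
    _ = κ (⋃ p ∈ u, ball p.1 p.2) := (measure_biUnion hc hu2 fun _ _ => measurableSet_ball).symm
    _ ≤ κ univ := measure_mono (subset_univ _)

theorem strong_Mx (ν : Measure (X d)) [SFinite ν] {u : X d → ℝ≥0∞} (hu : Measurable u) :
    ∫⁻ x, Mx ν (ν.withDensity u) x ^ (3 / 2 : ℝ) ∂ν ≤ 12 * ∫⁻ x, u x ^ (3 / 2 : ℝ) ∂ν := by
  have h := interp ν ((2 : ℝ≥0∞) • ν.withDensity u) (measurable_Mx ν (ν.withDensity u))
    (V := fun x => 2 * u x) (hu.const_mul 2) (by
      intro t
      rcases eq_or_ne t ⊤ with rfl | ht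
      · simp
      set s := t / 2 with hs
      have hts : t = 2 * s := by rw [hs, ENNReal.mul_div_cancel (by norm_num) (by norm_num)]
      have hs' : s ≠ ⊤ := ENNReal.div_ne_top ht (by norm_num)
      have hm : MeasurableSet {x | s < u x} := measurableSet_lt measurable_const hu
      have h1 : {x | t < Mx ν (ν.withDensity u) x} ⊆
          {x | s < Mx ν ((ν.withDensity u).restrict {x | s < u x}) x} := by
        intro x hx
        obtain ⟨z, ρ, h1, h2⟩ := (lt_Mx_iff _ _ _ _).1 hx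
        refine (lt_Mx_iff _ _ _ _).2 ⟨z, ρ, h1, ?_⟩
        have hρ : 0 < ρ := pos_of_mem_ball h1
        have h3 : ν.withDensity u (ball z ρ) ≤
            (ν.withDensity u).restrict {x | s < u x} (ball z ρ) + s * ν (ball z (5 * ρ)) := by
          rw [← measure_inter_add_sdiff (ball z ρ) hm, Measure.restrict_apply measurableSet_ball]
          gcongr
          rw [withDensity_apply _ (measurableSet_ball.diff hm)]
          calc ∫⁻ a in ball z ρ \ {x | s < u x}, u a ∂ν
              ≤ ∫⁻ _a in ball z ρ \ {x | s < u x}, s ∂ν :=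
                setLIntegral_mono' (measurableSet_ball.diff hm) fun y hy => not_lt.1 hy.2
            _ = s * ν (ball z ρ \ {x | s < u x}) := setLIntegral_const _ _
            _ ≤ _ := mul_le_mul_right (measure_mono
                (sdiff_subset.trans (ball_subset_ball (by linarith)))) _
        by_contra hcon
        rw [not_lt] at hcon
        have h4 : ν.withDensity u (ball z ρ) / ν (ball z (5 * ρ)) ≤ s + s := by
          refine (ENNReal.div_le_div_right h3 _).trans ?_
          rw [ENNReal.add_div]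
          refine add_le_add hcon ?_
          exact ENNReal.div_le_of_le_mul le_rfl
        rw [← two_mul, ← hts] at h4
        exact absurd h2 (not_lt.2 h4)
      have h2 := weak_Mx ν ((ν.withDensity u).restrict {x | s < u x}) s
      rw [Measure.restrict_apply MeasurableSet.univ, univ_inter] at h2
      have h3 : {z | t < 2 * u z} = {x | s < u x} := by
        ext x
        simp only [mem_ofPred_eq, hts]
        exact ENNReal.mul_lt_mul_iff_right (by norm_num) (by norm_num)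
      rw [h3, Measure.smul_apply, smul_eq_mul, hts, mul_assoc]
      rw [hts] at h1
      exact mul_le_mul_right ((mul_le_mul_right (measure_mono h1) _).trans h2) _)
  refine h.trans ?_
  rw [lintegral_smul_measure, lintegral_withDensity_eq_lintegral_mul _ hu
    ((hu.const_mul 2).pow_const _), smul_eq_mul, ← mul_assoc]
  have h12 : (12 : ℝ≥0∞) = 3 * 2 * 2 := by norm_num
  rw [h12, mul_assoc (3 * 2), ← lintegral_const_mul' 2 _ (by norm_num)]
  refine mul_le_mul_right (lintegral_mono fun x => ?_) _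
  simp only [Pi.mul_apply]
  rw [ENNReal.mul_rpow_of_nonneg _ _ (by norm_num), mul_left_comm]
  have h2 : (2 : ℝ≥0∞) ^ (1 / 2 : ℝ) ≤ 2 := by
    conv_rhs => rw [← ENNReal.rpow_one 2]
    exact ENNReal.rpow_le_rpow_of_exponent_le (by norm_num) (by norm_num)
  have h3 : u x * u x ^ (1 / 2 : ℝ) = u x ^ (3 / 2 : ℝ) := by
    rw [show (3 / 2 : ℝ) = 1 + 1 / 2 by norm_num,
      ENNReal.rpow_add_of_nonneg _ _ (by norm_num) (by norm_num), ENNReal.rpow_one]
  rw [h3]
  exact mul_le_mul_left h2 _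

end Pool.Agent.H287Z.A2
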