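import Mathlib
import Pool.Agent.H287Z.A2.Maximal

set_option autoImplicit false
set_option linter.unusedSectionVars false
set_option linter.unusedSimpArgs false

open MeasureTheory Filter Topology Set Metric
open scoped NNReal ENNReal

noncomputable section

namespace Pool.Agent.H287Z.A2

variable {d : ℕ}

def t0 : Fin d → Bool := fun _ => false

def Bn (k : ℤ) (m : Ix d) (n : ℕ) : Set (X d) := ball (ctr t0 k m) (5 ^ n * (3 * rad d k))

def Dbl (μ : Measure (X d)) (β : ℝ≥0∞) (k : ℤ) (m : Ix d) : Prop :=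
  μ (Bn k m 1) ≤ β * μ (cube t0 k m)

def Gr (C₀ : ℝ≥0∞) (μ : Measure (X d)) : Prop :=
  ∀ x r, 0 < r → μ (ball x r) ≤ C₀ * ENNReal.ofReal (r ^ d)

theorem Bn_succ (k : ℤ) (m : Ix d) (n : ℕ) :
    Bn k m (n + 1) = ball (ctr t0 k m) (5 * (5 ^ n * (3 * rad d k))) := by
  unfold Bn
  congr 1
  ring

theorem Bn_mono (k : ℤ) (m : Ix d) {n n' : ℕ} (h : n ≤ n') : Bn k m n ⊆ Bn k m n' :=
  ball_subset_ball (mul_le_mul_of_nonneg_right (pow_le_pow_right₀ (by norm_num) h)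
    (by linarith [rad_pos (d := d) k]))

theorem cube_subset_Bn (k : ℤ) (m : Ix d) (n : ℕ) : cube t0 k m ⊆ Bn k m n := by
  refine (cube_subset_ball t0 k m).trans (Subset.trans (ball_subset_ball ?_) (Bn_mono k m n.zero_le))
  have := rad_pos (d := d) k
  rw [pow_zero]
  linarith

theorem Gr.ball_ne_top {C₀ : ℝ≥0∞} (hC : C₀ ≠ ⊤) {μ : Measure (X d)} (h : Gr C₀ μ) (x : X d)
    (r : ℝ) : μ (ball x r) ≠ ⊤ := by
  rcases le_or_gt r 0 with hr | hr
  · rw [ball_eq_empty.2 hr, measure_empty]; exact ENNReal.zero_ne_top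
  · exact ne_top_of_le_ne_top (ENNReal.mul_ne_top hC ENNReal.ofReal_ne_top) (h x r hr)

theorem Gr.rad {C₀ : ℝ≥0∞} {μ : Measure (X d)} (h : Gr C₀ μ) (x : X d) (k : ℤ) {a : ℝ}
    (ha : 0 < a) : μ (ball x (a * rad d k)) ≤ C₀ * ENNReal.ofReal ((a * (d + 1)) ^ d) * lam d k := by
  refine (h x _ (mul_pos ha (rad_pos k))).trans_eq ?_
  rw [mul_assoc C₀, lam, ← ENNReal.ofReal_mul (by positivity), ← mul_pow, A2.rad, mul_assoc]

theorem telescope (J e : ℤ → ℝ≥0∞) (M : ℕ) (E : ℝ≥0∞) (hE : E ≠ ⊤) (he : ∀ j, e j ≤ E)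
    (h : ∀ j, J j + e j ≤ e (j + M)) : ∑' j, J j ≤ M * E := by
  have key : ∀ (a : ℤ) (N : ℕ), ∑ i ∈ Finset.range N, J (a + i) ≤
      ∑ i ∈ Finset.range M, e (a + N + i) := by
    intro a N
    induction N with
    | zero => simp
    | succ N ih =>
      rw [Finset.sum_range_succ]
      have h1 : ∑ i ∈ Finset.range M, e (a + (N + 1 : ℕ) + i) + e (a + N) =
          ∑ i ∈ Finset.range M, e (a + N + i) + e (a + N + M) := by
        rw [← Finset.sum_range_succ (fun i : ℕ => e (a + N + i)), Finset.sum_range_succ']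
        congr 1
        · refine Finset.sum_congr rfl fun i _ => ?_
          congr 1
          push_cast
          ring
        · simp
      rw [← ENNReal.add_le_add_iff_right (ne_top_of_le_ne_top hE (he (a + N))), h1, add_assoc]
      exact add_le_add ih (h _)
  rw [ENNReal.tsum_eq_iSup_sum]
  refine iSup_le fun s => ?_
  obtain ⟨a, ha⟩ := s.bddBelow
  obtain ⟨b, hb⟩ := s.bddAbove
  have h1 : s ⊆ (Finset.range (b + 1 - a).toNat).image fun i : ℕ => a + i := by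
    intro j hj
    have h2 : a ≤ j := ha hj
    have h3 : j ≤ b := hb hj
    refine Finset.mem_image.2 ⟨(j - a).toNat, Finset.mem_range.2 (by omega), by omega⟩
  refine (Finset.sum_le_sum_of_subset h1).trans ?_
  rw [Finset.sum_image fun x _ y _ hxy => by simpa using hxy]
  refine (key _ _).trans ((Finset.sum_le_sum fun i _ => he _).trans_eq ?_)
  simp

def theta (ν : Measure (X d)) (t : Fin d → Bool) (k : ℤ) (x : X d) : ℝ≥0∞ :=
  ν (cube t k (idx t k x)) / lam d k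

theorem measurable_theta (ν : Measure (X d)) (t : Fin d → Bool) (k : ℤ) :
    Measurable (theta ν t k) :=
  (measurable_of_countable fun m => ν (cube t k m) / lam d k).comp (measurable_idx t k)

theorem theta_mul (ν : Measure (X d)) (t : Fin d → Bool) {j k : ℤ} (hjk : j ≤ k) :
    ∫⁻ x, theta ν t k x * theta ν t j x = ∫⁻ x, theta ν t j x ∂ν := by
  rw [lintegral_eq_tsum t k, lintegral_eq_tsum t k ν]
  refine tsum_congr fun m => ?_
  have h1 : ∀ x ∈ cube t k m, theta ν t j x = theta ν t j (ctr t k m) := by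
    intro x hx
    have : idx t j x = idx t j (ctr t k m) := idx_le t hjk (hx.trans (ctr_mem t k m).symm)
    unfold theta
    rw [this]
  have h2 : ∀ x ∈ cube t k m, theta ν t k x * theta ν t j x =
      ν (cube t k m) / lam d k * theta ν t j (ctr t k m) := by
    intro x hx
    have e : idx t k x = m := hx
    rw [h1 x hx, theta, e]
  rw [setLIntegral_congr_fun (measurableSet_cube t k m) h1,
    setLIntegral_congr_fun (measurableSet_cube t k m) h2, setLIntegral_const, setLIntegral_const,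
    volume_cube, mul_right_comm, ENNReal.div_mul_cancel (lam_ne_zero k) (lam_ne_top k), mul_comm]

def jump (ν : Measure (X d)) (t : Fin d → Bool) (j k : ℤ) (x : X d) : ℝ≥0∞ :=
  if 2 * theta ν t k x ≤ theta ν t j x then theta ν t j x ^ 2 else 0

theorem measurable_jump (ν : Measure (X d)) (t : Fin d → Bool) (j k : ℤ) :
    Measurable (jump ν t j k) :=
  Measurable.ite (measurableSet_le ((measurable_theta ν t k).const_mul 2) (measurable_theta ν t j))
    ((measurable_theta ν t j).pow_const 2) measurable_const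

theorem jump_sum (ν : Measure (X d)) (hν : ν univ ≠ ⊤) (t : Fin d → Bool) (C : ℝ≥0∞) (hC : C ≠ ⊤)
    (h : ∀ k m, ν (cube t k m) ≤ C * lam d k) (M : ℕ) :
    ∑' j, ∫⁻ x, jump ν t j (j + M) x ≤ M * (4 * (C * ν univ)) := by
  have h1 : ∀ k x, theta ν t k x ≤ C := fun k x => ENNReal.div_le_of_le_mul (h _ _)
  have h2 : ∀ k, ∫⁻ x, theta ν t k x ∂ν ≤ C * ν univ := fun k =>
    (lintegral_mono (h1 k)).trans_eq (lintegral_const C)
  have hfin : C * ν univ ≠ ⊤ := ENNReal.mul_ne_top hC hν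
  refine telescope _ (fun k => 4 * ∫⁻ x, theta ν t k x ∂ν) M _
    (ENNReal.mul_ne_top (by norm_num) hfin) (fun j => mul_le_mul_right (h2 j) _) fun j => ?_
  have hj : j ≤ j + M := by omega
  have h3 : ∀ x, jump ν t j (j + M) x + 8 * (theta ν t (j + M) x * theta ν t j x) ≤
      4 * (theta ν t (j + M) x * theta ν t (j + M) x) + 4 * (theta ν t j x * theta ν t j x) := by
    intro x
    unfold jump
    have ha := ne_top_of_le_ne_top hC (h1 (j + M) x)
    have hb := ne_top_of_le_ne_top hC (h1 j x)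
    generalize theta ν t (j + M) x = a at *
    generalize theta ν t j x = b at *
    lift a to ℝ≥0 using ha
    lift b to ℝ≥0 using hb
    split_ifs with h4
    · have h5 : 2 * (a : ℝ) ≤ b := by exact_mod_cast h4
      have h6 : (0 : ℝ) ≤ a := a.2
      have : (b : ℝ) ^ 2 + 8 * (a * b) ≤ 4 * (a * a) + 4 * (b * b) := by nlinarith
      exact_mod_cast this
    · have : (0 : ℝ) + 8 * (a * b) ≤ 4 * (a * a) + 4 * (b * b) := by
        nlinarith [sq_nonneg ((a : ℝ) - b)]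
      exact_mod_cast this
  have h4 := lintegral_mono (μ := volume) h3
  have hm : Measurable fun x => 4 * (theta ν t (j + M) x * theta ν t (j + M) x) :=
    ((measurable_theta ν t _).mul (measurable_theta ν t _)).const_mul 4
  rw [lintegral_add_left (measurable_jump ν t _ _), lintegral_add_left hm,
    lintegral_const_mul' _ _ (by norm_num), lintegral_const_mul' _ _ (by norm_num),
    lintegral_const_mul' _ _ (by norm_num), theta_mul ν t hj, theta_mul ν t le_rfl,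
    theta_mul ν t le_rfl, show (8 : ℝ≥0∞) = 4 + 4 by norm_num, add_mul, ← add_assoc] at h4
  exact (ENNReal.add_le_add_iff_right (ENNReal.mul_ne_top (by norm_num)
    (ne_top_of_le_ne_top hfin (h2 j)))).1 h4

open Classical in
theorem pack_level (d : ℕ) (C₀ : ℝ≥0∞) (hC : C₀ ≠ ⊤) : ∃ C₁ C₂ K₀ : ℝ≥0∞, C₁ ≠ ⊤ ∧ C₂ ≠ ⊤ ∧
    K₀ ≠ ⊤ ∧ ∀ μ : Measure (X d), Gr C₀ μ → ∀ K, K₀ ≤ K → K ≠ ⊤ → ∀ (n : ℕ) (Ω : Set (X d)),
      MeasurableSet Ω → ∑' p : ℤ × Ix d, (if Bn p.1 p.2 n ⊆ Ω then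
        (if K ^ max n 1 * μ (cube t0 p.1 p.2) ≤ μ (Bn p.1 p.2 n) then
          μ (Bn p.1 p.2 n) ^ 2 / lam d p.1 else 0) else 0) ≤ C₁ * C₂ ^ n * μ Ω := by
  obtain ⟨s, hs⟩ := pow_unbounded_of_one_lt (18 * ((d : ℝ) + 1)) (by norm_num : (1 : ℝ) < 2)
  set T : ℝ≥0∞ := 2 ^ d with hT
  have hT1 : 1 ≤ T := one_le_pow₀ (by norm_num)
  have hT0 : T ≠ 0 := (zero_lt_one.trans_le hT1).ne'
  have hTt : T ≠ ⊤ := ENNReal.pow_ne_top (by norm_num)
  set C : ℝ≥0∞ := C₀ * ENNReal.ofReal ((1 * ((d : ℝ) + 1)) ^ d) + 1 with hCdef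
  have hCt : C ≠ ⊤ := ENNReal.add_ne_top.2
    ⟨ENNReal.mul_ne_top hC ENNReal.ofReal_ne_top, ENNReal.one_ne_top⟩
  have hC0 : C ≠ 0 := by simp [hCdef]
  refine ⟨T ^ (3 * s) * (T * ((2 * s + 3 : ℕ) * (4 * C))), T ^ 6 * 2, 2 * T ^ (2 * s + 3),
    by finiteness, by finiteness, by finiteness, ?_⟩
  intro μ hμ K hK hKt n Ω hΩ
  rcases eq_or_ne (μ Ω) ⊤ with hfin | hfin
  · rw [hfin, ENNReal.mul_top]
    · exact le_top
    · have : ((2 * s + 3 : ℕ) : ℝ≥0∞) ≠ 0 := by exact_mod_cast (by omega : 2 * s + 3 ≠ 0)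
      positivity
  set ν := μ.restrict Ω with hν
  have hνu : ν univ = μ Ω := by rw [hν, Measure.restrict_apply MeasurableSet.univ, univ_inter]
  have hνle : ∀ A, ν A ≤ μ A := fun A => Measure.restrict_le_self A
  have hcube : ∀ t k m, ν (cube t k m) ≤ C * lam d k := by
    intro t k m
    refine (hνle _).trans ((measure_mono (cube_subset_ball t k m)).trans ?_)
    have := hμ.rad (ctr t k m) k one_pos
    rw [one_mul] at this
    exact this.trans (mul_le_mul_left le_self_add _)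
  have hKn : 2 * T ^ (2 * s + 3 * n) ≤ K ^ max n 1 := by
    rcases Nat.eq_zero_or_pos n with rfl | hn
    · simpa using (mul_le_mul_right (pow_le_pow_right₀ hT1 (by omega)) _).trans hK
    · rw [max_eq_left hn]
      refine le_trans ?_ (pow_le_pow_left' hK n)
      rw [mul_pow, ← pow_mul T]
      refine mul_le_mul' ?_ (pow_le_pow_right₀ hT1 (by nlinarith))
      exact le_self_pow₀ (by norm_num) hn.ne'
  have key : ∀ p : ℤ × Ix d, (if Bn p.1 p.2 n ⊆ Ω then
        (if K ^ max n 1 * μ (cube t0 p.1 p.2) ≤ μ (Bn p.1 p.2 n) then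
          μ (Bn p.1 p.2 n) ^ 2 / lam d p.1 else 0) else 0) ≤
        T ^ (3 * s + 6 * n) * ∑ t : Fin d → Bool, ∫⁻ x in cube t0 p.1 p.2,
          jump ν t (p.1 - (s + 3 * n : ℕ)) (p.1 - (s + 3 * n : ℕ) + (2 * s + 3 * n : ℕ)) x := by
    rintro ⟨k, m⟩
    dsimp only
    split_ifs with h1 h2
    swap; · exact zero_le
    swap; · exact zero_le
    set j : ℤ := k - (s + 3 * n : ℕ) with hj
    have hk' : j + (2 * s + 3 * n : ℕ) = k + s := by rw [hj]; push_cast; ring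
    have hjk : j + (s + 3 * n : ℕ) = k := by rw [hj]; ring
    rw [hk']
    set c := ctr t0 k m with hc
    obtain ⟨t, ht⟩ := exists_grid c j
    have hl := ell_pos k
    have hl' := ell_pos (k + s)
    have hd : (0 : ℝ) ≤ d := Nat.cast_nonneg d
    have a1 : Bn k m n ⊆ cube t j (idx t j c) := by
      refine Subset.trans (ball_subset_ball ?_) ht
      rw [ell_add j (s + 3 * n), hjk, rad, pow_add, pow_mul]
      have b1 : (5 : ℝ) ^ n ≤ (2 ^ 3) ^ n := pow_le_pow_left₀ (by norm_num) (by norm_num) n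
      have b2 : (0 : ℝ) < 5 ^ n := by positivity
      have b3 : 5 ^ n * (18 * ((d : ℝ) + 1)) ≤ (2 ^ 3) ^ n * 2 ^ s :=
        mul_le_mul b1 hs.le (by positivity) (by positivity)
      have b4 := mul_le_mul_of_nonneg_right b3 hl.le
      generalize ((2 : ℝ) ^ 3) ^ n = u at *
      generalize (5 : ℝ) ^ n = v at *
      generalize (2 : ℝ) ^ s = w at *
      linarith
    have a2 : cube t (k + s) (idx t (k + s) c) ⊆ cube t0 k m := by
      refine Subset.trans (fun y hy => ?_) (ball_subset_cube t0 k m)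
      refine (dist_lt_of_idx t _ hy).trans_le ?_
      rw [ell_add k s, rad]
      nlinarith
    have l1 : lam d k = T ^ s * lam d (k + s) := lam_add k s
    have l2 : lam d j = T ^ (2 * s + 3 * n) * lam d (k + s) := by rw [lam_add j (2 * s + 3 * n), hk']
    have a3 : μ (Bn k m n) ≤ ν (cube t j (idx t j c)) := by
      rw [hν, Measure.restrict_apply (measurableSet_cube _ _ _)]
      exact measure_mono (subset_inter a1 h1)
    have a4 : ∀ x ∈ cube t (k + s) (idx t (k + s) c),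
        (μ (Bn k m n) / lam d j) ^ 2 ≤ jump ν t j (k + s) x := by
      intro x hx
      have e1 : idx t (k + s) x = idx t (k + s) c := hx
      have e2 : idx t j x = idx t j c := idx_le t (by omega) e1
      have b1 : μ (Bn k m n) / lam d j ≤ theta ν t j x := by
        rw [theta, e2]
        exact ENNReal.div_le_div_right a3 _
      unfold jump
      rw [if_pos]
      · exact pow_le_pow_left' b1 2
      · refine le_trans ?_ b1
        rw [ENNReal.le_div_iff_mul_le (Or.inl (lam_ne_zero _)) (Or.inl (lam_ne_top _)), theta, e1,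
          l2]
        calc 2 * (ν (cube t (k + s) (idx t (k + s) c)) / lam d (k + s)) *
              (T ^ (2 * s + 3 * n) * lam d (k + s))
            = 2 * T ^ (2 * s + 3 * n) * (ν (cube t (k + s) (idx t (k + s) c)) / lam d (k + s) *
              lam d (k + s)) := by ring
          _ ≤ K ^ max n 1 * μ (cube t0 k m) := by
              rw [ENNReal.div_mul_cancel (lam_ne_zero _) (lam_ne_top _)]
              exact mul_le_mul' hKn ((hνle _).trans (measure_mono a2))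
          _ ≤ _ := h2
    have a5 : (μ (Bn k m n) / lam d j) ^ 2 * lam d (k + s) ≤
        ∑ t : Fin d → Bool, ∫⁻ x in cube t0 k m, jump ν t j (k + s) x := by
      refine le_trans ?_ (Finset.single_le_sum
        (f := fun t => ∫⁻ x in cube t0 k m, jump ν t j (k + s) x) (fun _ _ => zero_le)
        (Finset.mem_univ t))
      refine le_trans ?_ (lintegral_mono_set a2)
      rw [← volume_cube t (k + s) (idx t (k + s) c), ← setLIntegral_const]
      exact setLIntegral_mono' (measurableSet_cube _ _ _) a4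
    refine le_trans ?_ (mul_le_mul_right a5 _)
    apply ENNReal.div_le_of_le_mul
    conv_lhs => rw [← ENNReal.div_mul_cancel (a := lam d j) (b := μ (Bn k m n)) (lam_ne_zero _)
      (lam_ne_top _)]
    generalize μ (Bn k m n) / lam d j = y
    rw [l1, l2]
    apply le_of_eq
    ring
  refine (ENNReal.tsum_le_tsum key).trans ?_
  rw [ENNReal.tsum_mul_left, Summable.tsum_finsetSum fun _ _ => ENNReal.summable]
  have h3 : ∀ t : Fin d → Bool, ∑' p : ℤ × Ix d, ∫⁻ x in cube t0 p.1 p.2,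
      jump ν t (p.1 - (s + 3 * n : ℕ)) (p.1 - (s + 3 * n : ℕ) + (2 * s + 3 * n : ℕ)) x ≤
      (2 * s + 3 * n : ℕ) * (4 * (C * μ Ω)) := by
    intro t
    rw [ENNReal.tsum_prod']
    simp only [← lintegral_eq_tsum]
    rw [← hνu]
    refine le_trans (le_of_eq ?_) (jump_sum ν (by rwa [hνu]) t C hCt (hcube t) (2 * s + 3 * n))
    exact (Equiv.subRight ((s + 3 * n : ℕ) : ℤ)).tsum_eq
      fun j => ∫⁻ x, jump ν t j (j + (2 * s + 3 * n : ℕ)) x
  refine (mul_le_mul_right (Finset.sum_le_sum fun t _ => h3 t) _).trans ?_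
  have h4 : ((2 * s + 3 * n : ℕ) : ℝ≥0∞) ≤ (2 * s + 3 : ℕ) * 2 ^ n := by
    have : 2 * s + 3 * n ≤ (2 * s + 3) * 2 ^ n := by
      have := Nat.lt_two_pow_self (n := n)
      nlinarith
    exact_mod_cast this
  simp only [Finset.sum_const, Finset.card_univ, Fintype.card_fun, Fintype.card_bool,
    Fintype.card_fin, nsmul_eq_mul, Nat.cast_pow, Nat.cast_ofNat]
  rw [← hT]
  calc T ^ (3 * s + 6 * n) * (T * (((2 * s + 3 * n : ℕ) : ℝ≥0∞) * (4 * (C * μ Ω))))
      ≤ T ^ (3 * s + 6 * n) * (T * (((2 * s + 3 : ℕ) * 2 ^ n) * (4 * (C * μ Ω)))) := by gcongr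
    _ = _ := by ring

theorem le_mul_biInf {Y : Type} {B : Set Y} (hB : B.Nonempty) {F : Y → ℝ≥0∞} {b c : ℝ≥0∞}
    (hc : c ≠ ⊤) (h : ∀ z ∈ B, b ≤ c * F z) : b ≤ c * ⨅ z ∈ B, F z := by
  rcases eq_or_ne c 0 with rfl | h0
  · obtain ⟨z, hz⟩ := hB
    simpa using h z hz
  · simp only [ENNReal.mul_iInf_of_ne h0 hc]
    exact le_iInf₂ h

theorem exists_step {C₀ : ℝ≥0∞} (hC : C₀ ≠ ⊤) {μ : Measure (X d)} (hμ : Gr C₀ μ) {K : ℝ≥0∞}
    (hK : 2 * 5 ^ d ≤ K) (k : ℤ) (m : Ix d) (h0 : μ (Bn k m 0) ≠ 0) :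
    ∃ n, μ (Bn k m (n + 1)) ≤ K * μ (Bn k m n) ∧ K ^ n * μ (Bn k m 0) ≤ μ (Bn k m n) := by
  by_contra hcon
  push Not at hcon
  have h1 : ∀ n, K ^ n * μ (Bn k m 0) ≤ μ (Bn k m n) := by
    intro n
    induction n with
    | zero => simp
    | succ n ih =>
      by_contra h2
      have h3 : ¬ μ (Bn k m (n + 1)) ≤ K * μ (Bn k m n) := fun h => absurd ih (not_le.2 (hcon n h))
      apply h2
      rw [pow_succ', mul_assoc]
      exact (mul_le_mul_right ih K).trans (not_le.1 h3).le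
  set C := C₀ * ENNReal.ofReal ((3 * rad d k) ^ d) with hCdef
  have h2 : ∀ n : ℕ, (n : ℝ≥0∞) * μ (Bn k m 0) ≤ C := by
    intro n
    have h3 : μ (Bn k m n) ≤ C * (5 ^ d) ^ n := by
      refine (hμ _ _ (by have := rad_pos (d := d) k; positivity)).trans_eq ?_
      rw [mul_pow, ENNReal.ofReal_mul (by positivity), ← pow_mul, ENNReal.ofReal_pow (by norm_num),
        ← pow_mul, mul_comm n d, hCdef]
      simp only [ENNReal.ofReal_ofNat]
      ring
    have h4 : (2 * 5 ^ d) ^ n * μ (Bn k m 0) ≤ C * (5 ^ d) ^ n :=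
      ((mul_le_mul_left (pow_le_pow_left' hK n) _).trans (h1 n)).trans h3
    rw [mul_pow, mul_right_comm, ENNReal.mul_le_mul_iff_left (by positivity) (by finiteness)] at h4
    refine le_trans (mul_le_mul_left ?_ _) h4
    exact_mod_cast (Nat.lt_two_pow_self (n := n)).le
  obtain ⟨n, hn⟩ := ENNReal.exists_nat_mul_gt h0
    (show C ≠ ⊤ from ENNReal.mul_ne_top hC ENNReal.ofReal_ne_top)
  exact absurd (h2 n) (not_le.2 hn)

open Classical in
theorem packing (d : ℕ) (C₀ : ℝ≥0∞) (hC : C₀ ≠ ⊤) (β₀ : ℝ≥0∞) (hβ₀ : β₀ ≠ ⊤) :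
    ∃ β Cp : ℝ≥0∞, β₀ ≤ β ∧ β ≠ ⊤ ∧ Cp ≠ ⊤ ∧ ∀ (μ : Measure (X d)) [SFinite μ], Gr C₀ μ →
      ∀ F : X d → ℝ≥0∞, Measurable F → ∀ a : ℤ × Ix d → ℝ≥0∞,
      (∀ p n, ∀ z ∈ Bn p.1 p.2 n, a p ≤ μ (Bn p.1 p.2 0) ^ (1 / 2 : ℝ) *
        μ (Bn p.1 p.2 (n + 1)) ^ (3 / 2 : ℝ) * F z) →
      ∑' p : ℤ × Ix d, (if Dbl μ β p.1 p.2 then 0 else a p / lam d p.1) ≤ Cp * ∫⁻ x, F x ∂μ := by
  obtain ⟨C₁, C₂, K₀, h1, h2, h3, hp⟩ := pack_level d C₀ hC
  set L : ℝ≥0∞ := 1 + 2 * C₂ + K₀ + 2 * 5 ^ d + β₀ with hL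
  have hLt : L ≠ ⊤ := by rw [hL]; finiteness
  have hL1 : 1 ≤ L := by rw [hL]; simp only [add_assoc]; exact le_self_add
  have hL0 : L ≠ 0 := (zero_lt_one.trans_le hL1).ne'
  have hL2 : L ≤ L ^ 2 := le_self_pow₀ hL1 two_ne_zero
  have hLC : 2 * C₂ ≤ L := by
    rw [hL]; exact le_add_right (le_add_right (le_add_right le_add_self))
  have hLK : K₀ ≤ L ^ 2 := le_trans (by rw [hL]; exact le_add_right (le_add_right le_add_self)) hL2
  have hL5 : 2 * 5 ^ d ≤ L ^ 2 := le_trans (by rw [hL]; exact le_add_right le_add_self) hL2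
  refine ⟨L ^ 2 * L ^ 2, L ^ 3 * C₁ * 2, ?_, by finiteness, by finiteness, ?_⟩
  · exact le_trans (le_trans (by rw [hL]; exact le_add_self) hL2)
      (le_mul_of_one_le_right' (hL1.trans hL2))
  intro μ _ hμ F hF a ha
  let c : ℕ → ℤ × Ix d → ℝ≥0∞ := fun n p =>
    if (L ^ 2) ^ max n 1 * μ (cube t0 p.1 p.2) ≤ μ (Bn p.1 p.2 n) then
      μ (Bn p.1 p.2 n) ^ 2 / lam d p.1 else 0
  have key : ∀ p : ℤ × Ix d, (if Dbl μ (L ^ 2 * L ^ 2) p.1 p.2 then 0 else a p / lam d p.1) ≤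
      ∑' n : ℕ, L ^ 3 * L⁻¹ ^ n * (c n p * ⨅ z ∈ Bn p.1 p.2 n, F z) := by
    rintro ⟨k, m⟩
    dsimp only
    split_ifs with hD
    · exact zero_le
    have hctr : ∀ n, ctr t0 k m ∈ Bn k m n := fun n => cube_subset_Bn k m n (ctr_mem _ _ _)
    rcases eq_or_ne (μ (Bn k m 0)) 0 with h0 | h0
    · have := ha (k, m) 0 _ (hctr 0)
      simp only [h0] at this
      rw [ENNReal.zero_rpow_of_pos (by norm_num), zero_mul, zero_mul, nonpos_iff_eq_zero] at this
      simp [this]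
    obtain ⟨n, h4, h5⟩ := exists_step hC hμ hL5 k m h0
    refine le_trans ?_ (ENNReal.le_tsum n)
    have hfin : μ (Bn k m n) ≠ ⊤ := hμ.ball_ne_top hC _ _
    have h6 : (L ^ 2) ^ max n 1 * μ (cube t0 k m) ≤ μ (Bn k m n) := by
      rcases Nat.eq_zero_or_pos n with rfl | hn
      · have h7 : L ^ 2 * (L ^ 2 * μ (cube t0 k m)) ≤ L ^ 2 * μ (Bn k m 0) := by
          rw [← mul_assoc]
          exact (not_le.1 hD).le.trans h4
        rw [ENNReal.mul_le_mul_iff_right (by positivity) (by finiteness)] at h7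
        simpa using h7
      · rw [max_eq_left hn]
        exact (mul_le_mul_right (measure_mono (cube_subset_Bn k m 0)) _).trans h5
    have h7 : ∀ z ∈ Bn k m n, a (k, m) ≤ (L ^ 3 * L⁻¹ ^ n * μ (Bn k m n) ^ 2) * F z := by
      intro z hz
      refine (ha (k, m) n z hz).trans (mul_le_mul_left ?_ _)
      have b1 : μ (Bn k m 0) ^ (1 / 2 : ℝ) ≤ L⁻¹ ^ n * μ (Bn k m n) ^ (1 / 2 : ℝ) := by
        have b2 := ENNReal.rpow_le_rpow h5 (by norm_num : (0 : ℝ) ≤ 1 / 2)
        rw [ENNReal.mul_rpow_of_nonneg _ _ (by norm_num), ← pow_mul, mul_comm 2 n, pow_mul,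
          ← ENNReal.rpow_natCast (L ^ n) 2, ← ENNReal.rpow_mul] at b2
        norm_num at b2
        calc μ (Bn k m 0) ^ (1 / 2 : ℝ) = L⁻¹ ^ n * (L ^ n * μ (Bn k m 0) ^ (1 / 2 : ℝ)) := by
              rw [← mul_assoc, ← mul_pow, ENNReal.inv_mul_cancel hL0 hLt, one_pow, one_mul]
          _ ≤ _ := mul_le_mul_right (by simpa using b2) _
      have b2 : μ (Bn k m (n + 1)) ^ (3 / 2 : ℝ) ≤ L ^ 3 * μ (Bn k m n) ^ (3 / 2 : ℝ) := by
        have b3 := ENNReal.rpow_le_rpow h4 (by norm_num : (0 : ℝ) ≤ 3 / 2)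
        rw [ENNReal.mul_rpow_of_nonneg _ _ (by norm_num), ← ENNReal.rpow_natCast L 2,
          ← ENNReal.rpow_mul] at b3
        norm_num at b3
        exact b3
      refine (mul_le_mul' b1 b2).trans_eq ?_
      have b3 : μ (Bn k m n) ^ (1 / 2 : ℝ) * μ (Bn k m n) ^ (3 / 2 : ℝ) = μ (Bn k m n) ^ 2 := by
        rw [← ENNReal.rpow_add_of_nonneg _ _ (by norm_num) (by norm_num)]
        norm_num
      rw [← b3]
      ring
    have hLi : L⁻¹ ≠ ⊤ := ENNReal.inv_ne_top.2 hL0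
    have h8 := le_mul_biInf ⟨_, hctr n⟩ (by finiteness) h7
    simp only [c, if_pos h6]
    apply ENNReal.div_le_of_le_mul
    refine h8.trans_eq ?_
    conv_lhs => rw [← ENNReal.div_mul_cancel (a := lam d k) (b := μ (Bn k m n) ^ 2)
      (lam_ne_zero _) (lam_ne_top _)]
    ring
  refine (ENNReal.tsum_le_tsum key).trans ?_
  rw [ENNReal.tsum_comm]
  have h4 : ∀ n : ℕ, ∑' p : ℤ × Ix d, L ^ 3 * L⁻¹ ^ n * (c n p * ⨅ z ∈ Bn p.1 p.2 n, F z) ≤
      L ^ 3 * C₁ * (∫⁻ x, F x ∂μ) * 2⁻¹ ^ n := by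
    intro n
    rw [ENNReal.tsum_mul_left]
    refine (mul_le_mul_right (carleson μ hF (fun p : ℤ × Ix d => Bn p.1 p.2 n) (c n)
      (C₁ * C₂ ^ n) (by finiteness) fun Ω hΩ => hp μ hμ _ hLK (by finiteness) n Ω hΩ) _).trans ?_
    have b1 : L⁻¹ * C₂ ≤ 2⁻¹ := by
      rw [mul_comm, ← div_eq_mul_inv]
      apply ENNReal.div_le_of_le_mul
      calc C₂ = 2⁻¹ * (2 * C₂) := by
            rw [← mul_assoc, ENNReal.inv_mul_cancel (by norm_num) (by norm_num), one_mul]
        _ ≤ _ := mul_le_mul_right hLC _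
    calc L ^ 3 * L⁻¹ ^ n * (C₁ * C₂ ^ n * ∫⁻ x, F x ∂μ)
        = L ^ 3 * C₁ * (∫⁻ x, F x ∂μ) * (L⁻¹ * C₂) ^ n := by ring
      _ ≤ _ := mul_le_mul_right (pow_le_pow_left' b1 n) _
  refine (ENNReal.tsum_le_tsum h4).trans_eq ?_
  rw [ENNReal.tsum_mul_left, ENNReal.tsum_geometric, ENNReal.one_sub_inv_two, inv_inv]
  ring

end Pool.Agent.H287Z.A2
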