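import Mathlib
import Pool.Agent.H287Z.A2.Pack

set_option autoImplicit false
set_option linter.unusedSectionVars false
set_option linter.unusedSimpArgs false

open MeasureTheory Filter Topology Set Metric
open scoped NNReal ENNReal

noncomputable section

namespace Pool.Agent.H287Z.A2

variable {d : ℕ}

theorem Gr.locFin {C₀ : ℝ≥0∞} (hC : C₀ ≠ ⊤) {μ : Measure (X d)} (h : Gr C₀ μ) :
    IsLocallyFiniteMeasure μ :=
  ⟨fun x => ⟨ball x 1, ball_mem_nhds x one_pos, (h.ball_ne_top hC x 1).lt_top⟩⟩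

theorem vol_closedBall (x : X d) {r : ℝ} (hr : 0 ≤ r) :
    volume (closedBall x r) = ENNReal.ofReal (r ^ d) * volume (ball (0 : X d) 1) := by
  rw [Measure.addHaar_closedBall _ _ hr]
  simp

theorem Gr.ac {C₀ : ℝ≥0∞} (hC : C₀ ≠ ⊤) {μ : Measure (X d)} (h : Gr C₀ μ) : μ ≪ volume := by
  have := h.locFin hC
  have v0 : volume (ball (0 : X d) 1) ≠ 0 := (measure_ball_pos _ _ one_pos).ne'
  have v1 : volume (ball (0 : X d) 1) ≠ ⊤ := measure_ball_lt_top.ne
  have hc : C₀ * 2 ^ d / volume (ball (0 : X d) 1) ≠ ⊤ := ENNReal.div_ne_top (by finiteness) v0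
  intro s hs
  have h1 := (Besicovitch.vitaliFamily μ).measure_le_of_frequently_le
    ((C₀ * 2 ^ d / volume (ball (0 : X d) 1)).toNNReal • (volume : Measure (X d)))
    Measure.AbsolutelyContinuous.rfl s (fun x _ => by
      refine (Besicovitch.tendsto_filterAt μ x).frequently (Eventually.frequently ?_)
      filter_upwards [self_mem_nhdsWithin] with r hr
      have hr' : 0 < r := hr
      rw [Measure.coe_nnreal_smul_apply, ENNReal.coe_toNNReal hc, vol_closedBall x hr'.le,
        mul_comm (ENNReal.ofReal _), ← mul_assoc, ENNReal.div_mul_cancel v0 v1]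
      refine (measure_mono (closedBall_subset_ball (by linarith : r < 2 * r))).trans
        ((h x _ (by linarith)).trans_eq ?_)
      rw [mul_pow, ENNReal.ofReal_mul (by positivity), ENNReal.ofReal_pow (by norm_num), mul_assoc]
      simp)
  rw [Measure.coe_nnreal_smul_apply, hs, mul_zero] at h1
  exact nonpos_iff_eq_zero.1 h1

theorem density (d : ℕ) : ∃ β₀ : ℝ≥0∞, β₀ ≠ ⊤ ∧ ∀ C₀ : ℝ≥0∞, C₀ ≠ ⊤ → ∀ μ : Measure (X d),
    Gr C₀ μ → ∀ β, β₀ ≤ β → ∀ E : Set (X d), MeasurableSet E → ∀ᵐ x ∂μ, x ∈ E →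
      ∀ᶠ j in atTop, Dbl μ β j (idx t0 j x) ∧
        μ (cube t0 j (idx t0 j x)) < 2 * μ (cube t0 j (idx t0 j x) ∩ E) := by
  set γ : ℝ≥0∞ := ENNReal.ofReal ((60 * ((d : ℝ) + 1)) ^ d) with hγ
  have hγt : γ ≠ ⊤ := ENNReal.ofReal_ne_top
  refine ⟨4 * γ, by finiteness, ?_⟩
  intro C₀ hC μ hμ β hβ E hE
  have := hμ.locFin hC
  have hac := hμ.ac hC
  have v0 : volume (ball (0 : X d) 1) ≠ 0 := (measure_ball_pos _ _ one_pos).ne'
  have v1 : volume (ball (0 : X d) 1) ≠ ⊤ := measure_ball_lt_top.ne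
  let v := IsUnifLocDoublingMeasure.vitaliFamily (volume : Measure (X d)) (4 * ((d : ℝ) + 1))
  filter_upwards [hac.ae_le (v.ae_tendsto_rnDeriv μ),
    hac.ae_le (v.ae_tendsto_rnDeriv (μ.restrict Eᶜ)),
    hac.ae_le (Measure.rnDeriv_restrict μ volume hE.compl), Measure.rnDeriv_pos hac,
    hac.ae_le (Measure.rnDeriv_lt_top μ volume)] with x h1 h2 h3 h4 h5 hx
  rw [h3, indicator_of_notMem (by simpa using hx)] at h2
  set ρ := μ.rnDeriv volume x with hρ
  have hd : (0 : ℝ) ≤ d := Nat.cast_nonneg d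
  have hx' : ∀ j, dist x (ctr t0 j (idx t0 j x)) < rad d j := fun j =>
    cube_subset_ball t0 j _ (mem_cube_self t0 j x)
  have sc : ∀ a : ℝ, 0 < a → Tendsto (fun j => a * ell j) atTop (𝓝[>] 0) := by
    intro a ha
    rw [tendsto_nhdsWithin_iff]
    refine ⟨?_, Eventually.of_forall fun j => mul_pos ha (ell_pos j)⟩
    simpa using (tendsto_nhdsWithin_iff.1 tendsto_ell).1.const_mul a
  have t1 := IsUnifLocDoublingMeasure.tendsto_closedBall_filterAt (volume : Measure (X d))
    (K := 4 * ((d : ℝ) + 1)) (x := x) (fun j => ctr t0 j (idx t0 j x)) (fun j => 1 / 4 * ell j)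
    (sc _ (by norm_num)) (Eventually.of_forall fun j => by
      have := hx' j
      rw [mem_closedBall]
      unfold rad at this
      linarith)
  have t2 := IsUnifLocDoublingMeasure.tendsto_closedBall_filterAt (volume : Measure (X d))
    (K := 4 * ((d : ℝ) + 1)) (x := x) (fun j => ctr t0 j (idx t0 j x))
    (fun j => 15 * (d + 1) * ell j) (sc _ (by positivity)) (Eventually.of_forall fun j => by
      have := hx' j
      have hl := ell_pos j
      rw [mem_closedBall]
      unfold rad at this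
      nlinarith [mul_nonneg hd (mul_nonneg hd hl.le), mul_nonneg hd hl.le])
  have e1 : ρ / 2 < ρ := ENNReal.half_lt_self h4.ne' h5.ne
  have e2 : ρ < 2 * ρ := by
    rw [two_mul]; exact ENNReal.lt_add_right h5.ne h4.ne'
  have e3 : 0 < ρ / 2 / (2 * γ) :=
    ENNReal.div_pos (ENNReal.div_pos h4.ne' (by norm_num)).ne' (by finiteness)
  filter_upwards [(h1.comp t1).eventually (lt_mem_nhds e1), (h1.comp t2).eventually (gt_mem_nhds e2),
    (h2.comp t2).eventually (gt_mem_nhds e3)] with j a1 a2 a3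
  simp only [Function.comp] at a1 a2 a3
  have hl := ell_pos j
  set c := ctr t0 j (idx t0 j x) with hc
  have hV : volume (closedBall c (15 * (d + 1) * ell j)) =
      γ * volume (closedBall c (1 / 4 * ell j)) := by
    rw [vol_closedBall _ (by positivity), vol_closedBall _ (by positivity), ← mul_assoc, hγ,
      ← ENNReal.ofReal_mul (by positivity), ← mul_pow]
    congr 3
    ring
  have V0 : volume (closedBall c (1 / 4 * ell j)) ≠ 0 :=
    (measure_closedBall_pos _ _ (by positivity)).ne'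
  have V1 : volume (closedBall c (1 / 4 * ell j)) ≠ ⊤ := measure_closedBall_lt_top.ne
  rw [hV] at a2 a3
  set V := volume (closedBall c (1 / 4 * ell j)) with hVdef
  have b1 : ρ / 2 * V < μ (cube t0 j (idx t0 j x)) := by
    rw [ENNReal.lt_div_iff_mul_lt (Or.inl V0) (Or.inl V1)] at a1
    refine a1.trans_le (measure_mono (Subset.trans (closedBall_subset_ball ?_)
      (ball_subset_cube t0 j _)))
    linarith
  have b2 : Bn j (idx t0 j x) 1 ⊆ closedBall c (15 * (d + 1) * ell j) := by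
    refine ball_subset_closedBall.trans (closedBall_subset_closedBall (le_of_eq ?_))
    unfold rad
    ring
  have γ0 : γ ≠ 0 := (ENNReal.ofReal_pos.2 (by positivity)).ne'
  have hγV : γ * V ≠ 0 := mul_ne_zero γ0 V0
  have hγV' : γ * V ≠ ⊤ := ENNReal.mul_ne_top hγt V1
  constructor
  · have b3 := (ENNReal.div_le_iff hγV hγV').1 a2.le
    unfold Dbl
    calc μ (Bn j (idx t0 j x) 1) ≤ 2 * ρ * (γ * V) := (measure_mono b2).trans b3
      _ = 4 * γ * (ρ / 2 * V) := by
        conv_lhs => rw [← ENNReal.mul_div_cancel (a := 2) (b := ρ) (by norm_num) (by norm_num)]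
        ring
      _ ≤ _ := mul_le_mul' hβ b1.le
  · have b3 := (ENNReal.div_le_iff hγV hγV').1 a3.le
    have b4 : μ (cube t0 j (idx t0 j x) \ E) ≤ ρ / 2 / (2 * γ) * (γ * V) := by
      refine le_trans ?_ b3
      rw [Measure.restrict_apply measurableSet_closedBall]
      exact measure_mono (inter_subset_inter_left _ ((cube_subset_Bn _ _ 1).trans b2))
    have b5 : 2 * μ (cube t0 j (idx t0 j x) \ E) < μ (cube t0 j (idx t0 j x)) := by
      refine lt_of_le_of_lt ?_ b1
      calc 2 * μ (cube t0 j (idx t0 j x) \ E) ≤ 2 * (ρ / 2 / (2 * γ) * (γ * V)) :=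
            mul_le_mul_right b4 _
        _ = (2 * γ) * (ρ / 2 / (2 * γ)) * V := by ring
        _ ≤ _ := mul_le_mul_left ENNReal.mul_div_le _
    have hfin : μ (cube t0 j (idx t0 j x)) ≠ ⊤ :=
      ne_top_of_le_ne_top (hμ.ball_ne_top hC _ _) (measure_mono (cube_subset_ball t0 j _))
    rw [← measure_inter_add_sdiff (cube t0 j (idx t0 j x)) hE] at b5 hfin ⊢
    rw [two_mul] at b5 ⊢
    obtain ⟨f1, f2⟩ := ENNReal.add_ne_top.1 hfin
    exact ENNReal.add_lt_add_left f1 ((ENNReal.add_lt_add_iff_right f2).1 b5)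

end Pool.Agent.H287Z.A2
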