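import Mathlib
import Pool.Agent.H287Z.A2.Dens

set_option autoImplicit false
set_option linter.unusedSectionVars false
set_option linter.unusedSimpArgs false

open MeasureTheory Filter Topology Set Metric
open scoped NNReal ENNReal

noncomputable section

namespace Pool.Agent.H287Z.A2

variable {d : ℕ}

theorem Bn_nest {k j : ℤ} (hkj : k ≤ j) (x : X d) :
    Bn j (idx t0 j x) 0 ⊆ Bn k (idx t0 k x) 0 := by
  induction j, hkj using Int.leInduction with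
  | base => exact Subset.rfl
  | succ j _ ih =>
    refine Subset.trans (ball_subset_ball' ?_) ih
    have h1 : ctr t0 (j + 1) (idx t0 (j + 1) x) ∈ ball (ctr t0 j (idx t0 j x)) (rad d j) :=
      cube_subset_ball t0 j _ (cube_subset t0 (by omega) x (ctr_mem t0 _ _))
    rw [mem_ball] at h1
    have h2 := rad_succ (d := d) j
    have h3 := rad_pos (d := d) j
    simp only [pow_zero, one_mul]
    linarith

theorem exists_of_lt {Y : Type} [MeasurableSpace Y] {μ : Measure Y} {G P S : Set Y}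
    (hG : ∀ᵐ x ∂μ, x ∈ G) (h : μ S < μ P) : ∃ x ∈ P, x ∈ G ∧ x ∉ S := by
  by_contra hcon
  push Not at hcon
  refine absurd (measure_mono_ae ?_) (not_le.2 h)
  filter_upwards [hG] with x hx hP using hcon x hP hx

theorem sum_up (μ : Measure (X d)) {Q : Set (X d)} {P : Set (ℤ × Ix d)}
    (h1 : ∀ p ∈ P, cube t0 p.1 p.2 ⊆ Q) (h2 : P.PairwiseDisjoint fun p => cube t0 p.1 p.2)
    {g h : X d → ℝ≥0∞}
    (h3 : ∀ p ∈ P, ∫⁻ x in cube t0 p.1 p.2, g x ∂μ ≤ ∫⁻ x in cube t0 p.1 p.2, h x ∂μ) :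
    ∫⁻ x in Q, g x ∂μ ≤ ∫⁻ x in Q \ ⋃ p ∈ P, cube t0 p.1 p.2, g x ∂μ +
      ∫⁻ x in ⋃ p ∈ P, cube t0 p.1 p.2, h x ∂μ := by
  have hc : P.Countable := Set.to_countable P
  have hm : MeasurableSet (⋃ p ∈ P, cube t0 p.1 p.2) :=
    MeasurableSet.biUnion hc fun p _ => measurableSet_cube _ _ _
  rw [← lintegral_inter_add_sdiff g Q hm, add_comm, inter_eq_right.2 (iUnion₂_subset h1),
    lintegral_biUnion hc (fun p _ => measurableSet_cube _ _ _) h2,
    lintegral_biUnion hc (fun p _ => measurableSet_cube _ _ _) h2]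
  exact add_le_add le_rfl (ENNReal.tsum_le_tsum fun p => h3 p p.2)

open Classical in
/-- the contribution of one non-doubling cube -/
def bt (μ φ : Measure (X d)) (β c₁ : ℝ≥0∞) (j : ℤ) (m : Ix d) : ℝ≥0∞ :=
  if Dbl μ β j m then 0 else c₁ * φ (Bn j m 0) / lam d j

/-- the contribution of the non-doubling cubes of level at least `k` -/
def Wt (μ φ : Measure (X d)) (β c₁ : ℝ≥0∞) (k : ℤ) (x : X d) : ℝ≥0∞ :=
  ∑' j, if k ≤ j then bt μ φ β c₁ j (idx t0 j x) else 0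

section
variable {μ φ : Measure (X d)} {β c₁ : ℝ≥0∞}

theorem measurable_bt (j : ℤ) : Measurable fun x => bt μ φ β c₁ j (idx t0 j x) :=
  (measurable_of_countable (bt μ φ β c₁ j)).comp (measurable_idx t0 j)

theorem measurable_Wt (k : ℤ) : Measurable (Wt μ φ β c₁ k) := by
  refine Measurable.tsum fun j => ?_
  split_ifs
  · exact measurable_bt j
  · exact measurable_const

theorem Wt_succ (k : ℤ) (x : X d) :
    Wt μ φ β c₁ k x = bt μ φ β c₁ k (idx t0 k x) + Wt μ φ β c₁ (k + 1) x := by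
  classical
  unfold Wt
  rw [ENNReal.tsum_eq_add_tsum_ite k, if_pos le_rfl]
  congr 1
  refine tsum_congr fun j => ?_
  split_ifs <;> first | rfl | omega

theorem Wt_anti {k j : ℤ} (h : k ≤ j) (x : X d) : Wt μ φ β c₁ j x ≤ Wt μ φ β c₁ k x := by
  refine ENNReal.tsum_le_tsum fun i => ?_
  split_ifs
  · exact le_rfl
  · omega
  · exact zero_le
  · exact le_rfl

theorem tele {U : ℤ → X d → ℂ} {x : X d}
    (h : ∀ j, ‖U j x - U (j + 1) x‖ₑ ≤ c₁ * φ (Bn j (idx t0 j x) 0) / lam d j) {k j : ℤ}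
    (hkj : k ≤ j) (hn : ∀ i, k ≤ i → i < j → ¬ Dbl μ β i (idx t0 i x)) :
    ‖U k x - U j x‖ₑ + Wt μ φ β c₁ j x ≤ Wt μ φ β c₁ k x := by
  induction j, hkj using Int.leInduction with
  | base => simp
  | succ j hj ih =>
    refine le_trans ?_ (ih fun i h1 h2 => hn i h1 (by omega))
    rw [Wt_succ j, ← add_assoc, bt, if_neg (hn j hj (by omega))]
    refine add_le_add_left ?_ _
    have : U k x - U (j + 1) x = (U k x - U j x) + (U j x - U (j + 1) x) := by ring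
    rw [this]
    exact (enorm_add_le _ _).trans (add_le_add le_rfl (h j))

end

/-- the hypotheses on the local pieces of the operator -/
structure Loc (μ φ ν : Measure (X d)) (U : ℤ → X d → ℂ) (G : Set (X d)) (c₁ c₂ Aw : ℝ≥0∞)
    (q : ℕ) : Prop where
  meas : ∀ k, Measurable (U k)
  ac : ν ≪ μ
  hol : ∀ B, MeasurableSet B → ∀ t M, ν B ≤ t ^ q * M → μ B ≤ M → φ B ≤ t * M
  full : ∀ᵐ x ∂μ, x ∈ G
  step : ∀ x ∈ G, ∀ j, ‖U j x - U (j + 1) x‖ₑ ≤ c₁ * φ (Bn j (idx t0 j x) 0) / lam d j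
  osc : ∀ x ∈ G, ∀ x' ∈ G, ∀ k₀ k, k₀ ≤ k → idx t0 k x = idx t0 k x' → ∀ L,
    (∀ ρ, 0 < ρ → φ (ball x' ρ ∩ Bn k₀ (idx t0 k₀ x) 0) ≤ L * ENNReal.ofReal (ρ ^ d)) →
      ‖(U k₀ x - U k x) - (U k₀ x' - U k x')‖ₑ ≤ c₂ * L
  weak : ∀ k m t, t ^ q * μ (cube t0 k m ∩ {x | t < ‖U k x‖ₑ}) ≤ Aw * ν (Bn k m 0)

theorem four_mul_le {a t x y : ℝ≥0∞} {q : ℕ} (hq : q ≠ 0) (ha : a ≠ ⊤) (ht0 : t ≠ 0) (ht : t ≠ ⊤)
    (h : (4 * (a + 1) * t) ^ q * x ≤ a * (t ^ q * y)) : 4 * x ≤ y := by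
  have h1 : 1 ≤ 4 * (a + 1) := one_le_mul_of_one_le_of_one_le (by norm_num) le_add_self
  have h2 : t ^ q * (a + 1) * (4 * x) ≤ t ^ q * (a + 1) * y :=
    calc t ^ q * (a + 1) * (4 * x) = 4 * (a + 1) * t ^ q * x := by ring
      _ ≤ (4 * (a + 1)) ^ q * t ^ q * x := by gcongr; exact le_self_pow₀ h1 hq
      _ ≤ a * (t ^ q * y) := by rw [← mul_pow]; exact h
      _ ≤ (a + 1) * (t ^ q * y) := by gcongr; exact le_self_add
      _ = _ := by ring
  exact (ENNReal.mul_le_mul_iff_right (by positivity) (by finiteness)).1 h2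

theorem recursion (d : ℕ) (C₀ c₁ c₂ Aw β : ℝ≥0∞) (hC : C₀ ≠ ⊤) (hc₁ : c₁ ≠ ⊤) (hc₂ : c₂ ≠ ⊤)
    (hAw : Aw ≠ ⊤) (hβ : β ≠ ⊤) : ∃ C₃ : ℝ≥0∞, C₃ ≠ ⊤ ∧ ∀ (μ φ ν : Measure (X d))
      (U : ℤ → X d → ℂ) (G : Set (X d)) (q : ℕ), q ≠ 0 → Gr C₀ μ → Loc μ φ ν U G c₁ c₂ Aw q →
      (∀ E : Set (X d), MeasurableSet E → ∀ᵐ x ∂μ, x ∈ E → ∀ᶠ j in atTop, Dbl μ β j (idx t0 j x) ∧
        μ (cube t0 j (idx t0 j x)) < 2 * μ (cube t0 j (idx t0 j x) ∩ E)) →
      ∀ k₀ m₀, Dbl μ β k₀ m₀ → ∀ t : ℝ≥0∞, t ≠ 0 → t ≠ ⊤ → ν (Bn k₀ m₀ 0) ≤ t ^ q * μ (Bn k₀ m₀ 0) →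
      ∃ P : Set (ℤ × Ix d), (∀ p ∈ P, cube t0 p.1 p.2 ⊆ cube t0 k₀ m₀ ∧ Dbl μ β p.1 p.2) ∧
        (P.PairwiseDisjoint fun p => cube t0 p.1 p.2) ∧
        2 * μ (⋃ p ∈ P, cube t0 p.1 p.2) ≤ μ (cube t0 k₀ m₀) ∧
        (∀ᵐ x ∂μ, x ∈ cube t0 k₀ m₀ \ ⋃ p ∈ P, cube t0 p.1 p.2 → ‖U k₀ x‖ₑ ≤ C₃ * t) ∧
        ∀ p ∈ P, ∃ V : X d → ℝ≥0∞, Measurable V ∧ ∀ x ∈ G, x ∈ cube t0 p.1 p.2 →
          ‖U k₀ x‖ₑ ≤ C₃ * t + ‖U p.1 x‖ₑ + V x ∧
            V x + Wt μ φ β c₁ p.1 x ≤ Wt μ φ β c₁ k₀ x := by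
  set A : ℝ≥0∞ := 4 * ((Aw + 1) * β + 1) with hA
  set A' : ℝ≥0∞ := 4 * (Aw * β + 1) with hA'
  have hAt : A ≠ ⊤ := by rw [hA]; finiteness
  have hA0 : A ≠ 0 := by rw [hA]; positivity
  have hA't : A' ≠ ⊤ := by rw [hA']; finiteness
  set c₅ : ℝ≥0∞ := C₀ * ENNReal.ofReal ((15 * ((d : ℝ) + 1)) ^ d) with hc₅
  have hc₅t : c₅ ≠ ⊤ := ENNReal.mul_ne_top hC ENNReal.ofReal_ne_top
  refine ⟨A + A' * A + c₂ * (A * (C₀ * 5 ^ d)) + c₁ * (A * c₅), by finiteness, ?_⟩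
  intro μ φ ν U G q hq hμ hL hden k₀ m₀ hD t ht0 ht hν
  have hfinB : ∀ k m n, μ (Bn k m n) ≠ ⊤ := fun k m n => hμ.ball_ne_top hC _ _
  have hfin : ∀ k m, μ (cube t0 k m) ≠ ⊤ := fun k m =>
    ne_top_of_le_ne_top (hfinB k m 0) (measure_mono (cube_subset_Bn k m 0))
  set κ := ν.restrict (Bn k₀ m₀ 0) with hκ
  have hκac : κ ≪ μ := Measure.restrict_le_self.absolutelyContinuous.trans hL.ac
  set E := (cube t0 k₀ m₀ ∩ {x | A * t < ‖U k₀ x‖ₑ}) ∪ {x | (A * t) ^ q < Mx μ κ x} with hE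
  have hEm : MeasurableSet E := ((measurableSet_cube _ _ _).inter
    (measurableSet_lt measurable_const (hL.meas k₀).enorm)).union (isOpen_Mx _ _ _).measurableSet
  have hE4 : 4 * μ E ≤ μ (cube t0 k₀ m₀) := by
    refine four_mul_le (a := (Aw + 1) * β) hq (by finiteness) ht0 ht ?_
    have h1 := hL.weak k₀ m₀ (A * t)
    have h2 := weak_Mx μ κ ((A * t) ^ q)
    rw [hκ, Measure.restrict_apply MeasurableSet.univ, univ_inter] at h2
    calc (A * t) ^ q * μ E ≤ Aw * ν (Bn k₀ m₀ 0) + ν (Bn k₀ m₀ 0) := by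
          refine (mul_le_mul_right (measure_union_le _ _) _).trans ?_
          rw [mul_add]
          exact add_le_add h1 h2
      _ = (Aw + 1) * ν (Bn k₀ m₀ 0) := by ring
      _ ≤ (Aw + 1) * (t ^ q * (β * μ (cube t0 k₀ m₀))) := by
          gcongr
          exact hν.trans (mul_le_mul_right ((measure_mono (Bn_mono _ _ zero_le_one)).trans hD) _)
      _ = _ := by ring
  obtain ⟨P, hP1, hP2, hP3⟩ := stop_decomp t0
    (fun j m => Dbl μ β j m ∧ μ (cube t0 j m) < 2 * μ (cube t0 j m ∩ E)) k₀ m₀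
  have hc : P.Countable := Set.to_countable P
  refine ⟨P, fun p hp => ⟨(hP1 p hp).2.1, (hP1 p hp).2.2.1.1⟩, hP2, ?_, ?_, ?_⟩
  · refine le_trans ?_ hE4
    rw [show (4 : ℝ≥0∞) = 2 * 2 by norm_num, mul_assoc]
    refine mul_le_mul_right ?_ _
    rw [measure_biUnion hc hP2 fun p _ => measurableSet_cube _ _ _]
    refine (ENNReal.tsum_le_tsum fun p : P => (hP1 p p.2).2.2.1.2.le).trans ?_
    rw [ENNReal.tsum_mul_left, ← measure_biUnion (f := fun p : ℤ × Ix d => cube t0 p.1 p.2 ∩ E) hc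
      (hP2.mono fun p => inter_subset_left) fun p _ => (measurableSet_cube _ _ _).inter hEm]
    exact mul_le_mul_right (measure_mono (iUnion₂_subset fun p _ => inter_subset_right)) _
  · filter_upwards [hden E hEm] with x hx hx'
    have h1 : x ∉ E := by
      intro hxE
      obtain ⟨j, hj1, hj2⟩ := ((hx hxE).and (eventually_ge_atTop k₀)).exists
      obtain ⟨p, hp, hxp⟩ := hP3 x hx'.1 ⟨j, hj2, hj1⟩
      exact hx'.2 (mem_biUnion hp hxp)
    have h2 : ‖U k₀ x‖ₑ ≤ A * t := not_lt.1 fun h => h1 (Or.inl ⟨hx'.1, h⟩)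
    refine h2.trans (mul_le_mul_left ?_ _)
    simp only [add_assoc]
    exact le_self_add
  · rintro ⟨k, m⟩ hp
    obtain ⟨p1, p2, ⟨p3, p4⟩, p5⟩ := hP1 _ hp
    dsimp only at p1 p2 p3 p4 p5 ⊢
    set c := ctr t0 k m with hcdef
    have hcm : idx t0 k c = m := ctr_mem t0 k m
    have hc0 : idx t0 k₀ c = m₀ := p2 hcm
    have hkk : k₀ < k := by
      refine lt_of_le_of_ne p1 fun e => ?_
      subst e
      rw [← hcm, hc0] at p4
      have h1 : 2 * μ (cube t0 k₀ m₀) ≤ μ (cube t0 k₀ m₀) :=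
        calc 2 * μ (cube t0 k₀ m₀) ≤ 2 * (2 * μ E) :=
              mul_le_mul_right (p4.le.trans (mul_le_mul_right (measure_mono inter_subset_right) _)) _
          _ = 4 * μ E := by ring
          _ ≤ _ := hE4
      have h2 : μ (cube t0 k₀ m₀) = 0 := by
        by_contra h0
        rw [two_mul] at h1
        exact absurd h1 (not_le.2 (ENNReal.lt_add_right (hfin _ _) h0))
      have h3 : μ (cube t0 k₀ m₀ ∩ E) = 0 := measure_mono_null inter_subset_left h2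
      rw [h2, h3] at p4
      simp at p4
    obtain ⟨ks, ⟨s1, s2, s3⟩, s4⟩ := Int.exists_greatest_of_bdd
      (P := fun j => k₀ ≤ j ∧ j < k ∧ Dbl μ β j (idx t0 j c)) ⟨k, fun z hz => hz.2.1.le⟩
      ⟨k₀, le_rfl, hkk, hc0 ▸ hD⟩
    set ms := idx t0 ks c with hms
    have g1 : 2 * μ (cube t0 ks ms ∩ E) ≤ μ (cube t0 ks ms) :=
      not_lt.1 fun h => p5 c hcm ks s1 s2 ⟨s3, h⟩
    have g2 : cube t0 k m ⊆ cube t0 ks ms := hcm ▸ cube_subset t0 s2.le c
    have g3 : μ (cube t0 ks ms) ≠ 0 := by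
      intro h0
      have h3 : μ (cube t0 k m ∩ E) = 0 := measure_mono_null (inter_subset_left.trans g2) h0
      rw [h3] at p4
      simp at p4
    have g4 : Bn ks ms 0 ⊆ Bn k₀ m₀ 0 := hc0 ▸ Bn_nest s1 c
    have g5 : ∀ z, z ∉ E → ∀ y ρ, z ∈ ball y ρ →
        ν (ball y ρ ∩ Bn k₀ m₀ 0) ≤ (A * t) ^ q * μ (ball y (5 * ρ)) := by
      intro z hz y ρ hy
      rw [← Measure.restrict_apply measurableSet_ball]
      exact (le_Mx hκac hy (hμ.ball_ne_top hC _ _)).trans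
        (mul_le_mul_left (not_lt.1 fun h => hz (Or.inr h)) _)
    have g6 : ν (Bn ks ms 0) ≤ (A * t) ^ q * μ (Bn ks ms 1) := by
      obtain ⟨z, z1, -, z2⟩ := exists_of_lt (P := cube t0 ks ms) (S := cube t0 ks ms ∩ E) hL.full (by
        by_contra h
        rw [not_lt] at h
        have h1 := (mul_le_mul_right h 2).trans g1
        rw [two_mul] at h1
        exact absurd h1 (not_le.2 (ENNReal.lt_add_right (hfin _ _) g3)))
      have := g5 z (fun h => z2 ⟨z1, h⟩) _ _ (cube_subset_Bn ks ms 0 z1)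
      rw [Bn_succ]
      exact (measure_mono (subset_inter Subset.rfl g4)).trans this
    have hAt0 : A * t ≠ 0 := mul_ne_zero hA0 ht0
    have hAtt : A * t ≠ ⊤ := ENNReal.mul_ne_top hAt ht
    have g7 : 4 * μ (cube t0 ks ms ∩ {x | A' * (A * t) < ‖U ks x‖ₑ}) ≤ μ (cube t0 ks ms) := by
      refine four_mul_le (a := Aw * β) hq (by finiteness) hAt0 hAtt ?_
      refine (hL.weak ks ms _).trans ?_
      calc Aw * ν (Bn ks ms 0) ≤ Aw * ((A * t) ^ q * (β * μ (cube t0 ks ms))) :=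
            mul_le_mul_right (g6.trans (mul_le_mul_right s3 _)) _
        _ = _ := by ring
    obtain ⟨x', x1, x2, x3⟩ := exists_of_lt (P := cube t0 ks ms)
      (S := (cube t0 ks ms ∩ E) ∪ (cube t0 ks ms ∩ {x | A' * (A * t) < ‖U ks x‖ₑ})) hL.full (by
        by_contra h
        rw [not_lt] at h
        have h1 : 3 * μ (cube t0 ks ms) + μ (cube t0 ks ms) ≤ 3 * μ (cube t0 ks ms) :=
          calc 3 * μ (cube t0 ks ms) + μ (cube t0 ks ms) = 4 * μ (cube t0 ks ms) := by ring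
            _ ≤ 4 * (μ (cube t0 ks ms ∩ E) +
                μ (cube t0 ks ms ∩ {x | A' * (A * t) < ‖U ks x‖ₑ})) :=
              mul_le_mul_right (h.trans (measure_union_le _ _)) _
            _ = 2 * (2 * μ (cube t0 ks ms ∩ E)) +
                4 * μ (cube t0 ks ms ∩ {x | A' * (A * t) < ‖U ks x‖ₑ}) := by ring
            _ ≤ 2 * μ (cube t0 ks ms) + μ (cube t0 ks ms) := add_le_add (mul_le_mul_right g1 _) g7
            _ = _ := by ring
        exact absurd h1 (not_le.2 (ENNReal.lt_add_right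
          (ENNReal.mul_ne_top (by norm_num) (hfin _ _)) g3)))
    have x4 : x' ∉ E := fun h => x3 (Or.inl ⟨x1, h⟩)
    have x5 : ‖U ks x'‖ₑ ≤ A' * (A * t) := not_lt.1 fun h => x3 (Or.inr ⟨x1, h⟩)
    have x6 : ‖U k₀ x'‖ₑ ≤ A * t := not_lt.1 fun h =>
      x4 (Or.inl ⟨hc0 ▸ cube_subset t0 s1 c x1, h⟩)
    refine ⟨fun x => ‖U (ks + 1) x - U k x‖ₑ, ((hL.meas _).sub (hL.meas _)).enorm, ?_⟩
    intro x hxG hx
    have y1 : idx t0 ks x = ms := g2 hx
    have y0 : idx t0 k₀ x = m₀ := p2 hx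
    constructor
    · have a1 := hL.osc x hxG x' x2 k₀ ks s1 (y1.trans x1.symm) (A * t * (C₀ * 5 ^ d)) (by
        intro ρ hρ
        rw [y0]
        refine (hL.hol _ (measurableSet_ball.inter measurableSet_ball) _ _
          (g5 x' x4 x' ρ (mem_ball_self hρ))
          (measure_mono (inter_subset_left.trans (ball_subset_ball (by linarith))))).trans ?_
        rw [mul_assoc (A * t)]
        refine mul_le_mul_right ((hμ _ _ (by linarith)).trans_eq ?_) _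
        rw [mul_pow, ENNReal.ofReal_mul (by positivity), ENNReal.ofReal_pow (by norm_num), mul_assoc]
        simp)
      have a2 : ‖U ks x - U (ks + 1) x‖ₑ ≤ c₁ * (A * t * c₅) := by
        refine (hL.step x hxG ks).trans (ENNReal.div_le_of_le_mul ?_)
        rw [y1, mul_assoc c₁, mul_assoc (A * t)]
        refine mul_le_mul_right ((hL.hol _ measurableSet_ball _ _ g6
          (measure_mono (Bn_mono _ _ zero_le_one))).trans (mul_le_mul_right ?_ _)) _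
        have := hμ.rad (ctr t0 ks ms) ks (a := 15) (by norm_num)
        refine le_trans (le_of_eq ?_) this
        unfold Bn
        congr 2
        ring
      have a3 : U k₀ x = ((U k₀ x - U ks x) - (U k₀ x' - U ks x')) + U k₀ x' - U ks x' +
          (U ks x - U (ks + 1) x) + U k x + (U (ks + 1) x - U k x) := by ring
      rw [a3]
      refine (enorm_add_le _ _).trans (add_le_add_left ((enorm_add_le _ _).trans
        (add_le_add_left ((enorm_add_le _ _).trans ?_) _)) _)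
      refine (add_le_add ((enorm_sub_le).trans (add_le_add ((enorm_add_le _ _).trans
        (add_le_add a1 x6)) x5)) a2).trans_eq ?_
      ring
    · refine (tele (hL.step x hxG) (show ks + 1 ≤ k by omega) fun i h1 h2 hb => ?_).trans
        (Wt_anti (by omega) x)
      have e : idx t0 i x = idx t0 i c := idx_le t0 h2.le (hx.trans hcm.symm)
      rw [e] at hb
      have := s4 i ⟨by omega, h2, hb⟩
      omega

end Pool.Agent.H287Z.A2
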