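import Mathlib
import Pool.Agent.H287Z.A2.Rec

set_option autoImplicit false
set_option linter.unusedSectionVars false
set_option linter.unusedSimpArgs false

open MeasureTheory Filter Topology Set Metric
open scoped NNReal ENNReal

noncomputable section

namespace Pool.Agent.H287Z.A2

variable {d : ℕ}

theorem le_of_forall_half {a b c : ℝ≥0∞} (hc : c ≠ ⊤) (h : ∀ n : ℕ, a ≤ b + c * 2⁻¹ ^ n) :
    a ≤ b := by
  have h1 : Tendsto (fun n : ℕ => b + c * 2⁻¹ ^ n) atTop (𝓝 (b + c * 0)) :=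
    tendsto_const_nhds.add (ENNReal.Tendsto.const_mul
      (ENNReal.tendsto_pow_atTop_nhds_zero_of_lt_one (by norm_num)) (Or.inr hc))
  simpa using ge_of_tendsto' h1 h

theorem core (d : ℕ) (C₀ c₁ c₂ Aw : ℝ≥0∞) (hC : C₀ ≠ ⊤) (hc₁ : c₁ ≠ ⊤) (hc₂ : c₂ ≠ ⊤)
    (hAw : Aw ≠ ⊤) : ∃ C : ℝ≥0∞, C ≠ ⊤ ∧ ∀ (μ φ ν : Measure (X d))
      (U : ℤ → X d → ℂ) (G : Set (X d)) (q : ℕ), q ≠ 0 → Gr C₀ μ → Loc μ φ ν U G c₁ c₂ Aw q →
      ∀ γ F : X d → ℝ≥0∞, Measurable γ → Measurable F →
      (∃ D : ℝ≥0∞, D ≠ ⊤ ∧ ∀ k m, ∫⁻ x in cube t0 k m, ‖U k x‖ₑ * γ x ∂μ ≤ D * μ (Bn k m 0)) →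
      (∀ k m, ν (Bn k m 0) ≠ 0 → ∃ t : ℝ≥0∞, t ≠ 0 ∧ t ≠ ⊤ ∧
        ν (Bn k m 0) ≤ t ^ q * μ (Bn k m 0) ∧ ∀ z ∈ Bn k m 0,
          t * μ (Bn k m 0) * ∫⁻ x in Bn k m 0, γ x ∂μ ≤ μ (Bn k m 1) ^ 2 * F z) →
      (∀ k m n, ∀ z ∈ Bn k m n, φ (Bn k m 0) * ∫⁻ x in Bn k m 0, γ x ∂μ ≤
        μ (Bn k m 0) ^ (1 / 2 : ℝ) * μ (Bn k m (n + 1)) ^ (3 / 2 : ℝ) * F z) →
      ∀ k, ∫⁻ x, ‖U k x‖ₑ * γ x ∂μ ≤ C * ∫⁻ x, F x ∂μ := by
  obtain ⟨β₀, hβ₀, hden⟩ := density d
  obtain ⟨β, Cp, hβ1, hβ, hCp, hpack⟩ := packing d C₀ hC β₀ hβ₀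
  obtain ⟨C₃, hC₃, hrec⟩ := recursion d C₀ c₁ c₂ Aw β hC hc₁ hc₂ hAw hβ
  set C₄ : ℝ≥0∞ := C₃ * (2 * β ^ 2) with hC₄
  have hC₄t : C₄ ≠ ⊤ := by rw [hC₄]; finiteness
  refine ⟨C₄ + c₁ * Cp, by finiteness, ?_⟩
  rintro μ φ ν U G q hq hμ hL γ F hγ hF ⟨D, hD, hR⟩ H1 H2 k₁
  have := hμ.locFin hC
  have hden' := hden C₀ hC μ hμ β hβ1
  have hfinB : ∀ k m n, μ (Bn k m n) ≠ ⊤ := fun k m n => hμ.ball_ne_top hC _ _
  have hfin : ∀ k m, μ (cube t0 k m) ≠ ⊤ := fun k m =>
    ne_top_of_le_ne_top (hfinB k m 0) (measure_mono (cube_subset_Bn k m 0))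
  have hW : ∀ k, Measurable fun x => Wt μ φ β c₁ k x * γ x := fun k => (measurable_Wt k).mul hγ
  have hU : ∀ k, Measurable fun x => ‖U k x‖ₑ * γ x := fun k => (hL.meas k).enorm.mul hγ
  have hF4 : Measurable fun x => C₄ * F x := hF.const_mul _
  have ind : ∀ n : ℕ, ∀ k m, Dbl μ β k m → ∫⁻ x in cube t0 k m, ‖U k x‖ₑ * γ x ∂μ ≤
      ∫⁻ x in cube t0 k m, (C₄ * F x + Wt μ φ β c₁ k x * γ x) ∂μ +
        D * β * μ (cube t0 k m) * 2⁻¹ ^ n := by
    intro n
    induction n with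
    | zero =>
      intro k m hD'
      refine le_add_left ((hR k m).trans ?_)
      rw [pow_zero, mul_one, mul_assoc]
      exact mul_le_mul_right ((measure_mono (Bn_mono _ _ zero_le_one)).trans hD') _
    | succ n ih =>
      intro k m hD'
      rcases eq_or_ne (μ (cube t0 k m)) 0 with hQ | hQ
      · rw [Measure.restrict_eq_zero.2 hQ, lintegral_zero_measure]
        exact zero_le
      rcases eq_or_ne (ν (Bn k m 0)) 0 with h0 | h0
      · have h1 : ∀ᵐ x ∂μ, ∀ i : ℕ, x ∈ cube t0 k m → ‖U k x‖ₑ ≤ (i : ℝ≥0∞)⁻¹ := by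
          rw [ae_all_iff]
          intro i
          have h2 := hL.weak k m (i : ℝ≥0∞)⁻¹
          rw [h0, mul_zero, nonpos_iff_eq_zero, mul_eq_zero] at h2
          have h3 := h2.resolve_left (pow_ne_zero _ (ENNReal.inv_ne_zero.2 (by simp)))
          filter_upwards [measure_eq_zero_iff_ae_notMem.1 h3] with x hx hxQ
          exact not_lt.1 fun h => hx ⟨hxQ, h⟩
        have h2 : ∫⁻ x in cube t0 k m, ‖U k x‖ₑ * γ x ∂μ ≤ ∫⁻ _x in cube t0 k m, 0 ∂μ := by
          refine setLIntegral_mono_ae' (measurableSet_cube _ _ _) ?_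
          filter_upwards [h1] with x hx hxQ
          have : ‖U k x‖ₑ = 0 := by
            by_contra h
            obtain ⟨i, hi⟩ := ENNReal.exists_inv_nat_lt h
            exact absurd (hx i hxQ) (not_le.2 hi)
          simp [this]
        exact h2.trans (by simp)
      obtain ⟨t, t0', t1, t2, t3⟩ := H1 k m h0
      obtain ⟨P, P1, P2, P3, P4, P5⟩ := hrec μ φ ν U G q hq hμ hL hden' k m hD' t t0' t1 t2
      have hc : P.Countable := Set.to_countable P
      set S := ⋃ p ∈ P, cube t0 p.1 p.2 with hS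
      have hSm : MeasurableSet S := MeasurableSet.biUnion hc fun p _ => measurableSet_cube _ _ _
      have hSQ : S ⊆ cube t0 k m := iUnion₂_subset fun p hp => (P1 p hp).1
      have hγ3 : Measurable fun x => C₃ * t * γ x := hγ.const_mul _
      have a1 := sum_up μ (g := fun x => ‖U k x‖ₑ * γ x)
        (h := fun x => C₃ * t * γ x + (C₄ * F x + Wt μ φ β c₁ k x * γ x) + D * β * 2⁻¹ ^ n)
        (fun p hp => (P1 p hp).1) P2 (by
          intro p hp
          obtain ⟨V, hV, hV'⟩ := P5 p hp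
          have hVγ : Measurable fun x => C₃ * t * γ x + V x * γ x := hγ3.add (hV.mul hγ)
          calc ∫⁻ x in cube t0 p.1 p.2, ‖U k x‖ₑ * γ x ∂μ
              ≤ ∫⁻ x in cube t0 p.1 p.2, (C₃ * t * γ x + V x * γ x + ‖U p.1 x‖ₑ * γ x) ∂μ := by
                refine setLIntegral_mono_ae' (measurableSet_cube _ _ _) ?_
                filter_upwards [hL.full] with x hx hx'
                refine (mul_le_mul_left (hV' x hx hx').1 _).trans_eq ?_
                ring
            _ ≤ ∫⁻ x in cube t0 p.1 p.2, (C₃ * t * γ x + V x * γ x) ∂μ +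
                (∫⁻ x in cube t0 p.1 p.2, (C₄ * F x + Wt μ φ β c₁ p.1 x * γ x) ∂μ +
                  D * β * μ (cube t0 p.1 p.2) * 2⁻¹ ^ n) := by
                rw [lintegral_add_right _ (hU p.1)]
                exact add_le_add le_rfl (ih _ _ (P1 p hp).2)
            _ ≤ _ := by
                rw [← add_assoc, ← lintegral_add_left hVγ,
                  lintegral_add_right _ measurable_const, setLIntegral_const, mul_right_comm (D * β)]
                refine add_le_add (setLIntegral_mono_ae' (measurableSet_cube _ _ _) ?_) le_rfl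
                filter_upwards [hL.full] with x hx hx'
                calc C₃ * t * γ x + V x * γ x + (C₄ * F x + Wt μ φ β c₁ p.1 x * γ x)
                    = C₃ * t * γ x + (C₄ * F x + (V x + Wt μ φ β c₁ p.1 x) * γ x) := by ring
                  _ ≤ _ := by gcongr; exact (hV' x hx hx').2)
      have a2 : ∫⁻ x in cube t0 k m \ S, ‖U k x‖ₑ * γ x ∂μ ≤
          ∫⁻ x in cube t0 k m \ S, C₃ * t * γ x ∂μ := by
        refine setLIntegral_mono_ae' ((measurableSet_cube _ _ _).diff hSm) ?_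
        filter_upwards [P4] with x hx hx'
        exact mul_le_mul_left (hx hx') _
      have a3 : μ (cube t0 k m) ≤ 2 * μ (cube t0 k m \ S) := by
        have b1 := measure_inter_add_sdiff (μ := μ) (cube t0 k m) hSm
        rw [inter_eq_right.2 hSQ] at b1
        rw [← ENNReal.add_le_add_iff_left (hfin k m), ← two_mul]
        conv_lhs => rw [← b1, mul_add]
        exact add_le_add P3 le_rfl
      have a4 : t * ∫⁻ x in cube t0 k m, γ x ∂μ ≤ 2 * β ^ 2 * ∫⁻ x in cube t0 k m \ S, F x ∂μ := by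
        have b0 : μ (cube t0 k m \ S) ≠ 0 := fun h => hQ (by simpa [h] using a3)
        have b0' : μ (cube t0 k m \ S) ≠ ⊤ :=
          ne_top_of_le_ne_top (hfin k m) (measure_mono sdiff_subset)
        have b1 : ∀ z ∈ cube t0 k m \ S, t * ∫⁻ x in cube t0 k m, γ x ∂μ ≤
            2 * β ^ 2 * μ (cube t0 k m \ S) * F z := by
          intro z hz
          rw [← ENNReal.mul_le_mul_iff_right hQ (hfin k m)]
          calc μ (cube t0 k m) * (t * ∫⁻ x in cube t0 k m, γ x ∂μ)
              = t * μ (cube t0 k m) * ∫⁻ x in cube t0 k m, γ x ∂μ := by ring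
            _ ≤ t * μ (Bn k m 0) * ∫⁻ x in Bn k m 0, γ x ∂μ := by
              gcongr
              · exact cube_subset_Bn k m 0
              · exact cube_subset_Bn k m 0
            _ ≤ (β * μ (cube t0 k m)) ^ 2 * F z :=
              (t3 z (cube_subset_Bn k m 0 hz.1)).trans (mul_le_mul_left (pow_le_pow_left' hD' 2) _)
            _ = μ (cube t0 k m) * (β ^ 2 * μ (cube t0 k m) * F z) := by ring
            _ ≤ μ (cube t0 k m) * (β ^ 2 * (2 * μ (cube t0 k m \ S)) * F z) := by gcongr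
            _ = _ := by ring
        have b2 := setLIntegral_mono' (μ := μ) ((measurableSet_cube _ _ _).diff hSm) b1
        rw [setLIntegral_const, lintegral_const_mul' _ _ (by finiteness),
          mul_right_comm (2 * β ^ 2)] at b2
        exact (ENNReal.mul_le_mul_iff_left b0 b0').1 b2
      refine a1.trans ((add_le_add a2 le_rfl).trans ?_)
      rw [lintegral_add_right _ measurable_const, lintegral_add_left hγ3, setLIntegral_const,
        ← add_assoc, ← add_assoc]
      refine add_le_add ?_ ?_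
      · have b1 := lintegral_inter_add_sdiff (μ := μ) (fun x => C₃ * t * γ x) (cube t0 k m) hSm
        have b2 := lintegral_inter_add_sdiff (μ := μ)
          (fun x => C₄ * F x + Wt μ φ β c₁ k x * γ x) (cube t0 k m) hSm
        rw [inter_eq_right.2 hSQ] at b1 b2
        rw [add_comm (∫⁻ x in cube t0 k m \ S, C₃ * t * γ x ∂μ), b1, ← b2, add_comm]
        refine add_le_add le_rfl ?_
        rw [lintegral_const_mul' _ _ (by finiteness), mul_assoc]
        refine (mul_le_mul_right a4 _).trans ?_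
        rw [← mul_assoc, ← hC₄, ← lintegral_const_mul' _ _ hC₄t]
        exact lintegral_mono fun x => le_self_add
      · calc D * β * 2⁻¹ ^ n * μ S = D * β * (2 * μ S) * 2⁻¹ ^ (n + 1) := by
              rw [pow_succ]
              calc D * β * 2⁻¹ ^ n * μ S = D * β * 2⁻¹ ^ n * μ S * (2 * 2⁻¹) := by
                    rw [ENNReal.mul_inv_cancel (by norm_num) (by norm_num), mul_one]
                _ = _ := by ring
          _ ≤ _ := by gcongr
  have lim : ∀ k m, Dbl μ β k m → ∫⁻ x in cube t0 k m, ‖U k x‖ₑ * γ x ∂μ ≤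
      ∫⁻ x in cube t0 k m, (C₄ * F x + Wt μ φ β c₁ k x * γ x) ∂μ := fun k m h =>
    le_of_forall_half (ENNReal.mul_ne_top (ENNReal.mul_ne_top hD hβ) (hfin k m))
      fun n => ind n k m h
  have top : ∀ k m, ∫⁻ x in cube t0 k m, ‖U k x‖ₑ * γ x ∂μ ≤
      ∫⁻ x in cube t0 k m, (C₄ * F x + Wt μ φ β c₁ k x * γ x) ∂μ := by
    intro k m
    obtain ⟨P, P1, P2, P3⟩ := stop_decomp t0 (Dbl μ β) k m
    have a1 := sum_up μ (g := fun x => ‖U k x‖ₑ * γ x)
      (h := fun x => C₄ * F x + Wt μ φ β c₁ k x * γ x) (fun p hp => (P1 p hp).2.1) P2 (by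
        intro p hp
        obtain ⟨p1, p2, p3, p4⟩ := P1 p hp
        have hV : Measurable fun x => ‖U k x - U p.1 x‖ₑ * γ x :=
          ((hL.meas _).sub (hL.meas _)).enorm.mul hγ
        calc ∫⁻ x in cube t0 p.1 p.2, ‖U k x‖ₑ * γ x ∂μ
            ≤ ∫⁻ x in cube t0 p.1 p.2, (‖U k x - U p.1 x‖ₑ * γ x + ‖U p.1 x‖ₑ * γ x) ∂μ := by
              refine lintegral_mono fun x => ?_
              rw [← add_mul]
              refine mul_le_mul_left ?_ _
              conv_lhs => rw [← sub_add_cancel (U k x) (U p.1 x)]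
              exact enorm_add_le _ _
          _ ≤ ∫⁻ x in cube t0 p.1 p.2, ‖U k x - U p.1 x‖ₑ * γ x ∂μ +
              ∫⁻ x in cube t0 p.1 p.2, (C₄ * F x + Wt μ φ β c₁ p.1 x * γ x) ∂μ := by
              rw [lintegral_add_left hV]
              exact add_le_add le_rfl (lim _ _ p3)
          _ ≤ _ := by
              rw [← lintegral_add_left hV]
              refine setLIntegral_mono_ae' (measurableSet_cube _ _ _) ?_
              filter_upwards [hL.full] with x hx hx'
              calc ‖U k x - U p.1 x‖ₑ * γ x + (C₄ * F x + Wt μ φ β c₁ p.1 x * γ x)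
                  = C₄ * F x + (‖U k x - U p.1 x‖ₑ + Wt μ φ β c₁ p.1 x) * γ x := by ring
                _ ≤ _ := by gcongr; exact tele (hL.step x hx) p1 (p4 x hx'))
    have a2 : μ (cube t0 k m \ ⋃ p ∈ P, cube t0 p.1 p.2) = 0 := by
      rw [measure_eq_zero_iff_ae_notMem]
      filter_upwards [hden' univ MeasurableSet.univ] with x hx hx'
      obtain ⟨j, hj1, hj2⟩ := ((hx (mem_univ x)).and (eventually_ge_atTop k)).exists
      obtain ⟨p, hp, hxp⟩ := P3 x hx'.1 ⟨j, hj2, hj1.1⟩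
      exact hx'.2 (mem_biUnion hp hxp)
    rw [Measure.restrict_eq_zero.2 a2, lintegral_zero_measure, zero_add] at a1
    exact a1.trans (lintegral_mono_set (iUnion₂_subset fun p hp => (P1 p hp).2.1))
  rw [lintegral_eq_tsum t0 k₁]
  refine (ENNReal.tsum_le_tsum (top k₁)).trans ?_
  rw [← lintegral_eq_tsum, lintegral_add_left hF4, lintegral_const_mul' _ _ hC₄t, add_mul]
  refine add_le_add le_rfl ?_
  have hp := hpack μ hμ F hF (fun p => φ (Bn p.1 p.2 0) * ∫⁻ x in Bn p.1 p.2 0, γ x ∂μ)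
    fun p n z hz => H2 p.1 p.2 n z hz
  rw [mul_assoc]
  refine le_trans ?_ (mul_le_mul_right hp _)
  calc ∫⁻ x, Wt μ φ β c₁ k₁ x * γ x ∂μ
      ≤ ∫⁻ x, ∑' j, bt μ φ β c₁ j (idx t0 j x) * γ x ∂μ := by
        refine lintegral_mono fun x => ?_
        rw [ENNReal.tsum_mul_right]
        refine mul_le_mul_left (ENNReal.tsum_le_tsum fun j => ?_) _
        split_ifs
        · exact le_rfl
        · exact zero_le
    _ = ∑' j, ∑' m, ∫⁻ x in cube t0 j m, bt μ φ β c₁ j (idx t0 j x) * γ x ∂μ := by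
        have hb : ∀ j, Measurable fun x => bt μ φ β c₁ j (idx t0 j x) * γ x :=
          fun j => (measurable_bt j).mul hγ
        rw [lintegral_tsum fun j => (hb j).aemeasurable]
        exact tsum_congr fun j => lintegral_eq_tsum t0 j μ _
    _ ≤ _ := by
        rw [← ENNReal.tsum_mul_left, ENNReal.tsum_prod']
        refine ENNReal.tsum_le_tsum fun j => ENNReal.tsum_le_tsum fun m => ?_
        have e : ∀ x ∈ cube t0 j m, bt μ φ β c₁ j (idx t0 j x) * γ x = bt μ φ β c₁ j m * γ x := by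
          intro x hx
          have e : idx t0 j x = m := hx
          rw [e]
        rw [setLIntegral_congr_fun (measurableSet_cube _ _ _) e, lintegral_const_mul _ hγ, bt]
        dsimp only
        split_ifs
        · simp
        · rw [div_eq_mul_inv, div_eq_mul_inv]
          calc c₁ * φ (Bn j m 0) * (lam d j)⁻¹ * ∫⁻ x in cube t0 j m, γ x ∂μ
              ≤ c₁ * φ (Bn j m 0) * (lam d j)⁻¹ * ∫⁻ x in Bn j m 0, γ x ∂μ :=
                mul_le_mul_right (lintegral_mono_set (cube_subset_Bn j m 0)) _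
            _ = _ := by ring

end Pool.Agent.H287Z.A2
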