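import Mathlib

set_option autoImplicit false

open MeasureTheory Set Metric
open scoped NNReal ENNReal

namespace Pool.Agent.H287Z.A2

/-- The Euclidean space `ℝ^d`. -/
abbrev E (d : ℕ) : Type := EuclideanSpace ℝ (Fin d)

variable {d : ℕ}

/-- Polynomial growth: `μ(B(x, r)) ≤ C₀ r^d` for all `x` and all `r > 0`. -/
def IsGrowth (C₀ : ℝ≥0) (μ : Measure (E d)) : Prop :=
  ∀ (x : E d) (r : ℝ), 0 < r → μ (ball x r) ≤ C₀ * ENNReal.ofReal (r ^ d)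

/-- `K` is a Calderon-Zygmund kernel with constant `C` and exponent `δ`. -/
structure IsCZKernel (C : ℝ≥0) (δ : ℝ) (K : E d → E d → ℂ) : Prop where
  size : ∀ x y, x ≠ y → ‖K x y‖ ≤ C / ‖x - y‖ ^ d
  smooth : ∀ x x' y, x ≠ y → 2 * ‖x - x'‖ ≤ ‖x - y‖ →
    ‖K x y - K x' y‖ + ‖K y x - K y x'‖ ≤ C * ‖x - x'‖ ^ δ / ‖x - y‖ ^ ((d : ℝ) + δ)

/-- The space `L²(μ)`. -/
abbrev L2 (μ : Measure (E d)) : Type := Lp ℂ 2 μ

/-- `T f (x) = ∫ K(x, y) f(y) dμ(y)` for compactly supported `f` in `L²(μ)` and almost every `x`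
outside the support of `f`. -/
def IsAssociated (μ : Measure (E d)) (K : E d → E d → ℂ) (T : L2 μ →L[ℂ] L2 μ) : Prop :=
  ∀ (f : E d → ℂ) (hf : MemLp f 2 μ), HasCompactSupport f →
    ∀ᵐ x ∂μ, x ∉ tsupport f → T (hf.toLp f) x = ∫ y, K x y * f y ∂μ

/-- `w > 0` almost everywhere, and `w` and `1/w` are locally integrable. -/
structure IsWeight (μ : Measure (E d)) (w : E d → ℝ) : Prop where
  pos : ∀ᵐ x ∂μ, 0 < w x
  locInt : LocallyIntegrable w μ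
  locIntInv : LocallyIntegrable (fun x => (w x)⁻¹) μ

/-- `[w]_{A_2^0(μ)}`: the supremum over all balls `B` of `(w(B)/μ(B)) (w⁻¹(B)/μ(B))`. -/
noncomputable def A2char (μ : Measure (E d)) (w : E d → ℝ) : ℝ≥0∞ :=
  ⨆ (x : E d) (r : ℝ) (_ : 0 < r),
    ((∫⁻ y in ball x r, ENNReal.ofReal (w y) ∂μ) / μ (ball x r)) *
      ((∫⁻ y in ball x r, ENNReal.ofReal (w y)⁻¹ ∂μ) / μ (ball x r))

/-- The norm of `L²(w dμ)`. -/
noncomputable def wNorm (μ : Measure (E d)) (w : E d → ℝ) (f : E d → ℂ) : ℝ≥0∞ :=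
  (∫⁻ x, ‖f x‖ₑ ^ 2 * ENNReal.ofReal (w x) ∂μ) ^ (1 / 2 : ℝ)

end Pool.Agent.H287Z.A2
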