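import Mathlib
import Pool.Agent.H287Z.A2.Core
import Pool.Agent.H287Z.A2.Defs

set_option autoImplicit false
set_option linter.unusedSectionVars false
set_option linter.unusedSimpArgs false

open MeasureTheory Filter Topology Set Metric
open scoped NNReal ENNReal

noncomputable section

namespace Pool.Agent.H287Z.A2

variable {d : ℕ}

theorem dist_lt_rad (t : Fin d → Bool) (k : ℤ) {x y : X d} (h : idx t k x = idx t k y) :
    dist x y < rad d k := by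
  have hx := (mem_cube_iff t k _ x).1 h
  have hy := (mem_cube_iff t k _ y).1 (mem_cube_self t k y)
  rw [EuclideanSpace.dist_eq, Real.sqrt_lt' (rad_pos k)]
  simp only [Real.dist_eq, sq_abs]
  have hl := ell_pos k
  have h1 : ∀ i, (x i - y i) ^ 2 ≤ ell k ^ 2 := by
    intro i
    obtain ⟨h1, h2⟩ := hx i
    obtain ⟨h3, h4⟩ := hy i
    apply sq_le_sq'
    · nlinarith
    · nlinarith
  calc ∑ i, (x i - y i) ^ 2 ≤ ∑ _i : Fin d, ell k ^ 2 := Finset.sum_le_sum fun i _ => h1 i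
    _ = d * ell k ^ 2 := by simp
    _ < rad d k ^ 2 := by
      unfold rad
      have : (0 : ℝ) ≤ d := Nat.cast_nonneg d
      rw [mul_pow]
      apply mul_lt_mul_of_pos_right _ (by positivity)
      nlinarith

theorem far {k : ℤ} {x y : X d} (h : y ∉ Bn k (idx t0 k x) 0) : 2 * rad d k < ‖x - y‖ := by
  have h1 : x ∈ ball (ctr t0 k (idx t0 k x)) (rad d k) := cube_subset_ball t0 k _ rfl
  rw [Bn, mem_ball, not_lt, pow_zero, one_mul] at h
  rw [mem_ball] at h1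
  have := dist_triangle_left y (ctr t0 k (idx t0 k x)) x
  rw [← dist_eq_norm]
  linarith

theorem IsCZKernel.continuousOn {C : ℝ≥0} {δ : ℝ} (hδ : 0 < δ) {K : X d → X d → ℂ}
    (h : IsCZKernel C δ K) : ContinuousOn (fun p : X d × X d => K p.1 p.2) {p | p.1 ≠ p.2} := by
  rintro ⟨x, y⟩ hxy
  have hxy' : x ≠ y := hxy
  apply ContinuousAt.continuousWithinAt
  have hp : 0 < ‖x - y‖ := norm_pos_iff.2 (sub_ne_zero.2 hxy')
  have hp' : 0 < ‖y - x‖ := norm_pos_iff.2 (sub_ne_zero.2 hxy'.symm)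
  rw [ContinuousAt, tendsto_iff_norm_sub_tendsto_zero]
  have c1 : ContinuousAt (fun p : X d × X d => C * ‖y - p.2‖ ^ δ / ‖y - p.1‖ ^ ((d : ℝ) + δ) +
      C * ‖x - p.1‖ ^ δ / ‖x - y‖ ^ ((d : ℝ) + δ)) (x, y) := by
    refine ContinuousAt.add (ContinuousAt.div ?_ ?_ (Real.rpow_pos_of_pos hp' _).ne')
      (ContinuousAt.div_const ?_ _)
    · exact continuousAt_const.mul (ContinuousAt.rpow_const (by fun_prop) (Or.inr hδ.le))
    · exact ContinuousAt.rpow_const (by fun_prop) (Or.inl hp'.ne')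
    · exact continuousAt_const.mul (ContinuousAt.rpow_const (by fun_prop) (Or.inr hδ.le))
  have c2 := c1.tendsto
  simp only [sub_self, norm_zero, Real.zero_rpow hδ.ne', mul_zero, zero_div, add_zero] at c2
  refine squeeze_zero' (Eventually.of_forall fun _ => norm_nonneg _) ?_ c2
  have e1 : ∀ᶠ p : X d × X d in 𝓝 (x, y), 2 * ‖x - p.1‖ < ‖x - y‖ :=
    ContinuousAt.eventually_lt (by fun_prop) (by fun_prop) (by simpa using hp)
  have e2 : ∀ᶠ p : X d × X d in 𝓝 (x, y), 2 * ‖y - p.2‖ < ‖y - p.1‖ :=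
    ContinuousAt.eventually_lt (by fun_prop) (by fun_prop) (by simpa using hp')
  filter_upwards [e1, e2] with p h1 h2
  have h3 : y ≠ p.1 := by
    intro e
    rw [← e, sub_self, norm_zero] at h2
    linarith [norm_nonneg (y - p.2)]
  have a1 := h.smooth x p.1 y hxy' h1.le
  have a2 := h.smooth y p.2 p.1 h3 h2.le
  have a3 : ‖K p.1 p.2 - K x y‖ ≤ ‖K p.1 y - K p.1 p.2‖ + ‖K x y - K p.1 y‖ := by
    rw [norm_sub_rev (K p.1 y), norm_sub_rev (K x y)]
    exact norm_sub_le_norm_sub_add_norm_sub _ _ _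
  linarith [norm_nonneg (K y x - K y p.1), norm_nonneg (K y p.1 - K p.2 p.1)]

theorem annuli {δ : ℝ} (hδ : 0 < δ) (φ : Measure (X d)) (S : Set (X d)) (x : X d) {r : ℝ}
    (hr : 0 < r) (L : ℝ≥0∞) (h : ∀ ρ, 0 < ρ → φ (ball x ρ ∩ S) ≤ L * ENNReal.ofReal (ρ ^ d))
    (hS : MeasurableSet S) :
    ∫⁻ y in S \ ball x r, ENNReal.ofReal (r ^ δ / ‖x - y‖ ^ ((d : ℝ) + δ)) ∂φ ≤
      2 ^ d * (1 - ENNReal.ofReal (2 ^ (-δ)))⁻¹ * L := by
  have h1 : S \ ball x r ⊆ ⋃ i : ℕ, (ball x (2 ^ (i + 1) * r) ∩ S) \ ball x (2 ^ i * r) := by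
    rintro y ⟨hy1, hy2⟩
    rw [mem_ball, not_lt] at hy2
    obtain ⟨i, hi1, hi2⟩ := exists_nat_pow_near ((one_le_div hr).2 hy2) (by norm_num : (1 : ℝ) < 2)
    refine mem_iUnion.2 ⟨i, ⟨?_, hy1⟩, ?_⟩
    · rwa [mem_ball, ← div_lt_iff₀ hr]
    · rwa [mem_ball, not_lt, ← le_div_iff₀ hr]
  refine (lintegral_mono_set h1).trans ((lintegral_iUnion_le _ _).trans ?_)
  have h2 : ∀ i : ℕ, ∫⁻ y in (ball x (2 ^ (i + 1) * r) ∩ S) \ ball x (2 ^ i * r),
      ENNReal.ofReal (r ^ δ / ‖x - y‖ ^ ((d : ℝ) + δ)) ∂φ ≤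
      2 ^ d * L * ENNReal.ofReal (2 ^ (-δ)) ^ i := by
    intro i
    have hir : (0 : ℝ) < 2 ^ i * r := by positivity
    calc _ ≤ ∫⁻ _y in (ball x (2 ^ (i + 1) * r) ∩ S) \ ball x (2 ^ i * r),
          ENNReal.ofReal (r ^ δ / (2 ^ i * r) ^ ((d : ℝ) + δ)) ∂φ := by
          refine setLIntegral_mono' ((measurableSet_ball.inter hS).diff measurableSet_ball)
            fun y hy => ENNReal.ofReal_le_ofReal ?_
          have h3 := hy.2
          rw [mem_ball, not_lt, dist_comm, dist_eq_norm] at h3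
          exact div_le_div_of_nonneg_left (by positivity) (by positivity)
            (Real.rpow_le_rpow hir.le h3 (by positivity))
      _ ≤ ENNReal.ofReal (r ^ δ / (2 ^ i * r) ^ ((d : ℝ) + δ)) *
          (L * ENNReal.ofReal ((2 ^ (i + 1) * r) ^ d)) := by
          rw [setLIntegral_const]
          exact mul_le_mul_right ((measure_mono sdiff_subset).trans (h _ (by positivity))) _
      _ = _ := by
          rw [mul_left_comm, ← ENNReal.ofReal_mul (by positivity), ← ENNReal.ofReal_pow (by positivity),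
            mul_comm (2 ^ d) L, mul_assoc L]
          congr 1
          have e : r ^ δ / (2 ^ i * r) ^ ((d : ℝ) + δ) * (2 ^ (i + 1) * r) ^ d =
              2 ^ d * (2 ^ (-δ)) ^ i := by
            rw [Real.rpow_add hir, Real.rpow_natCast, Real.mul_rpow (by positivity) hr.le,
              ← Real.rpow_natCast ((2 : ℝ) ^ (-δ)), ← Real.rpow_mul (by norm_num), neg_mul,
              Real.rpow_neg (by norm_num), mul_comm δ, Real.rpow_mul (by norm_num), Real.rpow_natCast,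
              pow_succ, mul_right_comm, mul_pow _ (2 : ℝ)]
            have : (0 : ℝ) < ((2 : ℝ) ^ i) ^ δ := by positivity
            have : (0 : ℝ) < r ^ δ := by positivity
            field_simp
          rw [e, ENNReal.ofReal_mul (by positivity), ENNReal.ofReal_pow (by norm_num)]
          simp
  refine (ENNReal.tsum_le_tsum h2).trans_eq ?_
  rw [ENNReal.tsum_mul_left, ENNReal.tsum_geometric]
  ring

open Classical in
/-- the operator acting on functions -/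
def ap {μ : Measure (X d)} (T : L2 μ →L[ℂ] L2 μ) (g : X d → ℂ) : X d → ℂ :=
  if h : MemLp g 2 μ then T (h.toLp g) else 0

theorem ap_eq {μ : Measure (X d)} (T : L2 μ →L[ℂ] L2 μ) {g : X d → ℂ} (h : MemLp g 2 μ) :
    ap T g = T (h.toLp g) := dif_pos h

theorem measurable_ap {μ : Measure (X d)} (T : L2 μ →L[ℂ] L2 μ) (g : X d → ℂ) :
    Measurable (ap T g) := by
  unfold ap
  split_ifs
  · exact (Lp.stronglyMeasurable _).measurable
  · exact measurable_zero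

theorem lintegral_sq (μ : Measure (X d)) (g : X d → ℂ) :
    ∫⁻ x, ‖g x‖ₑ ^ 2 ∂μ = eLpNorm g 2 μ ^ 2 := by
  have := eLpNorm_nnreal_pow_eq_lintegral (f := g) (μ := μ) (p := 2) (by norm_num)
  simp only [NNReal.coe_ofNat, ENNReal.coe_ofNat, ENNReal.rpow_ofNat] at this
  exact this.symm

theorem ap_L2 {μ : Measure (X d)} (T : L2 μ →L[ℂ] L2 μ) {g : X d → ℂ} (h : MemLp g 2 μ) :
    ∫⁻ x, ‖ap T g x‖ₑ ^ 2 ∂μ ≤ ‖T‖ₑ ^ 2 * ∫⁻ x, ‖g x‖ₑ ^ 2 ∂μ := by
  rw [lintegral_sq, lintegral_sq, ap_eq T h, ← mul_pow, ← Lp.enorm_def, ← Lp.enorm_toLp h]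
  exact pow_le_pow_left' (T.le_opENorm _) 2

/-- bounded measurable functions -/
structure Bd (f : X d → ℂ) : Prop where
  meas : Measurable f
  bd : ∃ M : ℝ≥0, ∀ x, ‖f x‖ ≤ M

theorem Bd.integrableOn {f : X d → ℂ} (hf : Bd f) {μ : Measure (X d)} {B : Set (X d)}
    (hB : μ B ≠ ⊤) : IntegrableOn f B μ := by
  obtain ⟨M, hM⟩ := hf.bd
  exact Measure.integrableOn_of_bounded hB hf.meas.aestronglyMeasurable (Eventually.of_forall hM)

theorem Bd.memLp {f : X d → ℂ} (hf : Bd f) {μ : Measure (X d)} {B : Set (X d)}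
    (hm : MeasurableSet B) (hB : μ B ≠ ⊤) : MemLp (B.indicator f) 2 μ := by
  obtain ⟨M, hM⟩ := hf.bd
  rw [memLp_indicator_iff_restrict hm]
  have : Fact (μ B < ⊤) := ⟨hB.lt_top⟩
  exact MemLp.of_bound hf.meas.aestronglyMeasurable M (Eventually.of_forall hM)

theorem ap_split {C₀ : ℝ≥0∞} (hC : C₀ ≠ ⊤) {μ : Measure (X d)} (hμ : Gr C₀ μ)
    {K : X d → X d → ℂ} {T : L2 μ →L[ℂ] L2 μ} (hT : IsAssociated μ K T) {f : X d → ℂ} (hf : Bd f)
    {z z' : X d} {ρ ρ' : ℝ} (hs : ball z ρ ⊆ ball z' ρ') : ∀ᵐ x ∂μ, x ∈ ball z ρ →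
      ap T ((ball z' ρ').indicator f) x - ap T ((ball z ρ).indicator f) x =
        ∫ y in ball z' ρ' \ ball z ρ, K x y * f y ∂μ := by
  have m1 := hf.memLp measurableSet_ball (hμ.ball_ne_top hC z ρ)
  have m2 := hf.memLp measurableSet_ball (hμ.ball_ne_top hC z' ρ')
  have hm : MeasurableSet (ball z' ρ' \ ball z ρ) := measurableSet_ball.diff measurableSet_ball
  have m3 := hf.memLp hm
    (ne_top_of_le_ne_top (hμ.ball_ne_top hC z' ρ') (measure_mono sdiff_subset))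
  have e : m2.toLp _ = m1.toLp _ + m3.toLp _ := by
    rw [← MemLp.toLp_add]
    apply MemLp.toLp_congr
    refine Eventually.of_forall fun x => ?_
    conv_lhs => rw [← union_sdiff_cancel hs, indicator_union_of_disjoint disjoint_sdiff_right]
    rfl
  have hsupp : tsupport ((ball z' ρ' \ ball z ρ).indicator f) ⊆ closedBall z' ρ' \ ball z ρ :=
    closure_minimal (support_indicator_subset.trans (sdiff_subset_sdiff_left ball_subset_closedBall))
      (isClosed_closedBall.sdiff isOpen_ball)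
  have hc : HasCompactSupport ((ball z' ρ' \ ball z ρ).indicator f) :=
    (isCompact_closedBall z' ρ').of_isClosed_subset (isClosed_tsupport _) (hsupp.trans sdiff_subset)
  rw [ap_eq T m1, ap_eq T m2, e, map_add]
  filter_upwards [hT _ m3 hc, Lp.coeFn_add (T (m1.toLp _)) (T (m3.toLp _))] with x h1 h2 hx
  rw [h2, Pi.add_apply, add_sub_cancel_left, h1 fun h => (hsupp h).2 hx, ← integral_indicator hm]
  congr 1
  ext y
  rw [indicator_mul_right]

theorem ker_le {C : ℝ≥0} {δ : ℝ} {K : X d → X d → ℂ} (hK : IsCZKernel C δ K) {x y : X d} {r : ℝ}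
    (hr : 0 < r) (h : r ≤ ‖x - y‖) : ‖K x y‖ ≤ C / r ^ d :=
  (hK.size x y (sub_ne_zero.1 (norm_pos_iff.1 (hr.trans_le h)))).trans
    (div_le_div_of_nonneg_left C.2 (pow_pos hr d) (pow_le_pow_left₀ hr.le h d))

theorem ker_integrableOn {C : ℝ≥0} {δ : ℝ} (hδ : 0 < δ) {K : X d → X d → ℂ}
    (hK : IsCZKernel C δ K) {μ : Measure (X d)} {f : X d → ℂ} (hf : Bd f) {B : Set (X d)}
    (hm : MeasurableSet B) (hB : μ B ≠ ⊤) {x : X d} {r : ℝ} (hr : 0 < r)
    (h : ∀ y ∈ B, r ≤ ‖x - y‖) : IntegrableOn (fun y => K x y * f y) B μ := by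
  have h1 : ContinuousOn (fun y => K x y) B :=
    (hK.continuousOn hδ).comp (f := fun y => (x, y)) (by fun_prop) fun y hy =>
      sub_ne_zero.1 (norm_pos_iff.1 (hr.trans_le (h y hy)))
  refine Integrable.bdd_mul (hf.integrableOn hB) (h1.aestronglyMeasurable hm) (c := C / r ^ d) ?_
  filter_upwards [ae_restrict_mem hm] with y hy using ker_le hK hr (h y hy)

/-- the local pieces -/
def Uf {μ : Measure (X d)} (T : L2 μ →L[ℂ] L2 μ) (f : X d → ℂ) (k : ℤ) (x : X d) : ℂ :=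
  ap T ((Bn k (idx t0 k x) 0).indicator f) x

theorem Uf_eq {μ : Measure (X d)} (T : L2 μ →L[ℂ] L2 μ) (f : X d → ℂ) {k : ℤ} {m : Ix d} {x : X d}
    (h : x ∈ cube t0 k m) : Uf T f k x = ap T ((Bn k m 0).indicator f) x := by
  have e : idx t0 k x = m := h
  rw [Uf, e]

theorem measurable_Uf {μ : Measure (X d)} (T : L2 μ →L[ℂ] L2 μ) (f : X d → ℂ) (k : ℤ) :
    Measurable (Uf T f k) := by
  have key : ∀ u : Ix d → X d → ℂ, (∀ m, Measurable (u m)) →
      Measurable fun x => u (idx t0 k x) x := by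
    intro u hu
    have h1 : Measurable fun p : Ix d × X d => u p.1 p.2 :=
      measurable_from_prod_countable_right fun m => hu m
    have h2 : Measurable fun x : X d => (idx t0 k x, x) :=
      (measurable_idx t0 k).prodMk measurable_id
    exact h1.comp h2
  exact key (fun m => ap T ((Bn k m 0).indicator f)) fun m => measurable_ap T _

theorem hBm (k : ℤ) (m : Ix d) (n : ℕ) : MeasurableSet (Bn k m n) := measurableSet_ball

/-- the good set -/
def Gf {μ : Measure (X d)} (T : L2 μ →L[ℂ] L2 μ) (K : X d → X d → ℂ) (f : X d → ℂ) : Set (X d) :=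
  {x | ∀ k₀ k, k₀ ≤ k → Uf T f k₀ x - Uf T f k x =
    ∫ y in Bn k₀ (idx t0 k₀ x) 0 \ Bn k (idx t0 k x) 0, K x y * f y ∂μ}

section
variable {C₀ : ℝ≥0∞} {μ : Measure (X d)} {K : X d → X d → ℂ} {T : L2 μ →L[ℂ] L2 μ} {f : X d → ℂ}
  {C : ℝ≥0} {δ : ℝ}

theorem Gf_full (hC : C₀ ≠ ⊤) (hμ : Gr C₀ μ) (hT : IsAssociated μ K T) (hf : Bd f) :
    ∀ᵐ x ∂μ, x ∈ Gf T K f := by
  have h1 : ∀ᵐ x ∂μ, ∀ p : (ℤ × Ix d) × ℤ × Ix d, Bn p.2.1 p.2.2 0 ⊆ Bn p.1.1 p.1.2 0 →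
      x ∈ Bn p.2.1 p.2.2 0 → ap T ((Bn p.1.1 p.1.2 0).indicator f) x -
        ap T ((Bn p.2.1 p.2.2 0).indicator f) x =
          ∫ y in Bn p.1.1 p.1.2 0 \ Bn p.2.1 p.2.2 0, K x y * f y ∂μ := by
    rw [ae_all_iff]
    intro p
    by_cases hs : Bn p.2.1 p.2.2 0 ⊆ Bn p.1.1 p.1.2 0
    · filter_upwards [ap_split hC hμ hT hf hs] with x hx _ using hx
    · exact Eventually.of_forall fun x h => absurd h hs
  filter_upwards [h1] with x hx k₀ k hk
  exact hx ((k₀, idx t0 k₀ x), k, idx t0 k x) (Bn_nest hk x) (cube_subset_Bn _ _ 0 rfl)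

theorem Gf_step (hK : IsCZKernel C δ K) (hf : Bd f) {x : X d} (hx : x ∈ Gf T K f) (j : ℤ) :
    ‖Uf T f j x - Uf T f (j + 1) x‖ₑ ≤
      C * (μ.withDensity fun x => ‖f x‖ₑ) (Bn j (idx t0 j x) 0) / lam d j := by
  rw [hx j (j + 1) (by omega)]
  refine (enorm_integral_le_lintegral_enorm _).trans ?_
  have hl := ell_pos j
  calc ∫⁻ y in Bn j (idx t0 j x) 0 \ Bn (j + 1) (idx t0 (j + 1) x) 0, ‖K x y * f y‖ₑ ∂μ
      ≤ ∫⁻ y in Bn j (idx t0 j x) 0 \ Bn (j + 1) (idx t0 (j + 1) x) 0,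
        C / lam d j * ‖f y‖ₑ ∂μ := by
        refine setLIntegral_mono' ((hBm _ _ _).diff (hBm _ _ _)) fun y hy => ?_
        rw [enorm_mul]
        refine mul_le_mul_left ?_ _
        have h1 := far hy.2
        rw [← rad_succ] at h1
        have h2 : ell j ≤ ‖x - y‖ := by
          refine le_trans ?_ h1.le
          unfold rad
          nlinarith [mul_nonneg (Nat.cast_nonneg (α := ℝ) d) hl.le]
        rw [← ofReal_norm, lam, ← ENNReal.ofReal_coe_nnreal,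
          ← ENNReal.ofReal_div_of_pos (pow_pos hl d)]
        exact ENNReal.ofReal_le_ofReal (ker_le hK hl h2)
    _ ≤ _ := by
        rw [lintegral_const_mul _ hf.meas.enorm, withDensity_apply _ (hBm _ _ _), div_eq_mul_inv,
          div_eq_mul_inv, mul_right_comm]
        exact mul_le_mul_left (mul_le_mul_right (lintegral_mono_set sdiff_subset) _) _

theorem Gf_osc (hC : C₀ ≠ ⊤) (hμ : Gr C₀ μ) (hδ : 0 < δ) (hK : IsCZKernel C δ K) (hf : Bd f)
    {x x' : X d} (hx : x ∈ Gf T K f) (hx' : x' ∈ Gf T K f) {k₀ k : ℤ} (hk : k₀ ≤ k)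
    (e : idx t0 k x = idx t0 k x') (L : ℝ≥0∞)
    (hL : ∀ ρ, 0 < ρ → (μ.withDensity fun x => ‖f x‖ₑ) (ball x' ρ ∩ Bn k₀ (idx t0 k₀ x) 0) ≤
      L * ENNReal.ofReal (ρ ^ d)) :
    ‖(Uf T f k₀ x - Uf T f k x) - (Uf T f k₀ x' - Uf T f k x')‖ₑ ≤
      C * (2 ^ d * (1 - ENNReal.ofReal (2 ^ (-δ)))⁻¹) * L := by
  have e0 : idx t0 k₀ x = idx t0 k₀ x' := idx_le t0 hk e
  have hr := rad_pos (d := d) k
  have hm := (hBm k₀ (idx t0 k₀ x) 0).diff (hBm k (idx t0 k x) 0)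
  have hfin : μ (Bn k₀ (idx t0 k₀ x) 0 \ Bn k (idx t0 k x) 0) ≠ ⊤ :=
    ne_top_of_le_ne_top (hμ.ball_ne_top hC _ _) (measure_mono sdiff_subset)
  have f1 : ∀ y ∈ Bn k₀ (idx t0 k₀ x) 0 \ Bn k (idx t0 k x) 0, 2 * rad d k < ‖x' - y‖ := by
    intro y hy
    have := hy.2
    rw [e] at this
    exact far this
  rw [hx k₀ k hk, hx' k₀ k hk, ← e, ← e0, ← integral_sub
    (ker_integrableOn hδ hK hf hm hfin hr fun y hy => by linarith [far hy.2])
    (ker_integrableOn hδ hK hf hm hfin hr fun y hy => by linarith [f1 y hy])]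
  refine (enorm_integral_le_lintegral_enorm _).trans ?_
  have hxx : ‖x' - x‖ < rad d k := by
    rw [← dist_eq_norm]
    exact dist_lt_rad t0 k e.symm
  have hmeas : Measurable fun y : X d =>
      ENNReal.ofReal (rad d k ^ δ / ‖x' - y‖ ^ ((d : ℝ) + δ)) := by fun_prop
  calc ∫⁻ y in Bn k₀ (idx t0 k₀ x) 0 \ Bn k (idx t0 k x) 0, ‖K x y * f y - K x' y * f y‖ₑ ∂μ
      ≤ ∫⁻ y in Bn k₀ (idx t0 k₀ x) 0 \ Bn k (idx t0 k x) 0,
        C * (‖f y‖ₑ * ENNReal.ofReal (rad d k ^ δ / ‖x' - y‖ ^ ((d : ℝ) + δ))) ∂μ := by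
        refine setLIntegral_mono' hm fun y hy => ?_
        rw [← sub_mul, enorm_mul, mul_comm ‖f y‖ₑ, ← mul_assoc]
        refine mul_le_mul_left ?_ _
        have h1 := f1 y hy
        have h2 := hK.smooth x' x y (sub_ne_zero.1 (norm_pos_iff.1 (by linarith))) (by linarith)
        rw [← ofReal_norm, ← ENNReal.ofReal_coe_nnreal, ← ENNReal.ofReal_mul C.coe_nonneg]
        apply ENNReal.ofReal_le_ofReal
        rw [norm_sub_rev, ← mul_div_assoc]
        refine (le_add_of_nonneg_right (norm_nonneg _)).trans (h2.trans ?_)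
        gcongr
    _ ≤ C * ∫⁻ y in Bn k₀ (idx t0 k₀ x) 0 \ ball x' (rad d k),
        ENNReal.ofReal (rad d k ^ δ / ‖x' - y‖ ^ ((d : ℝ) + δ))
          ∂(μ.withDensity fun x => ‖f x‖ₑ) := by
        rw [lintegral_const_mul' _ _ ENNReal.coe_ne_top,
          setLIntegral_withDensity_eq_setLIntegral_mul _ hf.meas.enorm hmeas
            ((hBm _ _ _).diff measurableSet_ball)]
        refine mul_le_mul_right (lintegral_mono_set ?_) _
        intro y hy
        refine ⟨hy.1, ?_⟩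
        rw [mem_ball, dist_comm, dist_eq_norm]
        linarith [f1 y hy]
    _ ≤ _ := by
        rw [mul_assoc]
        exact mul_le_mul_right (annuli hδ _ _ x' hr L hL (hBm _ _ _)) _

theorem Uf_rem (hC : C₀ ≠ ⊤) (hμ : Gr C₀ μ) (hf : Bd f) {γ : X d → ℝ≥0∞} {Mγ : ℝ≥0}
    (hMγ : ∀ x, γ x ≤ Mγ) : ∃ D : ℝ≥0∞, D ≠ ⊤ ∧ ∀ k m,
      ∫⁻ x in cube t0 k m, ‖Uf T f k x‖ₑ * γ x ∂μ ≤ D * μ (Bn k m 0) := by
  obtain ⟨M, hM⟩ := hf.bd
  refine ⟨Mγ * (1 + ‖T‖ₑ ^ 2 * M ^ 2), by finiteness, fun k m => ?_⟩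
  calc ∫⁻ x in cube t0 k m, ‖Uf T f k x‖ₑ * γ x ∂μ
      ≤ ∫⁻ x in cube t0 k m, Mγ * (1 + ‖ap T ((Bn k m 0).indicator f) x‖ₑ ^ 2) ∂μ := by
        refine setLIntegral_mono' (measurableSet_cube _ _ _) fun x hx => ?_
        rw [Uf_eq T f hx, mul_comm]
        refine mul_le_mul' (hMγ x) ?_
        rcases le_total ‖ap T ((Bn k m 0).indicator f) x‖ₑ 1 with h | h
        · exact h.trans le_self_add
        · exact (le_self_pow₀ h two_ne_zero).trans le_add_self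
    _ ≤ _ := by
        rw [lintegral_const_mul' _ _ ENNReal.coe_ne_top, lintegral_add_left measurable_const,
          setLIntegral_const, mul_assoc, add_mul]
        refine mul_le_mul_right (add_le_add (mul_le_mul_right
          (measure_mono (cube_subset_Bn k m 0)) _) ?_) _
        refine (setLIntegral_le_lintegral _ _).trans ((ap_L2 T
          (hf.memLp (hBm k m 0) (hμ.ball_ne_top hC _ _))).trans ?_)
        rw [mul_assoc, ← setLIntegral_const, ← lintegral_indicator (hBm k m 0)]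
        refine mul_le_mul_right (lintegral_mono fun x => ?_) _
        by_cases hx : x ∈ Bn k m 0
        · rw [indicator_of_mem hx, indicator_of_mem hx]
          refine pow_le_pow_left' ?_ 2
          rw [← ofReal_norm, ← ENNReal.ofReal_coe_nnreal]
          exact ENNReal.ofReal_le_ofReal (hM x)
        · simp [hx]

theorem Uf_top {R : ℝ} (hfR : ∀ x, x ∉ ball 0 R → f x = 0) :
    ∃ k, ∀ x ∈ ball (0 : X d) R, Uf T f k x = ap T f x := by
  obtain ⟨n, hn⟩ := pow_unbounded_of_one_lt R (by norm_num : (1 : ℝ) < 2)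
  refine ⟨-n, fun x hx => ?_⟩
  have : (Bn (-n) (idx t0 (-n) x) 0).indicator f = f := by
    rw [indicator_eq_self]
    intro y hy
    by_contra hy'
    have h1 := far hy'
    have h2 : y ∈ ball (0 : X d) R := by
      by_contra h
      exact hy (hfR y h)
    rw [mem_ball_zero_iff] at hx h2
    have h3 : (2 : ℝ) ^ n ≤ rad d (-n) := by
      unfold rad ell
      rw [neg_neg, zpow_natCast]
      nlinarith [mul_nonneg (Nat.cast_nonneg (α := ℝ) d) (pow_pos (two_pos (α := ℝ)) n).le]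
    linarith [norm_sub_le x y]
  rw [Uf, this]

end

theorem opcore (d : ℕ) (C₀ : ℝ≥0∞) (hC : C₀ ≠ ⊤) (C : ℝ≥0) {δ : ℝ} (hδ : 0 < δ) (Aw : ℝ≥0∞)
    (hAw : Aw ≠ ⊤) : ∃ c : ℝ≥0∞, c ≠ ⊤ ∧ ∀ (μ : Measure (X d)) (K : X d → X d → ℂ)
      (T : L2 μ →L[ℂ] L2 μ), Gr C₀ μ → IsCZKernel C δ K → IsAssociated μ K T →
      ∀ (f : X d → ℂ) (γ F : X d → ℝ≥0∞) (R : ℝ) (ν : Measure (X d)) (q : ℕ), Bd f →
      Measurable γ → Measurable F → (∃ M : ℝ≥0, ∀ x, γ x ≤ M) →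
      (∀ x, x ∉ ball 0 R → f x = 0) → (∀ x, x ∉ ball 0 R → γ x = 0) → q ≠ 0 → ν ≪ μ →
      (∀ B, MeasurableSet B → ∀ t M, ν B ≤ t ^ q * M → μ B ≤ M → ∫⁻ x in B, ‖f x‖ₑ ∂μ ≤ t * M) →
      (∀ z ρ t, t ^ q * μ {x | t < ‖ap T ((ball z ρ).indicator f) x‖ₑ} ≤ Aw * ν (ball z ρ)) →
      (∀ k m, ν (Bn k m 0) ≠ 0 → ∃ t : ℝ≥0∞, t ≠ 0 ∧ t ≠ ⊤ ∧
        ν (Bn k m 0) ≤ t ^ q * μ (Bn k m 0) ∧ ∀ z ∈ Bn k m 0,
          t * μ (Bn k m 0) * ∫⁻ x in Bn k m 0, γ x ∂μ ≤ μ (Bn k m 1) ^ 2 * F z) →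
      (∀ k m n, ∀ z ∈ Bn k m n, (∫⁻ x in Bn k m 0, ‖f x‖ₑ ∂μ) * ∫⁻ x in Bn k m 0, γ x ∂μ ≤
        μ (Bn k m 0) ^ (1 / 2 : ℝ) * μ (Bn k m (n + 1)) ^ (3 / 2 : ℝ) * F z) →
      ∫⁻ x, ‖ap T f x‖ₑ * γ x ∂μ ≤ c * ∫⁻ x, F x ∂μ := by
  have hδ' : (1 - ENNReal.ofReal (2 ^ (-δ)))⁻¹ ≠ ⊤ := by
    rw [ENNReal.inv_ne_top]
    refine (tsub_pos_of_lt ?_).ne'
    rw [ENNReal.ofReal_lt_one]
    exact Real.rpow_lt_one_of_one_lt_of_neg (by norm_num) (by linarith)
  obtain ⟨c, hc, hcore⟩ := core d C₀ C (C * (2 ^ d * (1 - ENNReal.ofReal (2 ^ (-δ)))⁻¹)) Aw hC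
    ENNReal.coe_ne_top (by finiteness) hAw
  refine ⟨c, hc, ?_⟩
  rintro μ K T hμ hK hT f γ F R ν q hf hγ hF ⟨Mγ, hMγ⟩ hfR hγR hq hν hol weak H1 H2
  have hL : Loc μ (μ.withDensity fun x => ‖f x‖ₑ) ν (Uf T f) (Gf T K f) C
      (C * (2 ^ d * (1 - ENNReal.ofReal (2 ^ (-δ)))⁻¹)) Aw q := by
    refine ⟨measurable_Uf T f, hν, ?_, Gf_full hC hμ hT hf, fun x hx j => Gf_step hK hf hx j,
      fun x hx x' hx' k₀ k hk e L hL => Gf_osc hC hμ hδ hK hf hx hx' hk e L hL, ?_⟩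
    · intro B hB t M h1 h2
      rw [withDensity_apply _ hB]
      exact hol B hB t M h1 h2
    · intro k m t
      refine le_trans (mul_le_mul_right (measure_mono ?_) _) (weak _ _ t)
      rintro x ⟨h1, h2⟩
      rw [mem_ofPred_eq, Uf_eq T f h1] at h2
      exact h2
  obtain ⟨k, hk⟩ := Uf_top (T := T) hfR
  have h1 := hcore μ _ ν _ _ q hq hμ hL γ F hγ hF (Uf_rem hC hμ hf hMγ) H1 (by
    intro k m n z hz
    rw [withDensity_apply _ (hBm k m 0)]
    exact H2 k m n z hz) k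
  refine le_trans (le_of_eq ?_) h1
  refine lintegral_congr fun x => ?_
  by_cases hx : x ∈ ball (0 : X d) R
  · rw [hk x hx]
  · simp [hγR x hx]

end Pool.Agent.H287Z.A2
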