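import Mathlib
import Pool.Agent.H287Z.A2.Op

set_option autoImplicit false
set_option linter.unusedSectionVars false
set_option linter.unusedSimpArgs false

open MeasureTheory Filter Topology Set Metric
open scoped NNReal ENNReal ComplexConjugate InnerProductSpace

noncomputable section

namespace Pool.Agent.H287Z.A2

variable {d : ℕ} {C₀ : ℝ≥0∞} {μ : Measure (X d)} {K : X d → X d → ℂ} {T : L2 μ →L[ℂ] L2 μ}
  {C : ℝ≥0} {δ : ℝ}

theorem IsCZKernel.adj (hK : IsCZKernel C δ K) : IsCZKernel C δ fun x y => conj (K y x) := by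
  refine ⟨fun x y h => ?_, fun x x' y h h' => ?_⟩
  · rw [Complex.norm_conj, norm_sub_rev]
    exact hK.size y x h.symm
  · rw [← map_sub, ← map_sub, Complex.norm_conj, Complex.norm_conj, add_comm]
    exact hK.smooth x x' y h h'

theorem IsAssociated.adj (hC : C₀ ≠ ⊤) (hμ : Gr C₀ μ) (hδ : 0 < δ) (hK : IsCZKernel C δ K)
    (hT : IsAssociated μ K T) :
    IsAssociated μ (fun x y => conj (K y x)) (ContinuousLinearMap.adjoint T) := by
  have := hμ.locFin hC
  intro g hg hc
  set S := tsupport g with hS
  have hSm : MeasurableSet S := (isClosed_tsupport g).measurableSet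
  have hgS : ∀ x, x ∉ S → g x = 0 := fun x hx => image_eq_zero_of_notMem_tsupport hx
  have hgi : IntegrableOn g S μ := by
    have : IsFiniteMeasure (μ.restrict S) := isFiniteMeasure_restrict.2 hc.isCompact.measure_lt_top.ne
    exact (hg.restrict S).integrable (by norm_num)
  rw [ae_iff]
  refine measure_null_of_locally_null _ fun x₀ hx₀ => ?_
  rw [mem_ofPred_eq, Classical.not_imp] at hx₀
  obtain ⟨ε, hε, hε'⟩ := Metric.isOpen_iff.1 (isClosed_tsupport g).isOpen_compl x₀ hx₀.1
  set r := ε / 2 with hr
  have hr0 : 0 < r := half_pos hε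
  have hfar : ∀ x ∈ S, ∀ y ∈ ball x₀ r, r ≤ ‖x - y‖ := by
    intro x hx y hy
    have h1 : ε ≤ dist x x₀ := not_lt.1 fun h => hε' h hx
    rw [mem_ball] at hy
    rw [← dist_eq_norm]
    linarith [dist_triangle x y x₀]
  have hfin : μ (ball x₀ r) ≠ ⊤ := hμ.ball_ne_top hC _ _
  have hF : ∀ A, MeasurableSet A → A ⊆ ball x₀ r → Integrable
      (fun p : X d × X d => conj (K p.1 p.2) * g p.1) ((μ.restrict S).prod (μ.restrict A)) := by
    intro A hA hA'
    have : IsFiniteMeasure (μ.restrict A) :=
      isFiniteMeasure_restrict.2 (ne_top_of_le_ne_top hfin (measure_mono hA'))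
    refine Integrable.bdd_mul (Integrable.comp_fst hgi _) ?_ (c := C / r ^ d) ?_
    · rw [Measure.prod_restrict]
      refine ContinuousOn.aestronglyMeasurable ?_ (hSm.prod hA)
      refine Complex.continuous_conj.comp_continuousOn ((hK.continuousOn hδ).mono fun p hp => ?_)
      exact sub_ne_zero.1 (norm_pos_iff.1 (hr0.trans_le (hfar _ hp.1 _ (hA' hp.2))))
    · rw [Measure.prod_restrict]
      filter_upwards [ae_restrict_mem (hSm.prod hA)] with p hp
      rw [Complex.norm_conj]
      exact ker_le hK hr0 (hfar _ hp.1 _ (hA' hp.2))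
  have hH : ∀ y, ∫ x, conj (K x y) * g x ∂μ = ∫ x in S, conj (K x y) * g x ∂μ := fun y =>
    (setIntegral_eq_integral_of_forall_compl_eq_zero fun x hx => by rw [hgS x hx, mul_zero]).symm
  have key : (ContinuousLinearMap.adjoint T (hg.toLp g) : X d → ℂ) =ᵐ[μ.restrict (ball x₀ r)]
      fun y => ∫ x in S, conj (K x y) * g x ∂μ := by
    have : IsFiniteMeasure (μ.restrict (ball x₀ r)) := isFiniteMeasure_restrict.2 hfin
    refine Integrable.ae_eq_of_forall_setIntegral_eq _ _
      (((Lp.memLp _).restrict _).integrable (by norm_num))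
      (hF _ measurableSet_ball Subset.rfl).integral_prod_right fun s hs _ => ?_
    rw [Measure.restrict_restrict hs]
    set A := s ∩ ball x₀ r with hA
    have hAm : MeasurableSet A := hs.inter measurableSet_ball
    have hA' : μ A ≠ ⊤ := ne_top_of_le_ne_top hfin (measure_mono inter_subset_right)
    have hsupp : tsupport (A.indicator fun _ => (1 : ℂ)) ⊆ closedBall x₀ r :=
      closure_minimal (support_indicator_subset.trans
        (inter_subset_right.trans ball_subset_closedBall)) isClosed_closedBall
    have h1 := hT _ (memLp_indicator_const 2 hAm (1 : ℂ) (Or.inr hA'))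
      ((isCompact_closedBall x₀ r).of_isClosed_subset (isClosed_tsupport _) hsupp)
    rw [← integral_integral_swap (hF A hAm inter_subset_right),
      ← L2.inner_indicatorConstLp_one hAm hA', ContinuousLinearMap.adjoint_inner_right,
      L2.inner_def, ← setIntegral_eq_integral_of_ae_compl_eq_zero (s := S)]
    · refine setIntegral_congr_ae hSm ?_
      filter_upwards [h1, hg.coeFn_toLp] with x h2 h3 hx
      have h4 : x ∉ tsupport (A.indicator fun _ => (1 : ℂ)) := fun h =>
        hε' (closedBall_subset_ball (by linarith) (hsupp h)) hx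
      rw [RCLike.inner_apply, h3, integral_mul_const, integral_conj, mul_comm]
      congr 2
      refine (h2 h4).trans ?_
      rw [← integral_indicator hAm]
      congr 1
      ext y
      by_cases hy : y ∈ A <;> simp [hy]
    · filter_upwards [hg.coeFn_toLp] with x h3 hx
      rw [h3, hgS x hx, inner_zero_right]
  rw [EventuallyEq, ae_restrict_iff' measurableSet_ball, ae_iff] at key
  refine ⟨_, ?_, key⟩
  refine mem_nhdsWithin.2 ⟨ball x₀ r, isOpen_ball, mem_ball_self hr0, fun y hy h => ?_⟩
  exact hy.2 fun _ => (h hy.1).trans (hH y).symm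

theorem inner_ap {f g : X d → ℂ} (hf : MemLp f 2 μ) (hg : MemLp g 2 μ) :
    ∫ x, ap T f x * conj (g x) ∂μ = ∫ x, f x * conj (ap (ContinuousLinearMap.adjoint T) g x) ∂μ := by
  have h := ContinuousLinearMap.adjoint_inner_left T (hf.toLp f) (hg.toLp g)
  rw [L2.inner_def, L2.inner_def] at h
  rw [ap_eq _ hf, ap_eq _ hg]
  refine Eq.trans (integral_congr_ae ?_) (h.symm.trans (integral_congr_ae ?_))
  · filter_upwards [hg.coeFn_toLp] with x hx
    rw [RCLike.inner_apply, hx]
  · filter_upwards [hf.coeFn_toLp] with x hx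
    rw [RCLike.inner_apply, hx]

end Pool.Agent.H287Z.A2
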