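import Mathlib
import Pool.Agent.H287Z.A2.Adj

set_option autoImplicit false
set_option linter.unusedSectionVars false
set_option linter.unusedSimpArgs false

open MeasureTheory Filter Topology Set Metric
open scoped NNReal ENNReal ComplexConjugate InnerProductSpace

noncomputable section

namespace Pool.Agent.H287Z.A2

variable {d : ℕ}

theorem rpow_three_half (m : ℝ≥0∞) : m ^ (3 / 2 : ℝ) = m * m ^ (1 / 2 : ℝ) := by
  rw [show (3 / 2 : ℝ) = 1 + 1 / 2 by norm_num,
    ENNReal.rpow_add_of_nonneg _ _ (by norm_num) (by norm_num), ENNReal.rpow_one]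

theorem half_mul_half (m : ℝ≥0∞) : m ^ (1 / 2 : ℝ) * m ^ (1 / 2 : ℝ) = m := by
  rw [← ENNReal.rpow_add_of_nonneg _ _ (by norm_num) (by norm_num)]
  norm_num

theorem young (x m s : ℝ≥0∞) (h0 : s ≠ 0) (ht : s ≠ ⊤) :
    x * m ^ (1 / 2 : ℝ) ≤ (s ^ (1 / 2 : ℝ))⁻¹ * x ^ (3 / 2 : ℝ) + s * m ^ (3 / 2 : ℝ) := by
  rcases le_total x (s * m) with h | h
  · refine le_add_left ?_
    rw [rpow_three_half, ← mul_assoc]
    exact mul_le_mul_left h _
  · refine le_add_right ?_
    rw [rpow_three_half, mul_left_comm]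
    refine mul_le_mul_right ?_ _
    have h1 := ENNReal.rpow_le_rpow h (z := 1 / 2) (by norm_num)
    rw [ENNReal.mul_rpow_of_nonneg _ _ (by norm_num)] at h1
    have h2 : s ^ (1 / 2 : ℝ) ≠ 0 := by simp [h0]
    have h3 : s ^ (1 / 2 : ℝ) ≠ ⊤ := ENNReal.rpow_ne_top_of_nonneg (by norm_num) ht
    calc m ^ (1 / 2 : ℝ) = (s ^ (1 / 2 : ℝ))⁻¹ * (s ^ (1 / 2 : ℝ) * m ^ (1 / 2 : ℝ)) := by
          rw [← mul_assoc, ENNReal.inv_mul_cancel h2 h3, one_mul]
      _ ≤ _ := mul_le_mul_right h1 _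

theorem cheb {μ : Measure (X d)} {g : X d → ℂ} (hg : Measurable g) (t : ℝ≥0∞) :
    t ^ 2 * μ {x | t < ‖g x‖ₑ} ≤ ∫⁻ x, ‖g x‖ₑ ^ 2 ∂μ := by
  refine le_trans (mul_le_mul_right (measure_mono ?_) _)
    (mul_meas_ge_le_lintegral (hg.enorm.pow_const 2) (t ^ 2))
  intro x hx
  have h : t < ‖g x‖ₑ := hx
  exact pow_le_pow_left' h.le 2

theorem Bd.memLp' {f : X d → ℂ} (hf : Bd f) {C₀ : ℝ≥0∞} (hC : C₀ ≠ ⊤) {μ : Measure (X d)}
    (hμ : Gr C₀ μ) {R : ℝ} (hR : ∀ x, x ∉ ball 0 R → f x = 0) : MemLp f 2 μ := by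
  have := hf.memLp measurableSet_ball (hμ.ball_ne_top hC 0 R)
  rwa [indicator_eq_self.2 fun x hx => by_contra fun h => hx (hR x h)] at this

theorem sign_pair {μ : Measure (X d)} {u : X d → ℂ} (hu : MemLp u 2 μ) {G : Set (X d)}
    (hG : MeasurableSet G) (hfin : μ G ≠ ⊤) :
    ∫⁻ x in G, ‖u x‖ₑ ∂μ = ‖∫ x, u x * conj (G.indicator (fun x => u x / ‖u x‖) x) ∂μ‖ₑ := by
  have : IsFiniteMeasure (μ.restrict G) := isFiniteMeasure_restrict.2 hfin
  have hi : Integrable u (μ.restrict G) := (hu.restrict G).integrable (by norm_num)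
  have e : (fun x => u x * conj (G.indicator (fun x => u x / ‖u x‖) x)) =
      G.indicator fun x => ((‖u x‖ : ℝ) : ℂ) := by
    ext x
    by_cases hx : x ∈ G
    · rw [indicator_of_mem hx, indicator_of_mem hx, map_div₀, Complex.conj_ofReal, ← mul_div_assoc,
        Complex.mul_conj', sq]
      rcases eq_or_ne (u x) 0 with h | h
      · simp [h]
      · rw [mul_div_assoc, div_self (by simpa using h), mul_one]
    · simp [hx]
  rw [e, integral_indicator hG, integral_complex_ofReal, ← ofReal_integral_norm_eq_lintegral_enorm hi,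
    ← ofReal_norm, Complex.norm_real, Real.norm_of_nonneg (integral_nonneg fun x => norm_nonneg _)]

theorem trunc_max {μ φ : Measure (X d)} [SFinite μ] (l : ℝ≥0∞) :
    ∫⁻ x, min l (Mx μ φ x) ^ (3 / 2 : ℝ) ∂μ ≤ 3 * (φ univ * l ^ (1 / 2 : ℝ)) := by
  have h := interp μ (φ univ • Measure.dirac ()) (G := fun x => min l (Mx μ φ x))
    (measurable_const.min (measurable_Mx μ φ)) (V := fun _ => l) measurable_const (by
      intro t
      by_cases ht : t < l
      · simp only [ht, ofPred_true, Measure.smul_apply, measure_univ, smul_eq_mul, mul_one,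
          lt_min_iff, true_and]
        exact weak_Mx μ φ t
      · simp [ht])
  simpa [mul_comm] using h

theorem weak11 (d : ℕ) (C₀ : ℝ≥0∞) (hC : C₀ ≠ ⊤) (C : ℝ≥0) {δ : ℝ} (hδ : 0 < δ) (A : ℝ≥0) :
    ∃ Aw : ℝ≥0∞, Aw ≠ ⊤ ∧ ∀ (μ : Measure (X d)) (K : X d → X d → ℂ) (T : L2 μ →L[ℂ] L2 μ),
      Gr C₀ μ → IsCZKernel C δ K → IsAssociated μ K T → ‖T‖ ≤ A →
      ∀ (f : X d → ℂ) (R : ℝ), Bd f → (∀ x, x ∉ ball 0 R → f x = 0) → ∀ t : ℝ≥0∞,
        t * μ {x | t < ‖ap T f x‖ₑ} ≤ Aw * ∫⁻ x, ‖f x‖ₑ ∂μ := by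
  obtain ⟨c, hc, h⟩ := opcore d C₀ hC C hδ (A ^ 2) (by finiteness)
  refine ⟨54 * c, by finiteness, ?_⟩
  intro μ K T hμ hK hT hA f R hf hR t
  have := hμ.locFin hC
  have hfm := hf.memLp' hC hμ hR
  set φ := μ.withDensity fun x => ‖f x‖ₑ with hφ
  have hφu : ∫⁻ x, ‖f x‖ₑ ∂μ = φ univ := by
    rw [hφ, withDensity_apply _ MeasurableSet.univ, Measure.restrict_univ]
  have hφμ : φ ≪ μ := withDensity_absolutelyContinuous _ _
  have ha : φ univ ≠ ⊤ := by
    rw [← hφu, ← lintegral_add_compl _ (measurableSet_ball (x := 0) (ε := R)),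
      setLIntegral_congr_fun (g := fun _ => 0) measurableSet_ball.compl
        fun x hx => by simp [hR x hx], lintegral_zero, add_zero]
    exact (hf.integrableOn (hμ.ball_ne_top hC 0 R)).2.ne
  rcases eq_or_ne (φ univ) 0 with h0 | h0
  · have h1 : ∫⁻ x, ‖f x‖ₑ ^ 2 ∂μ = 0 := by
      rw [← hφu, lintegral_eq_zero_iff hf.meas.enorm] at h0
      rw [lintegral_eq_zero_iff (hf.meas.enorm.pow_const 2)]
      filter_upwards [h0] with x hx
      simp [hx]
    have h2 := (cheb (measurable_ap T f) t).trans (ap_L2 T hfm)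
    rw [h1, mul_zero, nonpos_iff_eq_zero, mul_eq_zero, pow_eq_zero_iff two_ne_zero] at h2
    rw [mul_eq_zero.2 h2]
    exact zero_le
  rw [hφu]
  have hU : {x | t < ‖ap T f x‖ₑ} = ⋃ N : ℕ, {x | t < ‖ap T f x‖ₑ} ∩ ball 0 N := by
    rw [← inter_iUnion, iUnion_ball_nat, inter_univ]
  rw [hU, Monotone.measure_iUnion fun a b hab =>
    inter_subset_inter_right _ (ball_subset_ball (Nat.cast_le.2 hab)), ENNReal.mul_iSup]
  refine iSup_le fun N => ?_
  set G := {x | t < ‖ap T f x‖ₑ} ∩ ball 0 N with hG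
  have hGm : MeasurableSet G :=
    (measurableSet_lt measurable_const (measurable_ap T f).enorm).inter measurableSet_ball
  have hGt : μ G ≠ ⊤ := ne_top_of_le_ne_top (hμ.ball_ne_top hC 0 N) (measure_mono inter_subset_right)
  rcases eq_or_ne (μ G) 0 with g0 | g0
  · rw [g0, mul_zero]
    exact zero_le
  set l := 2 * φ univ / μ G with hl
  have l0 : l ≠ 0 := (ENNReal.div_pos (mul_ne_zero two_ne_zero h0) hGt).ne'
  have lt : l ≠ ⊤ := ENNReal.div_ne_top (by finiteness) g0
  have hlG : l * μ G = 2 * φ univ := ENNReal.div_mul_cancel g0 hGt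
  set G' := G \ {x | l < Mx μ φ x} with hG'
  have hG'm : MeasurableSet G' := hGm.diff (isOpen_Mx μ φ l).measurableSet
  have hG't : μ G' ≠ ⊤ := ne_top_of_le_ne_top hGt (measure_mono sdiff_subset)
  have hGG : μ G ≤ 2 * μ G' := by
    have h1 : μ G ≤ μ G' + μ {x | l < Mx μ φ x} :=
      (measure_mono (by rw [hG', sdiff_union_self]; exact subset_union_left)).trans
        (measure_union_le _ _)
    have h2 : l * μ G ≤ l * μ G' + φ univ := by
      refine (mul_le_mul_right h1 l).trans ?_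
      rw [mul_add]
      exact add_le_add_right (weak_Mx μ φ l) _
    rw [hlG, two_mul] at h2
    have h3 := ENNReal.le_of_add_le_add_right ha h2
    rw [← ENNReal.mul_le_mul_iff_right l0 lt, hlG, mul_left_comm]
    exact mul_le_mul_right h3 _
  set g := G'.indicator fun x => ap T f x / ‖ap T f x‖ with hg
  have hg1 : ∀ x, ‖g x‖ₑ ≤ G'.indicator 1 x := by
    intro x
    by_cases hx : x ∈ G'
    · rw [hg, indicator_of_mem hx, indicator_of_mem hx, ← ofReal_norm, Pi.one_apply,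
        ENNReal.ofReal_le_one, norm_div, Complex.norm_real, norm_norm]
      exact div_self_le_one _
    · simp [hg, hx]
  have hgB : Bd g := by
    refine ⟨((measurable_ap T f).div
      (Complex.measurable_ofReal.comp (measurable_ap T f).norm)).indicator hG'm, 1, fun x => ?_⟩
    have h1 := (hg1 x).trans (indicator_le_self _ _ x)
    rwa [← ofReal_norm, Pi.one_apply, ENNReal.ofReal_le_one] at h1
  have hgR : ∀ x, x ∉ ball 0 (max R N) → g x = 0 := fun x hx =>
    indicator_of_notMem (fun h => hx (ball_subset_ball (le_max_right _ _) h.1.2)) _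
  have hgm := hgB.memLp' hC hμ hgR
  set ν := μ.restrict G' with hν
  have hνμ : ν ≪ μ := Measure.absolutelyContinuous_of_le Measure.restrict_le_self
  have hνle : ∀ B, ν B ≤ μ B := fun B => Measure.restrict_le_self B
  have hgν : ∀ B, MeasurableSet B → ∫⁻ x in B, ‖g x‖ₑ ∂μ ≤ ν B := by
    intro B hB
    refine (lintegral_mono hg1).trans ?_
    rw [lintegral_indicator_one hG'm, Measure.restrict_apply hG'm, hν, Measure.restrict_apply hB,
      inter_comm]
  have hB1 : ∀ k m n, μ (ball (ctr t0 k m) (5 * (5 ^ n * (3 * rad d k)))) ≠ ⊤ :=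
    fun k m n => hμ.ball_ne_top hC _ _
  have key : ∀ k m n, ∀ z ∈ Bn k m n, ν (Bn k m 0) ≠ 0 →
      ∫⁻ x in Bn k m 0, ‖f x‖ₑ ∂μ ≤ min l (Mx μ φ z) * μ (Bn k m (n + 1)) ∧
      ν (Bn k m 0) ^ (1 / 2 : ℝ) ≤ Mx μ ν z ^ (1 / 2 : ℝ) * μ (Bn k m (n + 1)) ^ (1 / 2 : ℝ) := by
    intro k m n z hz h1
    have hs := Bn_mono k m n.zero_le
    constructor
    · rw [← withDensity_apply _ (hBm k m 0), ← hφ, Bn_succ]
      refine (measure_mono hs).trans ?_
      rcases le_total l (Mx μ φ z) with h2 | h2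
      · rw [min_eq_left h2]
        rw [hν, Measure.restrict_apply (hBm k m 0)] at h1
        obtain ⟨y, hy1, hy2⟩ := nonempty_of_measure_ne_zero h1
        exact (le_Mx hφμ (hs hy1) (hB1 k m n)).trans (mul_le_mul_left (not_lt.1 hy2.2) _)
      · rw [min_eq_right h2]
        exact le_Mx hφμ hz (hB1 k m n)
    · rw [← ENNReal.mul_rpow_of_nonneg _ _ (by norm_num), Bn_succ]
      exact ENNReal.rpow_le_rpow ((measure_mono hs).trans (le_Mx hνμ hz (hB1 k m n))) (by norm_num)
  obtain ⟨M, hM⟩ := hf.bd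
  have main := h μ _ _ hμ hK.adj (hT.adj hC hμ hδ hK) g (fun x => ‖f x‖ₑ)
    (fun x => min l (Mx μ φ x) * Mx μ ν x ^ (1 / 2 : ℝ)) (max R N) ν 2 hgB hf.meas.enorm
    ((measurable_const.min (measurable_Mx μ φ)).mul ((measurable_Mx μ ν).pow_const _))
    ⟨M, fun x => by
      rw [← ofReal_norm, ← ENNReal.ofReal_coe_nnreal]
      exact ENNReal.ofReal_le_ofReal (hM x)⟩ hgR
    (fun x hx => by rw [hR x fun h => hx (ball_subset_ball (le_max_left _ _) h), enorm_zero])
    two_ne_zero hνμ (by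
      intro B hB s M h1 h2
      refine (hgν B hB).trans ?_
      rcases le_total s 1 with h3 | h3
      · exact h1.trans (mul_le_mul_left (pow_le_of_le_one zero_le h3 two_ne_zero) _)
      · exact ((hνle B).trans h2).trans (le_mul_of_one_le_left' h3)) (by
      intro z ρ s
      refine (cheb (measurable_ap _ _) s).trans ((ap_L2 _
        (hgB.memLp measurableSet_ball (hμ.ball_ne_top hC z ρ))).trans (mul_le_mul' ?_ ?_))
      · refine pow_le_pow_left' ?_ 2
        rw [← ofReal_norm, ← ENNReal.ofReal_coe_nnreal, LinearIsometryEquiv.norm_map]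
        exact ENNReal.ofReal_le_ofReal hA
      · refine le_trans ?_ (hgν _ measurableSet_ball)
        rw [← lintegral_indicator measurableSet_ball]
        refine lintegral_mono fun x => ?_
        by_cases hx : x ∈ ball z ρ
        · rw [indicator_of_mem hx, indicator_of_mem hx]
          exact pow_le_of_le_one zero_le ((hg1 x).trans (indicator_le_self _ _ x)) two_ne_zero
        · simp [hx]) (by
      intro k m h1
      have m0 : μ (Bn k m 0) ≠ 0 := fun h => h1 (hνμ h)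
      have mt : μ (Bn k m 0) ≠ ⊤ := hμ.ball_ne_top hC _ _
      have nt : ν (Bn k m 0) ≠ ⊤ := ne_top_of_le_ne_top mt (hνle _)
      refine ⟨(ν (Bn k m 0) / μ (Bn k m 0)) ^ (1 / 2 : ℝ), ?_, ?_, ?_, fun z hz => ?_⟩
      · simp [h1, mt]
      · exact ENNReal.rpow_ne_top_of_nonneg (by norm_num) (ENNReal.div_ne_top nt m0)
      · rw [sq, half_mul_half, ENNReal.div_mul_cancel m0 mt]
      · obtain ⟨k1, k2⟩ := key k m 0 z hz h1
        have e : (ν (Bn k m 0) / μ (Bn k m 0)) ^ (1 / 2 : ℝ) * μ (Bn k m 0) =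
            ν (Bn k m 0) ^ (1 / 2 : ℝ) * μ (Bn k m 0) ^ (1 / 2 : ℝ) := by
          nth_rewrite 2 [← half_mul_half (μ (Bn k m 0))]
          rw [← mul_assoc, ← ENNReal.mul_rpow_of_nonneg _ _ (by norm_num),
            ENNReal.div_mul_cancel m0 mt]
        rw [e]
        refine (mul_le_mul' (mul_le_mul' k2 (ENNReal.rpow_le_rpow
          (measure_mono (Bn_mono k m zero_le_one)) (by norm_num))) k1).trans_eq ?_
        rw [zero_add, mul_assoc (Mx μ ν z ^ (1 / 2 : ℝ)), half_mul_half]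
        ring) (by
      intro k m n z hz
      rcases eq_or_ne (ν (Bn k m 0)) 0 with h1 | h1
      · rw [nonpos_iff_eq_zero.1 ((hgν _ (hBm k m 0)).trans h1.le), zero_mul]
        exact zero_le
      obtain ⟨k1, k2⟩ := key k m n z hz h1
      have k3 := hgν _ (hBm k m 0)
      rw [← half_mul_half (ν (Bn k m 0))] at k3
      refine (mul_le_mul' (k3.trans (mul_le_mul' k2 (ENNReal.rpow_le_rpow (hνle _)
        (by norm_num)))) k1).trans_eq ?_
      rw [rpow_three_half]
      ring)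
  have hF : ∫⁻ x, min l (Mx μ φ x) * Mx μ ν x ^ (1 / 2 : ℝ) ∂μ ≤ 27 * φ univ := by
    refine (lintegral_mono fun x => young _ _ l l0 lt).trans ?_
    have h2 : l ^ (1 / 2 : ℝ) ≠ 0 := by simp [l0]
    have h3 : l ^ (1 / 2 : ℝ) ≠ ⊤ := ENNReal.rpow_ne_top_of_nonneg (by norm_num) lt
    rw [lintegral_add_left (((measurable_const.min (measurable_Mx μ φ)).pow_const _).const_mul _),
      lintegral_const_mul' _ _ (ENNReal.inv_ne_top.2 h2), lintegral_const_mul' _ _ lt]
    have h4 := strong_Mx μ (u := G'.indicator 1) (measurable_one.indicator hG'm)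
    rw [withDensity_indicator_one hG'm] at h4
    have h5 : ∫⁻ x, G'.indicator 1 x ^ (3 / 2 : ℝ) ∂μ ≤ μ G := by
      refine le_trans (le_of_eq ?_) (measure_mono (sdiff_subset (t := {x | l < Mx μ φ x})))
      rw [← lintegral_indicator_one hG'm]
      refine lintegral_congr fun x => ?_
      by_cases hx : x ∈ G' <;> simp [hx]
    calc _ ≤ (l ^ (1 / 2 : ℝ))⁻¹ * (3 * (φ univ * l ^ (1 / 2 : ℝ))) + l * (12 * μ G) :=
          add_le_add (mul_le_mul_right (trunc_max l) _)
            (mul_le_mul_right (h4.trans (mul_le_mul_right h5 _)) _)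
      _ = 3 * φ univ * ((l ^ (1 / 2 : ℝ))⁻¹ * l ^ (1 / 2 : ℝ)) + 12 * (l * μ G) := by ring
      _ = _ := by
          rw [ENNReal.inv_mul_cancel h2 h3, hlG]
          ring
  calc t * μ G ≤ 2 * (t * μ G') := by
        rw [mul_left_comm]
        exact mul_le_mul_right hGG _
    _ ≤ 2 * ∫⁻ x in G', ‖ap T f x‖ₑ ∂μ := by
        rw [← setLIntegral_const]
        exact mul_le_mul_right (setLIntegral_mono' hG'm fun x hx => le_of_lt hx.1.1) _
    _ ≤ 2 * (c * (27 * φ univ)) := by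
        refine mul_le_mul_right (le_trans ?_ (main.trans (mul_le_mul_right hF _))) _
        rw [sign_pair (by rw [ap_eq T hfm]; exact Lp.memLp _) hG'm hG't, ← hg, inner_ap hfm hgm]
        refine (enorm_integral_le_lintegral_enorm _).trans_eq (lintegral_congr fun x => ?_)
        rw [enorm_mul, mul_comm, ← ofReal_norm (conj _), Complex.norm_conj, ofReal_norm]
    _ = _ := by ring

end Pool.Agent.H287Z.A2
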