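import Mathlib
import Pool.Agent.H287Z.A2.Weak

set_option autoImplicit false
set_option linter.unusedSectionVars false
set_option linter.unusedSimpArgs false

open MeasureTheory Filter Topology Set Metric
open scoped NNReal ENNReal

noncomputable section

namespace Pool.Agent.H287Z.A2

variable {d : ℕ}

theorem holder43 {μ : Measure (X d)} {g V : X d → ℝ≥0∞} (hg : Measurable g) (hV : Measurable V)
    (h0 : ∀ x, V x ≠ 0) (ht : ∀ x, V x ≠ ⊤) (hfin : ∀ z ρ, μ.withDensity V (ball z ρ) ≠ ⊤)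
    (k : ℤ) (m : Ix d) (n : ℕ) {z : X d} (hz : z ∈ Bn k m n) :
    ∫⁻ x in Bn k m 0, g x ∂μ ≤ μ.withDensity V (Bn k m 0) ^ (1 / 4 : ℝ) *
      (μ.withDensity V (Bn k m (n + 1)) ^ (3 / 4 : ℝ) * Mx (μ.withDensity V)
        ((μ.withDensity V).withDensity fun x => (g x * (V x)⁻¹) ^ (4 / 3 : ℝ)) z ^ (3 / 4 : ℝ)) := by
  set σ := μ.withDensity V with hσ
  have hm : Measurable fun x => g x * (V x)⁻¹ := hg.mul hV.inv
  have e : ∫⁻ x in Bn k m 0, g x ∂μ =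
      ∫⁻ x in Bn k m 0, ((fun _ => 1) * fun x => g x * (V x)⁻¹ : X d → ℝ≥0∞) x ∂σ := by
    rw [hσ, setLIntegral_withDensity_eq_setLIntegral_mul _ hV (measurable_const.mul hm) (hBm k m 0)]
    refine lintegral_congr fun x => ?_
    simp only [Pi.mul_apply, one_mul]
    rw [mul_left_comm, ENNReal.mul_inv_cancel (h0 x) (ht x), mul_one]
  have hpq : Real.HolderConjugate 4 (4 / 3) := by
    rw [Real.holderConjugate_iff]
    norm_num
  rw [e]
  refine (ENNReal.lintegral_mul_le_Lp_mul_Lq _ hpq aemeasurable_const hm.aemeasurable).trans ?_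
  simp only [ENNReal.one_rpow, lintegral_const, Measure.restrict_apply MeasurableSet.univ,
    univ_inter, one_mul]
  refine mul_le_mul_right ?_ _
  rw [show (1 / (4 / 3) : ℝ) = 3 / 4 by norm_num, ← ENNReal.mul_rpow_of_nonneg _ _ (by norm_num),
    ← withDensity_apply _ (hBm k m 0), Bn_succ, mul_comm]
  exact ENNReal.rpow_le_rpow ((measure_mono (Bn_mono k m n.zero_le)).trans
    (le_Mx (withDensity_absolutelyContinuous _ _) hz (hfin _ _))) (by norm_num)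

theorem strong43 {μ : Measure (X d)} [SFinite μ] {g V : X d → ℝ≥0∞} (hg : Measurable g)
    (hV : Measurable V) (h0 : ∀ x, V x ≠ 0) (ht : ∀ x, V x ≠ ⊤) :
    ∫⁻ x, (Mx (μ.withDensity V) ((μ.withDensity V).withDensity
      fun x => (g x * (V x)⁻¹) ^ (4 / 3 : ℝ)) x ^ (3 / 4 : ℝ) * V x ^ (1 / 2 : ℝ)) ^ (2 : ℝ) ∂μ ≤
      12 * ∫⁻ x, g x ^ 2 * (V x)⁻¹ ∂μ := by
  have hm : Measurable fun x => (g x * (V x)⁻¹) ^ (4 / 3 : ℝ) := (hg.mul hV.inv).pow_const _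
  have h := strong_Mx (μ.withDensity V) hm
  rw [lintegral_withDensity_eq_lintegral_mul _ hV ((measurable_Mx _ _).pow_const _),
    lintegral_withDensity_eq_lintegral_mul _ hV (hm.pow_const _)] at h
  refine le_trans (le_of_eq (lintegral_congr fun x => ?_))
    (h.trans_eq (congrArg _ (lintegral_congr fun x => ?_)))
  · rw [Pi.mul_apply, ENNReal.mul_rpow_of_nonneg _ _ (by norm_num), ← ENNReal.rpow_mul,
      ← ENNReal.rpow_mul, mul_comm]
    norm_num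
  · rw [Pi.mul_apply, ← ENNReal.rpow_mul, show (4 / 3 * (3 / 2) : ℝ) = (2 : ℕ) by norm_num,
      ENNReal.rpow_natCast]
    calc V x * (g x * (V x)⁻¹) ^ 2 = g x ^ 2 * (V x)⁻¹ * (V x * (V x)⁻¹) := by ring
      _ = _ := by rw [ENNReal.mul_inv_cancel (h0 x) (ht x), mul_one]

theorem quarter (a b : ℝ≥0∞) {s : ℝ} (hs : 0 ≤ s) : (a * b ^ 2) ^ s = a ^ s * b ^ (2 * s) := by
  rw [ENNReal.mul_rpow_of_nonneg _ _ hs, ENNReal.rpow_mul, ENNReal.rpow_two]

theorem bilinear (d : ℕ) (C₀ : ℝ≥0∞) (hC : C₀ ≠ ⊤) (C : ℝ≥0) {δ : ℝ} (hδ : 0 < δ) (A : ℝ≥0) :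
    ∃ c : ℝ≥0∞, c ≠ ⊤ ∧ ∀ (μ : Measure (X d)) (K : X d → X d → ℂ) (T : L2 μ →L[ℂ] L2 μ),
      Gr C₀ μ → IsCZKernel C δ K → IsAssociated μ K T → ‖T‖ ≤ A →
      ∀ (W : X d → ℝ≥0∞) (a : ℝ≥0∞), Measurable W → (∀ x, W x ≠ 0) → (∀ x, W x ≠ ⊤) →
      (∀ z ρ, μ.withDensity W (ball z ρ) ≠ ⊤) →
      (∀ z ρ, μ.withDensity (fun x => (W x)⁻¹) (ball z ρ) ≠ ⊤) →
      (∀ z ρ, μ.withDensity W (ball z ρ) * μ.withDensity (fun x => (W x)⁻¹) (ball z ρ) ≤
        a * μ (ball z ρ) ^ 2) →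
      ∀ (f : X d → ℂ) (γ : X d → ℝ≥0∞) (R : ℝ), Bd f → Measurable γ → (∃ M : ℝ≥0, ∀ x, γ x ≤ M) →
      (∀ x, x ∉ ball 0 R → f x = 0) → (∀ x, x ∉ ball 0 R → γ x = 0) →
      ∫⁻ x, ‖ap T f x‖ₑ * γ x ∂μ ≤ c * a * (∫⁻ x, ‖f x‖ₑ ^ 2 * W x ∂μ) ^ (1 / 2 : ℝ) *
        (∫⁻ x, γ x ^ 2 * (W x)⁻¹ ∂μ) ^ (1 / 2 : ℝ) := by
  obtain ⟨Aw, hAw, hw⟩ := weak11 d C₀ hC C hδ A
  obtain ⟨c, hc, h⟩ := opcore d C₀ hC C hδ Aw hAw
  refine ⟨12 * c, by finiteness, ?_⟩
  intro μ K T hμ hK hT hA W a hW W0 Wt f1 f2 ha f γ R hf hγ hM hfR hγR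
  have := hμ.locFin hC
  have V0 : ∀ x, (W x)⁻¹ ≠ 0 := fun x => ENNReal.inv_ne_zero.2 (Wt x)
  have Vt : ∀ x, (W x)⁻¹ ≠ ⊤ := fun x => ENNReal.inv_ne_top.2 (W0 x)
  set σ := μ.withDensity fun x => (W x)⁻¹ with hσ
  set ω := μ.withDensity W with hω
  set P := Mx σ (σ.withDensity fun x => (‖f x‖ₑ * ((W x)⁻¹)⁻¹) ^ (4 / 3 : ℝ)) with hP
  set Q := Mx ω (ω.withDensity fun x => (γ x * (W x)⁻¹) ^ (4 / 3 : ℝ)) with hQ
  have mP : Measurable P := measurable_Mx _ _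
  have mQ : Measurable Q := measurable_Mx _ _
  have H2 : ∀ k m n, ∀ z ∈ Bn k m n,
      (∫⁻ x in Bn k m 0, ‖f x‖ₑ ∂μ) * ∫⁻ x in Bn k m 0, γ x ∂μ ≤
        μ (Bn k m 0) ^ (1 / 2 : ℝ) * μ (Bn k m (n + 1)) ^ (3 / 2 : ℝ) *
          (a * (P z ^ (3 / 4 : ℝ) * Q z ^ (3 / 4 : ℝ))) := by
    intro k m n z hz
    have a1 : ω (Bn k m 0) * σ (Bn k m 0) ≤ a * μ (Bn k m 0) ^ 2 := ha _ _
    have a2 : ω (Bn k m (n + 1)) * σ (Bn k m (n + 1)) ≤ a * μ (Bn k m (n + 1)) ^ 2 := ha _ _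
    have a3 := ENNReal.rpow_le_rpow a1 (z := 1 / 4) (by norm_num)
    have a4 := ENNReal.rpow_le_rpow a2 (z := 3 / 4) (by norm_num)
    rw [quarter _ _ (by norm_num), ENNReal.mul_rpow_of_nonneg _ _ (by norm_num)] at a3 a4
    have a5 : a ^ (1 / 4 : ℝ) * a ^ (3 / 4 : ℝ) = a := by
      rw [← ENNReal.rpow_add_of_nonneg _ _ (by norm_num) (by norm_num)]
      norm_num
    have b1 := holder43 (μ := μ) (V := fun x => (W x)⁻¹) hf.meas.enorm hW.inv V0 Vt f2 k m n hz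
    have b2 := holder43 (μ := μ) hγ hW W0 Wt f1 k m n hz
    rw [← hσ, ← hP] at b1
    rw [← hω, ← hQ] at b2
    calc _ ≤ _ := mul_le_mul' b1 b2
      _ = (ω (Bn k m 0) ^ (1 / 4 : ℝ) * σ (Bn k m 0) ^ (1 / 4 : ℝ)) *
          (ω (Bn k m (n + 1)) ^ (3 / 4 : ℝ) * σ (Bn k m (n + 1)) ^ (3 / 4 : ℝ)) *
          (P z ^ (3 / 4 : ℝ) * Q z ^ (3 / 4 : ℝ)) := by ring
      _ ≤ _ := mul_le_mul_left (mul_le_mul' a3 a4) _
      _ = μ (Bn k m 0) ^ (1 / 2 : ℝ) * μ (Bn k m (n + 1)) ^ (3 / 2 : ℝ) *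
          ((a ^ (1 / 4 : ℝ) * a ^ (3 / 4 : ℝ)) * (P z ^ (3 / 4 : ℝ) * Q z ^ (3 / 4 : ℝ))) := by
          rw [show (2 * (1 / 4) : ℝ) = 1 / 2 by norm_num, show (2 * (3 / 4) : ℝ) = 3 / 2 by norm_num]
          ring
      _ = _ := by rw [a5]
  set ν := μ.withDensity fun x => ‖f x‖ₑ with hν
  have hνμ : ν ≪ μ := withDensity_absolutelyContinuous _ _
  have main := h μ K T hμ hK hT f γ (fun z => a * (P z ^ (3 / 4 : ℝ) * Q z ^ (3 / 4 : ℝ))) R ν 1 hf
    hγ (((mP.pow_const _).mul (mQ.pow_const _)).const_mul a) hM hfR hγR one_ne_zero hνμ (by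
      intro B hB t M h1 _
      rwa [pow_one, hν, withDensity_apply _ hB] at h1) (by
      intro z ρ t
      obtain ⟨M, hM⟩ := hf.bd
      have h1 := hw μ K T hμ hK hT hA ((ball z ρ).indicator f) R
        ⟨hf.meas.indicator measurableSet_ball, M, fun x => (norm_indicator_le_norm_self _ _).trans
          (hM x)⟩ (fun x hx => indicator_apply_eq_zero.2 fun _ => hfR x hx) t
      rw [pow_one, hν, withDensity_apply _ measurableSet_ball,
        ← lintegral_indicator measurableSet_ball]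
      simpa only [enorm_indicator_eq_indicator_enorm] using h1) (by
      intro k m h1
      have m0 : μ (Bn k m 0) ≠ 0 := fun h => h1 (hνμ h)
      have mt : μ (Bn k m 0) ≠ ⊤ := hμ.ball_ne_top hC _ _
      have nt : ν (Bn k m 0) ≠ ⊤ := by
        rw [hν, withDensity_apply _ (hBm k m 0)]
        exact (hf.integrableOn mt).2.ne
      refine ⟨ν (Bn k m 0) / μ (Bn k m 0), (ENNReal.div_pos h1 mt).ne', ENNReal.div_ne_top nt m0,
        by rw [pow_one, ENNReal.div_mul_cancel m0 mt], fun z hz => ?_⟩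
      rw [ENNReal.div_mul_cancel m0 mt, hν, withDensity_apply _ (hBm k m 0)]
      refine (H2 k m 0 z hz).trans (mul_le_mul_left ?_ _)
      refine (mul_le_mul_left (ENNReal.rpow_le_rpow (measure_mono (Bn_mono k m zero_le_one))
        (by norm_num)) _).trans_eq ?_
      rw [zero_add, rpow_three_half, mul_left_comm, half_mul_half, sq]) H2
  refine main.trans ?_
  have mPQ : Measurable fun x => P x ^ (3 / 4 : ℝ) * Q x ^ (3 / 4 : ℝ) :=
    (mP.pow_const _).mul (mQ.pow_const _)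
  rw [lintegral_const_mul _ mPQ]
  have e : ∀ x, P x ^ (3 / 4 : ℝ) * Q x ^ (3 / 4 : ℝ) =
      ((fun x => P x ^ (3 / 4 : ℝ) * (W x)⁻¹ ^ (1 / 2 : ℝ)) *
        fun x => Q x ^ (3 / 4 : ℝ) * W x ^ (1 / 2 : ℝ) : X d → ℝ≥0∞) x := by
    intro x
    rw [Pi.mul_apply, mul_mul_mul_comm, ← ENNReal.mul_rpow_of_nonneg (W x)⁻¹ _ (by norm_num),
      ENNReal.inv_mul_cancel (W0 x) (Wt x), ENNReal.one_rpow, mul_one]
  have h1 := ENNReal.lintegral_mul_le_Lp_mul_Lq μ Real.HolderConjugate.two_two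
    ((mP.pow_const (3 / 4 : ℝ)).mul (hW.inv.pow_const (1 / 2 : ℝ))).aemeasurable
    ((mQ.pow_const (3 / 4 : ℝ)).mul (hW.pow_const (1 / 2 : ℝ))).aemeasurable
  have h2 := ENNReal.rpow_le_rpow
    (strong43 (μ := μ) (V := fun x => (W x)⁻¹) hf.meas.enorm hW.inv V0 Vt) (z := 1 / 2)
    (by norm_num)
  have h3 := ENNReal.rpow_le_rpow (strong43 (μ := μ) hγ hW W0 Wt) (z := 1 / 2) (by norm_num)
  rw [ENNReal.mul_rpow_of_nonneg _ _ (by norm_num)] at h2 h3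
  rw [lintegral_congr e]
  refine (mul_le_mul_right (mul_le_mul_right (h1.trans (mul_le_mul' h2 h3)) _) _).trans_eq ?_
  simp only [inv_inv]
  nth_rewrite 3 [← half_mul_half 12]
  ring

theorem bounded_case {μ : Measure (X d)} [SFinite μ] {u : X d → ℂ} (hu : Measurable u)
    (hfin : ∀ r, μ (ball 0 r) ≠ ⊤) {W : X d → ℝ≥0∞} (hW : Measurable W) (W0 : ∀ x, W x ≠ 0)
    (Wt : ∀ x, W x ≠ ⊤) (b : ℝ≥0∞) (h : ∀ (γ : X d → ℝ≥0∞) (R : ℝ), Measurable γ →
      (∃ M : ℝ≥0, ∀ x, γ x ≤ M) → (∀ x, x ∉ ball 0 R → γ x = 0) →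
      ∫⁻ x, ‖u x‖ₑ * γ x ∂μ ≤ b * (∫⁻ x, γ x ^ 2 * (W x)⁻¹ ∂μ) ^ (1 / 2 : ℝ)) :
    ∫⁻ x, ‖u x‖ₑ ^ 2 * W x ∂μ ≤ b ^ 2 := by
  set S : ℕ → Set (X d) := fun N => ({x | ‖u x‖ₑ ≤ N} ∩ {x | W x ≤ N}) ∩ ball 0 N with hS
  have hSm : ∀ N, MeasurableSet (S N) := fun N =>
    ((measurableSet_le hu.enorm measurable_const).inter
      (measurableSet_le hW measurable_const)).inter measurableSet_ball
  have hU : ⋃ N, S N = univ := by
    rw [eq_univ_iff_forall]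
    intro x
    obtain ⟨n1, h1⟩ := ENNReal.exists_nat_gt (enorm_ne_top (x := u x))
    obtain ⟨n2, h2⟩ := ENNReal.exists_nat_gt (Wt x)
    obtain ⟨n3, h3⟩ := exists_nat_gt ‖x‖
    refine mem_iUnion.2 ⟨n1 + n2 + n3, ⟨h1.le.trans (Nat.cast_le.2 (by omega)),
      h2.le.trans (Nat.cast_le.2 (by omega))⟩, ?_⟩
    rw [mem_ball_zero_iff]
    exact h3.trans_le (Nat.cast_le.2 (by omega))
  have hmono : Monotone S := fun a b hab x hx =>
    ⟨⟨le_trans (show ‖u x‖ₑ ≤ a from hx.1.1) (show (a : ℝ≥0∞) ≤ b from Nat.cast_le.2 hab),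
      le_trans (show W x ≤ a from hx.1.2) (show (a : ℝ≥0∞) ≤ b from Nat.cast_le.2 hab)⟩,
      ball_subset_ball (Nat.cast_le.2 hab) hx.2⟩
  rw [← setLIntegral_univ, ← hU, setLIntegral_iUnion_of_directed _ hmono.directed_le]
  refine iSup_le fun N => ?_
  set I := ∫⁻ x in S N, ‖u x‖ₑ ^ 2 * W x ∂μ with hI
  have It : I ≠ ⊤ := by
    refine ne_top_of_le_ne_top ?_ (setLIntegral_mono' (g := fun _ => (N : ℝ≥0∞) ^ 2 * N) (hSm N)
      fun x hx => mul_le_mul' (pow_le_pow_left' hx.1.1 2) hx.1.2)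
    rw [setLIntegral_const]
    exact ENNReal.mul_ne_top (by finiteness)
      (ne_top_of_le_ne_top (hfin N) (measure_mono inter_subset_right))
  have h1 := h ((S N).indicator fun x => ‖u x‖ₑ * W x) N ((hu.enorm.mul hW).indicator (hSm N))
    ⟨N * N, fun x => by
      by_cases hx : x ∈ S N
      · rw [indicator_of_mem hx]
        simpa using mul_le_mul' hx.1.1 hx.1.2
      · simp [hx]⟩ fun x hx => indicator_of_notMem (fun h => hx h.2) _
  have e1 : ∫⁻ x, ‖u x‖ₑ * (S N).indicator (fun x => ‖u x‖ₑ * W x) x ∂μ = I := by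
    rw [hI, ← lintegral_indicator (hSm N)]
    refine lintegral_congr fun x => ?_
    by_cases hx : x ∈ S N
    · rw [indicator_of_mem hx, indicator_of_mem hx]
      ring
    · simp [hx]
  have e2 : ∫⁻ x, (S N).indicator (fun x => ‖u x‖ₑ * W x) x ^ 2 * (W x)⁻¹ ∂μ = I := by
    rw [hI, ← lintegral_indicator (hSm N)]
    refine lintegral_congr fun x => ?_
    by_cases hx : x ∈ S N
    · rw [indicator_of_mem hx, indicator_of_mem hx]
      calc (‖u x‖ₑ * W x) ^ 2 * (W x)⁻¹ = ‖u x‖ₑ ^ 2 * W x * (W x * (W x)⁻¹) := by ring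
        _ = _ := by rw [ENNReal.mul_inv_cancel (W0 x) (Wt x), mul_one]
    · simp [hx]
  rw [e1, e2] at h1
  rcases eq_or_ne I 0 with I0 | I0
  · rw [I0]
    exact zero_le
  nth_rewrite 1 [← half_mul_half I] at h1
  rw [ENNReal.mul_le_mul_iff_left (by simp [I0])
    (ENNReal.rpow_ne_top_of_nonneg (by norm_num) It)] at h1
  rw [← half_mul_half I, sq]
  exact mul_le_mul' h1 h1

theorem extend {μ : Measure (X d)} (T : L2 μ →L[ℂ] L2 μ)
    {W : X d → ℝ≥0∞} (hW : Measurable W) (Wt : ∀ x, W x ≠ ⊤) (b : ℝ≥0∞)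
    (h : ∀ (f : X d → ℂ) (R : ℝ), Bd f → (∀ x, x ∉ ball 0 R → f x = 0) →
      ∫⁻ x, ‖ap T f x‖ₑ ^ 2 * W x ∂μ ≤ b * ∫⁻ x, ‖f x‖ₑ ^ 2 * W x ∂μ) (f : L2 μ) :
    ∫⁻ x, ‖T f x‖ₑ ^ 2 * W x ∂μ ≤ b * ∫⁻ x, ‖f x‖ₑ ^ 2 * W x ∂μ := by
  have hf : Measurable f := (Lp.stronglyMeasurable f).measurable
  set S : ℕ → Set (X d) := fun N => {x | ‖f x‖ ≤ N} ∩ ball 0 N with hS
  have hSm : ∀ N, MeasurableSet (S N) := fun N =>
    (measurableSet_le hf.norm measurable_const).inter measurableSet_ball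
  have hm : ∀ N, MemLp ((S N).indicator f) 2 μ := fun N => (Lp.memLp f).indicator (hSm N)
  have h1 : Tendsto (fun N => (hm N).toLp _) atTop (𝓝 f) := by
    rw [Lp.tendsto_Lp_iff_tendsto_eLpNorm']
    have h2 : Tendsto (fun N => ∫⁻ x, (S N)ᶜ.indicator (fun x => ‖f x‖ₑ ^ 2) x ∂μ) atTop
        (𝓝 (∫⁻ _x, 0 ∂μ)) := by
      refine tendsto_lintegral_of_dominated_convergence (fun x => ‖f x‖ₑ ^ 2)
        (fun N => (hf.enorm.pow_const 2).indicator (hSm N).compl)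
        (fun N => Eventually.of_forall fun x => indicator_le_self _ _ x) ?_
        (Eventually.of_forall fun x => ?_)
      · rw [lintegral_sq]
        exact ENNReal.pow_ne_top (Lp.eLpNorm_ne_top f)
      · refine tendsto_const_nhds.congr' ?_
        filter_upwards [tendsto_natCast_atTop_atTop.eventually_ge_atTop ‖f x‖,
          tendsto_natCast_atTop_atTop.eventually_gt_atTop ‖x‖] with N a1 a2
        have a3 : x ∈ S N := ⟨a1, mem_ball_zero_iff.2 a2⟩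
        simp [a3]
    have h3 := (ENNReal.continuous_rpow_const (y := 1 / 2)).continuousAt.tendsto.comp h2
    rw [lintegral_zero, ENNReal.zero_rpow_of_pos (by norm_num)] at h3
    refine h3.congr fun N => ?_
    have h4 : ∫⁻ x, (S N)ᶜ.indicator (fun x => ‖f x‖ₑ ^ 2) x ∂μ =
        eLpNorm (⇑((hm N).toLp _) - ⇑f) 2 μ ^ 2 := by
      rw [← lintegral_sq]
      refine lintegral_congr_ae ?_
      filter_upwards [(hm N).coeFn_toLp] with x hx
      rw [Pi.sub_apply, hx]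
      by_cases hx : x ∈ S N <;> simp [hx]
    rw [Function.comp_apply, h4, ← ENNReal.rpow_natCast, ← ENNReal.rpow_mul]
    norm_num
  obtain ⟨ns, -, h2⟩ := (tendstoInMeasure_of_tendsto_Lp
    ((T.continuous.tendsto f).comp h1)).exists_seq_tendsto_ae
  have h3 : ∫⁻ x, ‖T f x‖ₑ ^ 2 * W x ∂μ =
      ∫⁻ x, liminf (fun i => ‖ap T ((S (ns i)).indicator f) x‖ₑ ^ 2 * W x) atTop ∂μ := by
    refine lintegral_congr_ae ?_
    filter_upwards [h2] with x hx
    refine (Tendsto.liminf_eq ?_).symm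
    simp only [ap_eq T (hm _)]
    exact ENNReal.Tendsto.mul_const (ENNReal.Tendsto.pow hx.enorm) (Or.inr (Wt x))
  rw [h3]
  refine (lintegral_liminf_le fun i => ((measurable_ap _ _).enorm.pow_const 2).mul hW).trans
    (liminf_le_of_frequently_le' (Frequently.of_forall fun i => ?_))
  refine (h _ (ns i) ⟨hf.indicator (hSm _), ns i, fun x => ?_⟩
    fun x hx => indicator_of_notMem (fun h => hx h.2) _).trans
    (mul_le_mul_right (lintegral_mono fun x => mul_le_mul_left (pow_le_pow_left' ?_ 2) _) _)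
  · by_cases hx : x ∈ S (ns i)
    · rw [indicator_of_mem hx]
      exact hx.1
    · simp [hx]
  · rw [enorm_indicator_eq_indicator_enorm]
    exact indicator_le_self _ _ x

theorem linear_bound (d : ℕ) (C₀ C A : ℝ≥0) {δ : ℝ} (hδ : 0 < δ) : ∃ c : ℝ≥0,
    ∀ (μ : Measure (E d)) (K : E d → E d → ℂ) (T : L2 μ →L[ℂ] L2 μ) (w : E d → ℝ),
      IsGrowth C₀ μ → IsCZKernel C δ K → ‖T‖ ≤ A → IsAssociated μ K T → IsWeight μ w →
      ∀ f : L2 μ, wNorm μ w (T f) ≤ c * A2char μ w * wNorm μ w f := by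
  obtain ⟨c, hc, h⟩ := bilinear d C₀ ENNReal.coe_ne_top C hδ A
  refine ⟨c.toNNReal, ?_⟩
  intro μ K T w hμ hK hA hT hw f
  rw [ENNReal.coe_toNNReal hc]
  have hμ' : Gr C₀ μ := hμ
  have := hμ'.locFin ENNReal.coe_ne_top
  have hfin := hμ'.ball_ne_top ENNReal.coe_ne_top
  have hm := hw.locInt.aestronglyMeasurable.aemeasurable
  set W : X d → ℝ≥0∞ := fun x => if 0 < hm.mk w x then ENNReal.ofReal (hm.mk w x) else 1 with hW
  have mW : Measurable W := Measurable.ite (measurableSet_lt measurable_const hm.measurable_mk)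
    hm.measurable_mk.ennreal_ofReal measurable_const
  have W0 : ∀ x, W x ≠ 0 := fun x => by
    rw [hW]
    dsimp only
    split_ifs with h <;> simp [h]
  have Wt : ∀ x, W x ≠ ⊤ := fun x => by
    rw [hW]
    dsimp only
    split_ifs with h <;> simp
  have e1 : W =ᵐ[μ] fun x => ENNReal.ofReal (w x) := by
    filter_upwards [hw.pos, hm.ae_eq_mk] with x h1 h2
    rw [hW]
    dsimp only
    rw [← h2, if_pos h1]
  have e2 : (fun x => (W x)⁻¹) =ᵐ[μ] fun x => ENNReal.ofReal (w x)⁻¹ := by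
    filter_upwards [hw.pos, e1] with x h1 h2
    rw [h2, ENNReal.ofReal_inv_of_pos h1]
  have fin : ∀ (v : X d → ℝ) (V : X d → ℝ≥0∞), LocallyIntegrable v μ →
      (V =ᵐ[μ] fun x => ENNReal.ofReal (v x)) → ∀ z ρ, μ.withDensity V (ball z ρ) ≠ ⊤ := by
    intro v V hv e z ρ
    rw [withDensity_congr_ae e, withDensity_apply _ measurableSet_ball]
    exact (((hv.integrableOn_isCompact (isCompact_closedBall z ρ)).mono_set
      ball_subset_closedBall).lintegral_lt_top).ne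
  have ha : ∀ z ρ, μ.withDensity W (ball z ρ) * μ.withDensity (fun x => (W x)⁻¹) (ball z ρ) ≤
      A2char μ w * μ (ball z ρ) ^ 2 := by
    intro z ρ
    rcases eq_or_ne (μ (ball z ρ)) 0 with h0 | h0
    · rw [withDensity_absolutelyContinuous μ W h0, zero_mul]
      exact zero_le
    have hρ : 0 < ρ := nonempty_ball.1 (nonempty_of_measure_ne_zero h0)
    rw [withDensity_congr_ae e1, withDensity_congr_ae e2, withDensity_apply _ measurableSet_ball,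
      withDensity_apply _ measurableSet_ball]
    refine le_trans (le_of_eq ?_) (mul_le_mul_left
      (le_iSup_of_le z (le_iSup_of_le ρ (le_iSup_of_le hρ le_rfl))) _)
    rw [sq, mul_mul_mul_comm, ENNReal.div_mul_cancel h0 (hfin z ρ),
      ENNReal.div_mul_cancel h0 (hfin z ρ)]
  have key := extend T mW Wt ((c * A2char μ w) ^ 2) (by
    intro g R hg hR
    refine (bounded_case (measurable_ap T g) (hfin 0) mW W0 Wt
      (c * A2char μ w * (∫⁻ x, ‖g x‖ₑ ^ 2 * W x ∂μ) ^ (1 / 2 : ℝ)) fun γ R' h1 h2 h3 =>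
        h μ K T hμ' hK hT hA W _ mW W0 Wt (fin _ _ hw.locInt e1) (fin _ _ hw.locIntInv e2) ha g γ
          (max R R') hg h1 h2
          (fun x hx => hR x fun h => hx (ball_subset_ball (le_max_left _ _) h))
          fun x hx => h3 x fun h => hx (ball_subset_ball (le_max_right _ _) h)).trans_eq ?_
    rw [mul_pow, sq (_ ^ (1 / 2 : ℝ)), half_mul_half]) f
  have e3 : ∀ g : X d → ℂ, wNorm μ w g = (∫⁻ x, ‖g x‖ₑ ^ 2 * W x ∂μ) ^ (1 / 2 : ℝ) := by
    intro g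
    unfold wNorm
    congr 1
    refine lintegral_congr_ae ?_
    filter_upwards [e1] with x hx
    rw [hx]
  rw [e3, e3]
  refine (ENNReal.rpow_le_rpow key (by norm_num)).trans_eq ?_
  rw [ENNReal.mul_rpow_of_nonneg _ _ (by norm_num), ← ENNReal.rpow_natCast, ← ENNReal.rpow_mul]
  norm_num

end Pool.Agent.H287Z.A2
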